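import Mathlib

set_option autoImplicit false

/-!
# Three-strand ladders

A three-strand ladder of length `n` is a piece of an index 2 current graph.  Its incoming darts
are organised in triples; here we record the triples and the way the two circuits of the
current graph traverse the ladder.
-/

namespace Run7.h222.Genus

/-- Parameters of a three-strand ladder. -/
structure Lad where
  a : Fin 3 → ℤ
  l : Fin 3 → ℤ
  dl : Fin 3
  dr : Fin 3
  suml : l 0 + l 1 + l 2 = 0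
  hdl : dl * dl = 1
  hdr : dr * dr = 1

/-- speed of the low strands -/
def dL : Fin 3 → ℤ := ![-1, -1, 2]
/-- speed of the high strands -/
def dH : Fin 3 → ℤ := ![1, -2, 1]

/-- current of the `k`-th low strand at level `i` -/
def Lad.low (P : Lad) (k : Fin 3) (i : ℤ) : ℤ := 2 * (P.a k + dL k * i) + 1
/-- current of the `k`-th high strand at level `i` -/
def Lad.hig (P : Lad) (k : Fin 3) (i : ℤ) : ℤ := 2 * (P.a k + P.l k + dH k * i) + 1

/-- index type of the triples of a ladder of length `n` -/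
abbrev LT (n : ℕ) := (Fin 3 × Fin n) ⊕ (Fin n ⊕ ((Fin 3 × Fin (n - 1)) ⊕ Fin (n - 1)))

/-- the currents in the triples of a ladder -/
def Lad.cc (P : Lad) (n : ℕ) : LT n → Fin 3 → ℤ
  | .inl (k, i) => ![P.hig k (i : ℕ) - P.low k (i : ℕ), -P.hig k (i : ℕ), P.low k (i : ℕ)]
  | .inr (.inl i) => fun p =>
      -(P.hig (P.dl * p) (i : ℕ) - P.low (P.dl * p) (i : ℕ))
  | .inr (.inr (.inl (k, i))) => ![P.low k ((i : ℕ) + 1) - P.hig k (i : ℕ), P.hig k (i : ℕ),
      -P.low k ((i : ℕ) + 1)]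
  | .inr (.inr (.inr i)) => fun p =>
      -(P.low (P.dr * p) ((i : ℕ) + 1) - P.hig (P.dr * p) (i : ℕ))

/-- the sides of the darts in the triples of a ladder -/
def ladTT (n : ℕ) : LT n → Fin 3 → ZMod 2
  | .inl _ => ![0, 1, 0]
  | .inr (.inl _) => fun _ => 0
  | .inr (.inr (.inl _)) => ![1, 0, 1]
  | .inr (.inr (.inr _)) => fun _ => 1

theorem sum_perm (f : Fin 3 → ℤ) (δ : Fin 3) (hδ : δ * δ = 1) :
    f (δ * 0) + f (δ * 1) + f (δ * 2) = f 0 + f 1 + f 2 := by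
  have h : δ = 1 ∨ δ = 2 := by revert hδ; revert δ; decide
  rcases h with rfl | rfl
  · rfl
  · have e0 : (2 : Fin 3) * 0 = 0 := by decide
    have e1 : (2 : Fin 3) * 1 = 2 := by decide
    have e2 : (2 : Fin 3) * 2 = 1 := by decide
    rw [e0, e1, e2]; ring

theorem Lad.sum_zero (P : Lad) (n : ℕ) (τ : LT n) :
    P.cc n τ 0 + P.cc n τ 1 + P.cc n τ 2 = 0 := by
  rcases τ with ⟨k, i⟩ | i | ⟨k, i⟩ | i
  · show (P.hig k (i : ℕ) - P.low k (i : ℕ)) + (-P.hig k (i : ℕ)) + P.low k (i : ℕ) = 0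
    ring
  · have := sum_perm (fun k => -(P.hig k (i : ℕ) - P.low k (i : ℕ))) P.dl P.hdl
    show -(P.hig (P.dl * 0) (i : ℕ) - P.low (P.dl * 0) (i : ℕ))
      + -(P.hig (P.dl * 1) (i : ℕ) - P.low (P.dl * 1) (i : ℕ))
      + -(P.hig (P.dl * 2) (i : ℕ) - P.low (P.dl * 2) (i : ℕ)) = 0
    rw [this]
    simp only [Lad.hig, Lad.low, dL, dH]
    have h := P.suml
    simp
    linear_combination (-2) * h
  · show (P.low k ((i : ℕ) + 1) - P.hig k (i : ℕ)) + P.hig k (i : ℕ)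
      + (-P.low k ((i : ℕ) + 1)) = 0
    ring
  · have := sum_perm (fun k => -(P.low k ((i : ℕ) + 1) - P.hig k (i : ℕ))) P.dr P.hdr
    show -(P.low (P.dr * 0) ((i : ℕ) + 1) - P.hig (P.dr * 0) (i : ℕ))
      + -(P.low (P.dr * 1) ((i : ℕ) + 1) - P.hig (P.dr * 1) (i : ℕ))
      + -(P.low (P.dr * 2) ((i : ℕ) + 1) - P.hig (P.dr * 2) (i : ℕ)) = 0
    rw [this]
    simp only [Lad.hig, Lad.low, dL, dH]
    have h := P.suml
    simp
    linear_combination 2 * h

theorem cast_odd (x : ℤ) : ((2 * x + 1 : ℤ) : ZMod 2) = 1 := by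
  push_cast
  have : (2 : ZMod 2) = 0 := by decide
  rw [this]; ring

theorem cast_even (x : ℤ) : ((2 * x : ℤ) : ZMod 2) = 0 := by
  push_cast
  have : (2 : ZMod 2) = 0 := by decide
  rw [this]; ring

theorem Lad.low_odd (P : Lad) (k : Fin 3) (i : ℤ) : ((P.low k i : ℤ) : ZMod 2) = 1 :=
  cast_odd _

theorem Lad.hig_odd (P : Lad) (k : Fin 3) (i : ℤ) : ((P.hig k i : ℤ) : ZMod 2) = 1 :=
  cast_odd _

theorem Lad.par (P : Lad) (n : ℕ) (τ : LT n) (p : Fin 3) :
    ladTT n τ (p + 1) = ladTT n τ p + ((P.cc n τ (p + 1) : ℤ) : ZMod 2) := by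
  rcases τ with ⟨k, i⟩ | i | ⟨k, i⟩ | i
  · have e := P.low_odd k (i : ℕ)
    have e' := P.hig_odd k (i : ℕ)
    fin_cases p
    · show (1 : ZMod 2) = 0 + ((-P.hig k (i : ℕ) : ℤ) : ZMod 2)
      rw [Int.cast_neg, e']; decide
    · show (0 : ZMod 2) = 1 + ((P.low k (i : ℕ) : ℤ) : ZMod 2)
      rw [e]; decide
    · show (0 : ZMod 2) = 0 + ((P.hig k (i : ℕ) - P.low k (i : ℕ) : ℤ) : ZMod 2)
      rw [Int.cast_sub, e', e]; decide
  · show (0 : ZMod 2) = 0 + ((-(P.hig (P.dl * (p + 1)) (i : ℕ)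
      - P.low (P.dl * (p + 1)) (i : ℕ)) : ℤ) : ZMod 2)
    rw [Int.cast_neg, Int.cast_sub, P.low_odd, P.hig_odd]; decide
  · have e := P.low_odd k ((i : ℕ) + 1)
    have e' := P.hig_odd k (i : ℕ)
    fin_cases p
    · show (0 : ZMod 2) = 1 + ((P.hig k (i : ℕ) : ℤ) : ZMod 2)
      rw [e']; decide
    · show (1 : ZMod 2) = 0 + ((-P.low k ((i : ℕ) + 1) : ℤ) : ZMod 2)
      rw [Int.cast_neg, e]; decide
    · show (1 : ZMod 2) = 1 + ((P.low k ((i : ℕ) + 1) - P.hig k (i : ℕ) : ℤ) : ZMod 2)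
      rw [Int.cast_sub, e', e]; decide
  · show (1 : ZMod 2) = 1 + ((-(P.low (P.dr * (p + 1)) ((i : ℕ) + 1)
      - P.hig (P.dr * (p + 1)) (i : ℕ)) : ℤ) : ZMod 2)
    rw [Int.cast_neg, Int.cast_sub, P.low_odd, P.hig_odd]; decide

/-! ### Coverage by the darts of a ladder -/

/-- `c` is (mod `M`) the current of a dart of the ladder on side `t` -/
def Lad.Cov (P : Lad) (n : ℕ) (M : ℤ) (t : ZMod 2) (c : ℤ) : Prop :=
  ∃ (τ : LT n) (p : Fin 3) (m : ℤ), ladTT n τ p = t ∧ P.cc n τ p = c + M * m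

variable (P : Lad) {n : ℕ} {M : ℤ} {c : ℤ}

theorem Lad.cov_L (k : Fin 3) (i : ℤ) (h0 : 0 ≤ i) (h1 : i < n) (m : ℤ)
    (h : P.hig k i - P.low k i = c + M * m) : P.Cov n M 0 c := by
  lift i to ℕ using h0
  exact ⟨.inl (k, ⟨i, by exact_mod_cast h1⟩), 0, m, rfl, h⟩

theorem Lad.cov_h (k : Fin 3) (i : ℤ) (h0 : 0 ≤ i) (h1 : i < n) (m : ℤ)
    (h : -P.hig k i = c + M * m) : P.Cov n M 1 c := by
  lift i to ℕ using h0
  exact ⟨.inl (k, ⟨i, by exact_mod_cast h1⟩), 1, m, rfl, h⟩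

theorem Lad.cov_l (k : Fin 3) (i : ℤ) (h0 : 0 ≤ i) (h1 : i < n) (m : ℤ)
    (h : P.low k i = c + M * m) : P.Cov n M 0 c := by
  lift i to ℕ using h0
  exact ⟨.inl (k, ⟨i, by exact_mod_cast h1⟩), 2, m, rfl, h⟩

theorem fin3_mul (δ k : Fin 3) (h : δ * δ = 1) : δ * (δ * k) = k := by
  revert h; revert δ k; decide

theorem fin3_mul_add (δ k : Fin 3) (h : δ * δ = 1) : δ * (δ * k + 1) = k + δ := by
  revert h; revert δ k; decide

theorem Lad.cov_m (k : Fin 3) (i : ℤ) (h0 : 0 ≤ i) (h1 : i < n) (m : ℤ)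
    (h : -(P.hig k i - P.low k i) = c + M * m) : P.Cov n M 0 c := by
  lift i to ℕ using h0
  refine ⟨.inr (.inl ⟨i, by exact_mod_cast h1⟩), P.dl * k, m, rfl, ?_⟩
  show -(P.hig (P.dl * (P.dl * k)) _ - P.low (P.dl * (P.dl * k)) _) = _
  rw [fin3_mul _ _ P.hdl]
  exact h

theorem Lad.cov_R (k : Fin 3) (i : ℤ) (h0 : 0 ≤ i) (h1 : i + 1 < n) (m : ℤ)
    (h : P.low k (i + 1) - P.hig k i = c + M * m) : P.Cov n M 1 c := by
  lift i to ℕ using h0
  exact ⟨.inr (.inr (.inl (k, ⟨i, by omega⟩))), 0, m, rfl, h⟩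

theorem Lad.cov_H (k : Fin 3) (i : ℤ) (h0 : 0 ≤ i) (h1 : i + 1 < n) (m : ℤ)
    (h : P.hig k i = c + M * m) : P.Cov n M 0 c := by
  lift i to ℕ using h0
  exact ⟨.inr (.inr (.inl (k, ⟨i, by omega⟩))), 1, m, rfl, h⟩

theorem Lad.cov_K (k : Fin 3) (i : ℤ) (h0 : 0 ≤ i) (h1 : i + 1 < n) (m : ℤ)
    (h : -P.low k (i + 1) = c + M * m) : P.Cov n M 1 c := by
  lift i to ℕ using h0
  exact ⟨.inr (.inr (.inl (k, ⟨i, by omega⟩))), 2, m, rfl, h⟩

theorem Lad.cov_S (k : Fin 3) (i : ℤ) (h0 : 0 ≤ i) (h1 : i + 1 < n) (m : ℤ)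
    (h : -(P.low k (i + 1) - P.hig k i) = c + M * m) : P.Cov n M 1 c := by
  lift i to ℕ using h0
  refine ⟨.inr (.inr (.inr ⟨i, by omega⟩)), P.dr * k, m, rfl, ?_⟩
  show -(P.low (P.dr * (P.dr * k)) _ - P.hig (P.dr * (P.dr * k)) _) = _
  rw [fin3_mul _ _ P.hdr]
  exact h

/-! ### Traversal of a ladder by the two circuits -/

/-- iterated rotation of the three strands -/
def rot3 (δ k : Fin 3) : ℕ → Fin 3
  | 0 => k
  | n + 1 => rot3 δ k n + δ

theorem rot3_add_three (δ k : Fin 3) (n : ℕ) : rot3 δ k (n + 3) = rot3 δ k n := by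
  show rot3 δ k n + δ + δ + δ = rot3 δ k n
  generalize rot3 δ k n = x
  revert x δ; decide

theorem rot3_mul (δ k : Fin 3) (q r : ℕ) : rot3 δ k (3 * q + r) = rot3 δ k r := by
  induction q with
  | zero => simp
  | succ q ih =>
    have : 3 * (q + 1) + r = (3 * q + r) + 3 := by ring
    rw [this, rot3_add_three, ih]

variable {α : Sort*} (F : ℤ → α)

theorem Lad.low_eq_hig (hF : ∀ τ p, ladTT n τ p = 0 → F (P.cc n τ p) = F (-P.cc n τ (p + 1)))
    (k : Fin 3) (i : ℕ) (hi : i < n) : F (P.low k i) = F (P.hig (k + P.dl) i) := by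
  have h1 := hF (.inl (k, ⟨i, hi⟩)) 2 rfl
  have h1' : F (P.low k i) = F (-(P.hig k i - P.low k i)) := h1
  have h2 := hF (.inr (.inl ⟨i, hi⟩)) (P.dl * k) rfl
  have h2' : F (-(P.hig (P.dl * (P.dl * k)) i - P.low (P.dl * (P.dl * k)) i))
    = F (- -(P.hig (P.dl * (P.dl * k + 1)) i - P.low (P.dl * (P.dl * k + 1)) i)) := h2
  rw [fin3_mul _ _ P.hdl, fin3_mul_add _ _ P.hdl, neg_neg] at h2'
  have h3 := hF (.inl (k + P.dl, ⟨i, hi⟩)) 0 rfl
  have h3' : F (P.hig (k + P.dl) i - P.low (k + P.dl) i) = F (- -P.hig (k + P.dl) i) := h3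
  rw [neg_neg] at h3'
  exact h1'.trans (h2'.trans h3')

theorem Lad.hig_eq_low (hF : ∀ τ p, ladTT n τ p = 0 → F (P.cc n τ p) = F (-P.cc n τ (p + 1)))
    (k : Fin 3) (i : ℕ) (hi : i + 1 < n) : F (P.hig k i) = F (P.low k ((i : ℤ) + 1)) := by
  have h1 := hF (.inr (.inr (.inl (k, ⟨i, by omega⟩)))) 1 rfl
  have h1' : F (P.hig k i) = F (- -P.low k ((i : ℤ) + 1)) := h1
  rw [neg_neg] at h1'
  exact h1'

/-- passage of the first circuit through the ladder -/
theorem Lad.pass0 (hF : ∀ τ p, ladTT n τ p = 0 → F (P.cc n τ p) = F (-P.cc n τ (p + 1)))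
    (k : Fin 3) (i : ℕ) (hi : i < n) : F (P.low k 0) = F (P.hig (rot3 P.dl k (i + 1)) i) := by
  induction i with
  | zero =>
    exact P.low_eq_hig F hF k 0 hi
  | succ i ih =>
    rw [ih (by omega), P.hig_eq_low F hF _ i hi]
    have := P.low_eq_hig F hF (rot3 P.dl k (i + 1)) (i + 1) hi
    push_cast at this ⊢
    exact this

theorem Lad.all_low0 (hF : ∀ τ p, ladTT n τ p = 0 → F (P.cc n τ p) = F (-P.cc n τ (p + 1)))
    (X : α) (hX : ∀ k, F (P.low k 0) = X) (i : ℕ) (hi : i < n) : ∀ k, F (P.low k i) = X := by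
  induction i with
  | zero => intro k; simpa using hX k
  | succ i ih =>
    intro k
    have h1 := P.hig_eq_low F hF k i hi
    have h2 := P.low_eq_hig F hF (k - P.dl) i (by omega)
    have e : k - P.dl + P.dl = k := by
      have : ∀ x y : Fin 3, x - y + y = x := by decide
      exact this _ _
    rw [e, h1] at h2
    push_cast
    rw [← h2]
    exact ih (by omega) _

theorem Lad.all0 (hF : ∀ τ p, ladTT n τ p = 0 → F (P.cc n τ p) = F (-P.cc n τ (p + 1)))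
    (X : α) (hX : ∀ k, F (P.low k 0) = X) (τ : LT n) (p : Fin 3) (ht : ladTT n τ p = 0) :
    F (P.cc n τ p) = X := by
  have hlow := P.all_low0 F hF X hX
  have hhig : ∀ i : ℕ, i < n → ∀ k, F (P.hig k i) = X := by
    intro i hi k
    have h2 := P.low_eq_hig F hF (k - P.dl) i hi
    have e : k - P.dl + P.dl = k := by
      have : ∀ x y : Fin 3, x - y + y = x := by decide
      exact this _ _
    rw [e] at h2
    rw [← h2]
    exact hlow i hi _
  rcases τ with ⟨k, i⟩ | i | ⟨k, i⟩ | i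
  · fin_cases p
    · rw [hF _ _ ht]
      show F (- -P.hig k (i : ℕ)) = X
      rw [neg_neg]
      exact hhig i i.2 k
    · exact absurd (show (1 : ZMod 2) = 0 from ht) (by decide)
    · exact hlow i i.2 k
  · have h1 := hF (.inl (P.dl * p, i)) 2 rfl
    have h1' : F (P.low (P.dl * p) (i : ℕ)) =
      F (-(P.hig (P.dl * p) (i : ℕ) - P.low (P.dl * p) (i : ℕ))) := h1
    show F (-(P.hig (P.dl * p) (i : ℕ) - P.low (P.dl * p) (i : ℕ))) = X
    rw [← h1']
    exact hlow i i.2 _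
  · fin_cases p
    · exact absurd (show (1 : ZMod 2) = 0 from ht) (by decide)
    · exact hhig i (by omega) k
    · exact absurd (show (1 : ZMod 2) = 0 from ht) (by decide)
  · exact absurd (show (1 : ZMod 2) = 0 from ht) (by decide)

theorem Lad.nhig_eq_nlow
    (hF : ∀ τ p, ladTT n τ p = 1 → F (P.cc n τ p) = F (-P.cc n τ (p + 1)))
    (k : Fin 3) (i : ℕ) (hi : i < n) : F (-P.hig k i) = F (-P.low k i) :=
  hF (.inl (k, ⟨i, hi⟩)) 1 rfl

theorem Lad.nlow_succ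
    (hF : ∀ τ p, ladTT n τ p = 1 → F (P.cc n τ p) = F (-P.cc n τ (p + 1)))
    (k : Fin 3) (i : ℕ) (hi : i + 1 < n) :
    F (-P.low k ((i : ℤ) + 1)) = F (-P.low (k + P.dr) i) := by
  have h1 := hF (.inr (.inr (.inl (k, ⟨i, by omega⟩)))) 2 rfl
  have h1' : F (-P.low k ((i : ℤ) + 1)) = F (-(P.low k ((i : ℤ) + 1) - P.hig k i)) := h1
  have h2 := hF (.inr (.inr (.inr ⟨i, by omega⟩))) (P.dr * k) rfl
  have h2' : F (-(P.low (P.dr * (P.dr * k)) ((i : ℤ) + 1) - P.hig (P.dr * (P.dr * k)) i))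
    = F (- -(P.low (P.dr * (P.dr * k + 1)) ((i : ℤ) + 1)
      - P.hig (P.dr * (P.dr * k + 1)) i)) := h2
  rw [fin3_mul _ _ P.hdr, fin3_mul_add _ _ P.hdr, neg_neg] at h2'
  have h3 := hF (.inr (.inr (.inl (k + P.dr, ⟨i, by omega⟩)))) 0 rfl
  have h3' : F (P.low (k + P.dr) ((i : ℤ) + 1) - P.hig (k + P.dr) i)
    = F (-P.hig (k + P.dr) i) := h3
  rw [h1', h2', h3']
  exact P.nhig_eq_nlow F hF _ i (by omega)

/-- passage of the second circuit through the ladder -/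
theorem Lad.pass1 (hF : ∀ τ p, ladTT n τ p = 1 → F (P.cc n τ p) = F (-P.cc n τ (p + 1)))
    (k : Fin 3) (i : ℕ) (hi : i < n) : F (-P.hig k i) = F (-P.low (rot3 P.dr k i) 0) := by
  rw [P.nhig_eq_nlow F hF k i hi]
  induction i generalizing k with
  | zero => simp [rot3]
  | succ i ih =>
    have h := P.nlow_succ F hF k i hi
    push_cast
    rw [h, ih (k + P.dr) (by omega)]
    have : ∀ j, rot3 P.dr (k + P.dr) j = rot3 P.dr k (j + 1) := by
      intro j
      induction j with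
      | zero => rfl
      | succ j ihj =>
        show rot3 P.dr (k + P.dr) j + P.dr = _
        rw [ihj]; rfl
    rw [this]

theorem Lad.all_nlow (hF : ∀ τ p, ladTT n τ p = 1 → F (P.cc n τ p) = F (-P.cc n τ (p + 1)))
    (X : α) (hX : ∀ k, F (-P.low k 0) = X) (i : ℕ) (hi : i < n) :
    ∀ k, F (-P.low k i) = X := by
  induction i with
  | zero => intro k; simpa using hX k
  | succ i ih =>
    intro k
    have h := P.nlow_succ F hF k i hi
    push_cast
    rw [h]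
    exact ih (by omega) _

theorem Lad.all1 (hF : ∀ τ p, ladTT n τ p = 1 → F (P.cc n τ p) = F (-P.cc n τ (p + 1)))
    (X : α) (hX : ∀ k, F (-P.low k 0) = X) (τ : LT n) (p : Fin 3) (ht : ladTT n τ p = 1) :
    F (P.cc n τ p) = X := by
  have hlow := P.all_nlow F hF X hX
  have hhig : ∀ i : ℕ, i < n → ∀ k, F (-P.hig k i) = X := by
    intro i hi k
    rw [P.nhig_eq_nlow F hF k i hi]
    exact hlow i hi k
  rcases τ with ⟨k, i⟩ | i | ⟨k, i⟩ | i
  · fin_cases p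
    · exact absurd (show (0 : ZMod 2) = 1 from ht) (by decide)
    · exact hhig i i.2 k
    · exact absurd (show (0 : ZMod 2) = 1 from ht) (by decide)
  · exact absurd (show (0 : ZMod 2) = 1 from ht) (by decide)
  · have hi : (i : ℕ) < n := by omega
    fin_cases p
    · rw [hF _ _ ht]
      exact hhig i hi k
    · exact absurd (show (0 : ZMod 2) = 1 from ht) (by decide)
    · have := hlow ((i : ℕ) + 1) (by omega) k
      push_cast at this
      exact this
  · have h1 := hF (.inr (.inr (.inl (P.dr * p, i)))) 2 rfl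
    have h1' : F (-P.low (P.dr * p) ((i : ℕ) + 1)) =
      F (-(P.low (P.dr * p) ((i : ℕ) + 1) - P.hig (P.dr * p) (i : ℕ))) := h1
    show F (-(P.low (P.dr * p) ((i : ℕ) + 1) - P.hig (P.dr * p) (i : ℕ))) = X
    rw [← h1']
    have := hlow ((i : ℕ) + 1) (by omega) (P.dr * p)
    push_cast at this
    exact this

end Run7.h222.Genus
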