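import Mathlib
import Pool.Agent.Run7.h222.Ladder

set_option autoImplicit false
set_option linter.all false

/-!
# The family of index 2 current graphs for `K_{24s+2} - K_2`, `s ≥ 2`

Two ladders (of lengths `s - 1` and `s`), fourteen irregular vertices and two vortices.
The file is generated from the symbolic description of the family; every fact is checked by
`omega`, `ring` and `rfl`.
-/

namespace Run7.h222.Genus

/-- ladder P -/
def PL (S : ℤ) : Lad where
  a := ![0, 4 * S, 7 * S + 2]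
  l := ![2, 3 * S - 2, -3 * S]
  dl := 2
  dr := 1
  suml := by show (2 : ℤ) + (3 * S - 2) + (-3 * S) = 0; ring
  hdl := by decide
  hdr := by decide

/-- ladder Q -/
def QL (S : ℤ) : Lad where
  a := ![11 * S + 1, 3 * S + 1, 5 * S + 1]
  l := ![10 * S + 1, 6 * S - 2, -16 * S + 1]
  dl := 1
  dr := 1
  suml := by show (10 * S + 1 : ℤ) + (6 * S - 2) + (-16 * S + 1) = 0; ring
  hdl := by decide
  hdr := by decide

theorem Plow0 (S i : ℤ) : (PL S).low 0 i = 1 + (-2) * i := by
  show 2 * ((0 : ℤ) + (-1) * i) + 1 = _; ring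
theorem Phig0 (S i : ℤ) : (PL S).hig 0 i = 5 + (2) * i := by
  show 2 * ((0 : ℤ) + (2) + (1) * i) + 1 = _; ring
theorem Plow1 (S i : ℤ) : (PL S).low 1 i = 8 * S + 1 + (-2) * i := by
  show 2 * ((4 * S : ℤ) + (-1) * i) + 1 = _; ring
theorem Phig1 (S i : ℤ) : (PL S).hig 1 i = 14 * S - 3 + (-4) * i := by
  show 2 * ((4 * S : ℤ) + (3 * S - 2) + (-2) * i) + 1 = _; ring
theorem Plow2 (S i : ℤ) : (PL S).low 2 i = 14 * S + 5 + (4) * i := by
  show 2 * ((7 * S + 2 : ℤ) + (2) * i) + 1 = _; ring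
theorem Phig2 (S i : ℤ) : (PL S).hig 2 i = 8 * S + 5 + (2) * i := by
  show 2 * ((7 * S + 2 : ℤ) + (-3 * S) + (1) * i) + 1 = _; ring
theorem Qlow0 (S i : ℤ) : (QL S).low 0 i = 22 * S + 3 + (-2) * i := by
  show 2 * ((11 * S + 1 : ℤ) + (-1) * i) + 1 = _; ring
theorem Qhig0 (S i : ℤ) : (QL S).hig 0 i = 42 * S + 5 + (2) * i := by
  show 2 * ((11 * S + 1 : ℤ) + (10 * S + 1) + (1) * i) + 1 = _; ring
theorem Qlow1 (S i : ℤ) : (QL S).low 1 i = 6 * S + 3 + (-2) * i := by
  show 2 * ((3 * S + 1 : ℤ) + (-1) * i) + 1 = _; ring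
theorem Qhig1 (S i : ℤ) : (QL S).hig 1 i = 18 * S - 1 + (-4) * i := by
  show 2 * ((3 * S + 1 : ℤ) + (6 * S - 2) + (-2) * i) + 1 = _; ring
theorem Qlow2 (S i : ℤ) : (QL S).low 2 i = 10 * S + 3 + (4) * i := by
  show 2 * ((5 * S + 1 : ℤ) + (2) * i) + 1 = _; ring
theorem Qhig2 (S i : ℤ) : (QL S).hig 2 i = -22 * S + 5 + (2) * i := by
  show 2 * ((5 * S + 1 : ℤ) + (-16 * S + 1) + (1) * i) + 1 = _; ring

/-- currents of the irregular vertices -/
def irr (S : ℤ) : Fin 14 → Fin 3 → ℤ :=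
  ![![18 * S + 2, 10 * S - 5, 20 * S + 3],
    ![12 * S - 2, 2 * S - 3, 10 * S + 5],
    ![12 * S + 2, 18 * S - 3, 18 * S + 1],
    ![12 * S, 10 * S - 1, 2 * S + 1],
    ![6 * S - 2, 16 * S - 1, 2 * S + 3],
    ![4 * S + 2, 14 * S + 1, 6 * S - 3],
    ![16 * S, 8 * S + 3, -3],
    ![12 * S, 14 * S + 3, 22 * S - 3],
    ![4 * S, 4 * S + 3, 16 * S - 3],
    ![-2, 3, -1],
    ![4 * S - 2, 14 * S, 6 * S + 2],
    ![10 * S, 18 * S, 20 * S],
    ![2, 6 * S, 18 * S - 2],
    ![8 * S, 20 * S - 2, 20 * S + 2]]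

/-- sides of the irregular vertices -/
def irt : Fin 14 → Fin 3 → ZMod 2 :=
  ![![0, 1, 0],
    ![0, 1, 0],
    ![0, 1, 0],
    ![0, 1, 0],
    ![0, 1, 0],
    ![1, 0, 1],
    ![1, 0, 1],
    ![1, 0, 1],
    ![1, 0, 1],
    ![1, 0, 1],
    ![1, 1, 1],
    ![1, 1, 1],
    ![1, 1, 1],
    ![1, 1, 1]]

/-- currents at the vortices -/
def vxi (S : ℤ) (z : Bool) (t : ZMod 2) : ℤ :=
  if t = 0 then (if z = false then 18 * S + 3 else 10 * S + 1) else (if z = false then 6 * S - 1 else 14 * S - 3)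

theorem vxi_0_0 (S : ℤ) : vxi S false 0 = 18 * S + 3 := rfl
theorem vxi_0_1 (S : ℤ) : vxi S false 1 = 6 * S - 1 := rfl
theorem vxi_1_0 (S : ℤ) : vxi S true 0 = 10 * S + 1 := rfl
theorem vxi_1_1 (S : ℤ) : vxi S true 1 = 14 * S - 3 := rfl

theorem irr_sum (S : ℤ) (j : Fin 14) : ∃ m : ℤ, irr S j 0 + irr S j 1 + irr S j 2 = 24 * S * m := by
  fin_cases j
  · exact ⟨2, by show (18 * S + 2 : ℤ) + (10 * S - 5) + (20 * S + 3) = _; ring⟩
  · exact ⟨1, by show (12 * S - 2 : ℤ) + (2 * S - 3) + (10 * S + 5) = _; ring⟩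
  · exact ⟨2, by show (12 * S + 2 : ℤ) + (18 * S - 3) + (18 * S + 1) = _; ring⟩
  · exact ⟨1, by show (12 * S : ℤ) + (10 * S - 1) + (2 * S + 1) = _; ring⟩
  · exact ⟨1, by show (6 * S - 2 : ℤ) + (16 * S - 1) + (2 * S + 3) = _; ring⟩
  · exact ⟨1, by show (4 * S + 2 : ℤ) + (14 * S + 1) + (6 * S - 3) = _; ring⟩
  · exact ⟨1, by show (16 * S : ℤ) + (8 * S + 3) + (-3) = _; ring⟩
  · exact ⟨2, by show (12 * S : ℤ) + (14 * S + 3) + (22 * S - 3) = _; ring⟩
  · exact ⟨1, by show (4 * S : ℤ) + (4 * S + 3) + (16 * S - 3) = _; ring⟩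
  · exact ⟨0, by show (-2 : ℤ) + (3) + (-1) = _; ring⟩
  · exact ⟨1, by show (4 * S - 2 : ℤ) + (14 * S) + (6 * S + 2) = _; ring⟩
  · exact ⟨2, by show (10 * S : ℤ) + (18 * S) + (20 * S) = _; ring⟩
  · exact ⟨1, by show (2 : ℤ) + (6 * S) + (18 * S - 2) = _; ring⟩
  · exact ⟨2, by show (8 * S : ℤ) + (20 * S - 2) + (20 * S + 2) = _; ring⟩

theorem irr_par (S : ℤ) (j : Fin 14) (p : Fin 3) :
    irt j (p + 1) = irt j p + ((irr S j (p + 1) : ℤ) : ZMod 2) := by
  have h24 : (24 : ZMod 2) = 0 := by decide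
  have h2 : (2 : ZMod 2) = 0 := by decide
  fin_cases j <;> fin_cases p
  · show (1 : ZMod 2) = 0 + ((10 * S - 5 : ℤ) : ZMod 2)
    rw [show (10 * S - 5 : ℤ) = 2 * (5 * S - 3) + 1 by ring, cast_odd]; decide
  · show (0 : ZMod 2) = 1 + ((20 * S + 3 : ℤ) : ZMod 2)
    rw [show (20 * S + 3 : ℤ) = 2 * (10 * S + 1) + 1 by ring, cast_odd]; decide
  · show (0 : ZMod 2) = 0 + ((18 * S + 2 : ℤ) : ZMod 2)
    rw [show (18 * S + 2 : ℤ) = 2 * (9 * S + 1) by ring, cast_even]; decide
  · show (1 : ZMod 2) = 0 + ((2 * S - 3 : ℤ) : ZMod 2)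
    rw [show (2 * S - 3 : ℤ) = 2 * (S - 2) + 1 by ring, cast_odd]; decide
  · show (0 : ZMod 2) = 1 + ((10 * S + 5 : ℤ) : ZMod 2)
    rw [show (10 * S + 5 : ℤ) = 2 * (5 * S + 2) + 1 by ring, cast_odd]; decide
  · show (0 : ZMod 2) = 0 + ((12 * S - 2 : ℤ) : ZMod 2)
    rw [show (12 * S - 2 : ℤ) = 2 * (6 * S - 1) by ring, cast_even]; decide
  · show (1 : ZMod 2) = 0 + ((18 * S - 3 : ℤ) : ZMod 2)
    rw [show (18 * S - 3 : ℤ) = 2 * (9 * S - 2) + 1 by ring, cast_odd]; decide
  · show (0 : ZMod 2) = 1 + ((18 * S + 1 : ℤ) : ZMod 2)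
    rw [show (18 * S + 1 : ℤ) = 2 * (9 * S) + 1 by ring, cast_odd]; decide
  · show (0 : ZMod 2) = 0 + ((12 * S + 2 : ℤ) : ZMod 2)
    rw [show (12 * S + 2 : ℤ) = 2 * (6 * S + 1) by ring, cast_even]; decide
  · show (1 : ZMod 2) = 0 + ((10 * S - 1 : ℤ) : ZMod 2)
    rw [show (10 * S - 1 : ℤ) = 2 * (5 * S - 1) + 1 by ring, cast_odd]; decide
  · show (0 : ZMod 2) = 1 + ((2 * S + 1 : ℤ) : ZMod 2)
    rw [show (2 * S + 1 : ℤ) = 2 * (S) + 1 by ring, cast_odd]; decide
  · show (0 : ZMod 2) = 0 + ((12 * S : ℤ) : ZMod 2)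
    rw [show (12 * S : ℤ) = 2 * (6 * S) by ring, cast_even]; decide
  · show (1 : ZMod 2) = 0 + ((16 * S - 1 : ℤ) : ZMod 2)
    rw [show (16 * S - 1 : ℤ) = 2 * (8 * S - 1) + 1 by ring, cast_odd]; decide
  · show (0 : ZMod 2) = 1 + ((2 * S + 3 : ℤ) : ZMod 2)
    rw [show (2 * S + 3 : ℤ) = 2 * (S + 1) + 1 by ring, cast_odd]; decide
  · show (0 : ZMod 2) = 0 + ((6 * S - 2 : ℤ) : ZMod 2)
    rw [show (6 * S - 2 : ℤ) = 2 * (3 * S - 1) by ring, cast_even]; decide
  · show (0 : ZMod 2) = 1 + ((14 * S + 1 : ℤ) : ZMod 2)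
    rw [show (14 * S + 1 : ℤ) = 2 * (7 * S) + 1 by ring, cast_odd]; decide
  · show (1 : ZMod 2) = 0 + ((6 * S - 3 : ℤ) : ZMod 2)
    rw [show (6 * S - 3 : ℤ) = 2 * (3 * S - 2) + 1 by ring, cast_odd]; decide
  · show (1 : ZMod 2) = 1 + ((4 * S + 2 : ℤ) : ZMod 2)
    rw [show (4 * S + 2 : ℤ) = 2 * (2 * S + 1) by ring, cast_even]; decide
  · show (0 : ZMod 2) = 1 + ((8 * S + 3 : ℤ) : ZMod 2)
    rw [show (8 * S + 3 : ℤ) = 2 * (4 * S + 1) + 1 by ring, cast_odd]; decide
  · show (1 : ZMod 2) = 0 + ((-3 : ℤ) : ZMod 2)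
    rw [show (-3 : ℤ) = 2 * (-2) + 1 by ring, cast_odd]; decide
  · show (1 : ZMod 2) = 1 + ((16 * S : ℤ) : ZMod 2)
    rw [show (16 * S : ℤ) = 2 * (8 * S) by ring, cast_even]; decide
  · show (0 : ZMod 2) = 1 + ((14 * S + 3 : ℤ) : ZMod 2)
    rw [show (14 * S + 3 : ℤ) = 2 * (7 * S + 1) + 1 by ring, cast_odd]; decide
  · show (1 : ZMod 2) = 0 + ((22 * S - 3 : ℤ) : ZMod 2)
    rw [show (22 * S - 3 : ℤ) = 2 * (11 * S - 2) + 1 by ring, cast_odd]; decide
  · show (1 : ZMod 2) = 1 + ((12 * S : ℤ) : ZMod 2)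
    rw [show (12 * S : ℤ) = 2 * (6 * S) by ring, cast_even]; decide
  · show (0 : ZMod 2) = 1 + ((4 * S + 3 : ℤ) : ZMod 2)
    rw [show (4 * S + 3 : ℤ) = 2 * (2 * S + 1) + 1 by ring, cast_odd]; decide
  · show (1 : ZMod 2) = 0 + ((16 * S - 3 : ℤ) : ZMod 2)
    rw [show (16 * S - 3 : ℤ) = 2 * (8 * S - 2) + 1 by ring, cast_odd]; decide
  · show (1 : ZMod 2) = 1 + ((4 * S : ℤ) : ZMod 2)
    rw [show (4 * S : ℤ) = 2 * (2 * S) by ring, cast_even]; decide
  · show (0 : ZMod 2) = 1 + ((3 : ℤ) : ZMod 2)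
    rw [show (3 : ℤ) = 2 * (1) + 1 by ring, cast_odd]; decide
  · show (1 : ZMod 2) = 0 + ((-1 : ℤ) : ZMod 2)
    rw [show (-1 : ℤ) = 2 * (-1) + 1 by ring, cast_odd]; decide
  · show (1 : ZMod 2) = 1 + ((-2 : ℤ) : ZMod 2)
    rw [show (-2 : ℤ) = 2 * (-1) by ring, cast_even]; decide
  · show (1 : ZMod 2) = 1 + ((14 * S : ℤ) : ZMod 2)
    rw [show (14 * S : ℤ) = 2 * (7 * S) by ring, cast_even]; decide
  · show (1 : ZMod 2) = 1 + ((6 * S + 2 : ℤ) : ZMod 2)
    rw [show (6 * S + 2 : ℤ) = 2 * (3 * S + 1) by ring, cast_even]; decide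
  · show (1 : ZMod 2) = 1 + ((4 * S - 2 : ℤ) : ZMod 2)
    rw [show (4 * S - 2 : ℤ) = 2 * (2 * S - 1) by ring, cast_even]; decide
  · show (1 : ZMod 2) = 1 + ((18 * S : ℤ) : ZMod 2)
    rw [show (18 * S : ℤ) = 2 * (9 * S) by ring, cast_even]; decide
  · show (1 : ZMod 2) = 1 + ((20 * S : ℤ) : ZMod 2)
    rw [show (20 * S : ℤ) = 2 * (10 * S) by ring, cast_even]; decide
  · show (1 : ZMod 2) = 1 + ((10 * S : ℤ) : ZMod 2)
    rw [show (10 * S : ℤ) = 2 * (5 * S) by ring, cast_even]; decide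
  · show (1 : ZMod 2) = 1 + ((6 * S : ℤ) : ZMod 2)
    rw [show (6 * S : ℤ) = 2 * (3 * S) by ring, cast_even]; decide
  · show (1 : ZMod 2) = 1 + ((18 * S - 2 : ℤ) : ZMod 2)
    rw [show (18 * S - 2 : ℤ) = 2 * (9 * S - 1) by ring, cast_even]; decide
  · show (1 : ZMod 2) = 1 + ((2 : ℤ) : ZMod 2)
    rw [show (2 : ℤ) = 2 * (1) by ring, cast_even]; decide
  · show (1 : ZMod 2) = 1 + ((20 * S - 2 : ℤ) : ZMod 2)
    rw [show (20 * S - 2 : ℤ) = 2 * (10 * S - 1) by ring, cast_even]; decide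
  · show (1 : ZMod 2) = 1 + ((20 * S + 2 : ℤ) : ZMod 2)
    rw [show (20 * S + 2 : ℤ) = 2 * (10 * S + 1) by ring, cast_even]; decide
  · show (1 : ZMod 2) = 1 + ((8 * S : ℤ) : ZMod 2)
    rw [show (8 * S : ℤ) = 2 * (4 * S) by ring, cast_even]; decide

theorem vxi_odd (S : ℤ) (z : Bool) (t : ZMod 2) : ((vxi S z t : ℤ) : ZMod 2) = 1 := by
  have h01 : ∀ x : ZMod 2, x = 0 ∨ x = 1 := by decide
  rcases h01 t with rfl | rfl <;> cases z
  · rw [vxi_0_0, show (18 * S + 3 : ℤ) = 2 * (9 * S + 1) + 1 by ring, cast_odd]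
  · rw [vxi_1_0, show (10 * S + 1 : ℤ) = 2 * (5 * S) + 1 by ring, cast_odd]
  · rw [vxi_0_1, show (6 * S - 1 : ℤ) = 2 * (3 * S - 1) + 1 by ring, cast_odd]
  · rw [vxi_1_1, show (14 * S - 3 : ℤ) = 2 * (7 * S - 2) + 1 by ring, cast_odd]

/-- `c` is (mod `24 S`) the current of an incoming dart on side `t` -/
def Cov (r : ℕ) (S : ℤ) (t : ZMod 2) (c : ℤ) : Prop :=
  (PL S).Cov (r + 1) (24 * S) t c ∨ (QL S).Cov (r + 2) (24 * S) t c ∨
    (∃ (j : Fin 14) (p : Fin 3) (m : ℤ), irt j p = t ∧ irr S j p = c + 24 * S * m) ∨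
    (∃ (z : Bool) (m : ℤ), vxi S z t = c + 24 * S * m)

set_option maxHeartbeats 4000000 in
theorem cov_0_1 (r : ℕ) (S : ℤ) (hS : S = r + 2) (c : ℤ) (hp : c % 2 = 1) (h0 : 1 ≤ c)
    (h1 : c ≤ 24 * S - 1) : Cov r S 0 c := by
  by_cases g0 : c < 3
  · exact Or.inl ((PL S).cov_l 0 ((c + 24 * S * (0) - (1)) / (-2)) (by omega) (by omega) (0)
      (by rw [Plow0]; omega))
  by_cases g1 : c < 5
  · exact Or.inr (Or.inr (Or.inl ⟨9, 1, 0, rfl, by
      show (3 : ℤ) = c + 24 * S * 0; omega⟩))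
  by_cases g2 : c < 2 * S + 1
  · exact Or.inl ((PL S).cov_H 0 ((c + 24 * S * (0) - (5)) / (2)) (by omega) (by omega) (0)
      (by rw [Phig0]; omega))
  by_cases g3 : c < 2 * S + 3
  · exact Or.inr (Or.inr (Or.inl ⟨3, 2, 0, rfl, by
      show (2 * S + 1 : ℤ) = c + 24 * S * 0; omega⟩))
  by_cases g4 : c < 2 * S + 5
  · exact Or.inr (Or.inr (Or.inl ⟨4, 2, 0, rfl, by
      show (2 * S + 3 : ℤ) = c + 24 * S * 0; omega⟩))
  by_cases g5 : c < 4 * S + 3
  · exact Or.inr (Or.inl ((QL S).cov_H 2 ((c + 24 * S * (-1) - (-22 * S + 5)) / (2)) (by omega) (by omega) (-1)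
      (by rw [Qhig2]; omega)))
  by_cases g6 : c < 4 * S + 5
  · exact Or.inr (Or.inr (Or.inl ⟨8, 1, 0, rfl, by
      show (4 * S + 3 : ℤ) = c + 24 * S * 0; omega⟩))
  by_cases g7 : c < 6 * S + 5
  · exact Or.inr (Or.inl ((QL S).cov_l 1 ((c + 24 * S * (0) - (6 * S + 3)) / (-2)) (by omega) (by omega) (0)
      (by rw [Qlow1]; omega)))
  by_cases g8 : c < 8 * S + 3
  · exact Or.inl ((PL S).cov_l 1 ((c + 24 * S * (0) - (8 * S + 1)) / (-2)) (by omega) (by omega) (0)
      (by rw [Plow1]; omega))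
  by_cases g9 : c < 8 * S + 5
  · exact Or.inr (Or.inr (Or.inl ⟨6, 1, 0, rfl, by
      show (8 * S + 3 : ℤ) = c + 24 * S * 0; omega⟩))
  by_cases g10 : c < 10 * S + 1
  · exact Or.inl ((PL S).cov_H 2 ((c + 24 * S * (0) - (8 * S + 5)) / (2)) (by omega) (by omega) (0)
      (by rw [Phig2]; omega))
  by_cases g11 : c < 10 * S + 3
  · exact Or.inr (Or.inr (Or.inr ⟨true, 0, by rw [vxi_1_0]; omega⟩))
  by_cases g12 : c < 10 * S + 5
  · exact Or.inr (Or.inl ((QL S).cov_l 2 ((c + 24 * S * (0) - (10 * S + 3)) / (4)) (by omega) (by omega) (0)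
      (by rw [Qlow2]; omega)))
  by_cases g13 : c < 10 * S + 7
  · exact Or.inr (Or.inr (Or.inl ⟨1, 2, 0, rfl, by
      show (10 * S + 5 : ℤ) = c + 24 * S * 0; omega⟩))
  by_cases g14 : c < 14 * S + 1
  · by_cases gg : (c - (14 * S - 3)) % 4 = 0
    · exact Or.inl ((PL S).cov_H 1 ((c + 24 * S * (0) - (14 * S - 3)) / (-4)) (by omega) (by omega) (0)
        (by rw [Phig1]; omega))
    · exact Or.inr (Or.inl ((QL S).cov_l 2 ((c + 24 * S * (0) - (10 * S + 3)) / (4)) (by omega) (by omega) (0)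
        (by rw [Qlow2]; omega)))
  by_cases g15 : c < 14 * S + 3
  · exact Or.inr (Or.inr (Or.inl ⟨5, 1, 0, rfl, by
      show (14 * S + 1 : ℤ) = c + 24 * S * 0; omega⟩))
  by_cases g16 : c < 14 * S + 5
  · exact Or.inr (Or.inr (Or.inl ⟨7, 1, 0, rfl, by
      show (14 * S + 3 : ℤ) = c + 24 * S * 0; omega⟩))
  by_cases g17 : c < 18 * S + 1
  · by_cases gg : (c - (14 * S + 5)) % 4 = 0
    · exact Or.inl ((PL S).cov_l 2 ((c + 24 * S * (0) - (14 * S + 5)) / (4)) (by omega) (by omega) (0)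
        (by rw [Plow2]; omega))
    · exact Or.inr (Or.inl ((QL S).cov_H 1 ((c + 24 * S * (0) - (18 * S - 1)) / (-4)) (by omega) (by omega) (0)
        (by rw [Qhig1]; omega)))
  by_cases g18 : c < 18 * S + 3
  · exact Or.inr (Or.inr (Or.inl ⟨2, 2, 0, rfl, by
      show (18 * S + 1 : ℤ) = c + 24 * S * 0; omega⟩))
  by_cases g19 : c < 18 * S + 5
  · exact Or.inr (Or.inr (Or.inr ⟨false, 0, by rw [vxi_0_0]; omega⟩))
  by_cases g20 : c < 20 * S + 3
  · exact Or.inr (Or.inl ((QL S).cov_H 0 ((c + 24 * S * (1) - (42 * S + 5)) / (2)) (by omega) (by omega) (1)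
      (by rw [Qhig0]; omega)))
  by_cases g21 : c < 20 * S + 5
  · exact Or.inr (Or.inr (Or.inl ⟨0, 2, 0, rfl, by
      show (20 * S + 3 : ℤ) = c + 24 * S * 0; omega⟩))
  by_cases g22 : c < 22 * S + 5
  · exact Or.inr (Or.inl ((QL S).cov_l 0 ((c + 24 * S * (0) - (22 * S + 3)) / (-2)) (by omega) (by omega) (0)
      (by rw [Qlow0]; omega)))
  exact Or.inl ((PL S).cov_l 0 ((c + 24 * S * (-1) - (1)) / (-2)) (by omega) (by omega) (-1)
    (by rw [Plow0]; omega))

set_option maxHeartbeats 4000000 in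
theorem cov_0_0 (r : ℕ) (S : ℤ) (hS : S = r + 2) (c : ℤ) (hp : c % 2 = 0) (h0 : 2 ≤ c)
    (h1 : c ≤ 24 * S - 2) : Cov r S 0 c := by
  by_cases g0 : c < 4 * S
  · by_cases gg : (c - (4)) % 4 = 0
    · exact Or.inl ((PL S).cov_L 0 ((c + 24 * S * (0) - (4)) / (4)) (by omega) (by omega) (0)
        (by rw [Phig0, Plow0]; omega))
    · exact Or.inr (Or.inl ((QL S).cov_m 0 ((c + 24 * S * (-1) - (-20 * S - 2)) / (-4)) (by omega) (by omega) (-1)
        (by rw [Qhig0, Qlow0]; omega)))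
  by_cases g1 : c < 6 * S - 2
  · exact Or.inl ((PL S).cov_L 1 ((c + 24 * S * (0) - (6 * S - 4)) / (-2)) (by omega) (by omega) (0)
      (by rw [Phig1, Plow1]; omega))
  by_cases g2 : c < 6 * S
  · exact Or.inr (Or.inr (Or.inl ⟨4, 0, 0, rfl, by
      show (6 * S - 2 : ℤ) = c + 24 * S * 0; omega⟩))
  by_cases g3 : c < 8 * S - 2
  · exact Or.inl ((PL S).cov_m 2 ((c + 24 * S * (0) - (6 * S)) / (2)) (by omega) (by omega) (0)
      (by rw [Phig2, Plow2]; omega))
  by_cases g4 : c < 10 * S - 2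
  · exact Or.inr (Or.inl ((QL S).cov_m 2 ((c + 24 * S * (1) - (32 * S - 2)) / (2)) (by omega) (by omega) (1)
      (by rw [Qhig2, Qlow2]; omega)))
  by_cases g5 : c < 12 * S - 2
  · exact Or.inr (Or.inl ((QL S).cov_L 1 ((c + 24 * S * (0) - (12 * S - 4)) / (-2)) (by omega) (by omega) (0)
      (by rw [Qhig1, Qlow1]; omega)))
  by_cases g6 : c < 12 * S
  · exact Or.inr (Or.inr (Or.inl ⟨1, 0, 0, rfl, by
      show (12 * S - 2 : ℤ) = c + 24 * S * 0; omega⟩))
  by_cases g7 : c < 12 * S + 2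
  · exact Or.inr (Or.inr (Or.inl ⟨3, 0, 0, rfl, by
      show (12 * S : ℤ) = c + 24 * S * 0; omega⟩))
  by_cases g8 : c < 12 * S + 4
  · exact Or.inr (Or.inr (Or.inl ⟨2, 0, 0, rfl, by
      show (12 * S + 2 : ℤ) = c + 24 * S * 0; omega⟩))
  by_cases g9 : c < 14 * S + 4
  · exact Or.inr (Or.inl ((QL S).cov_m 1 ((c + 24 * S * (-1) - (-12 * S + 4)) / (2)) (by omega) (by omega) (-1)
      (by rw [Qhig1, Qlow1]; omega)))
  by_cases g10 : c < 16 * S + 4
  · exact Or.inr (Or.inl ((QL S).cov_L 2 ((c + 24 * S * (-2) - (-32 * S + 2)) / (-2)) (by omega) (by omega) (-2)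
      (by rw [Qhig2, Qlow2]; omega)))
  by_cases g11 : c < 18 * S + 2
  · exact Or.inl ((PL S).cov_L 2 ((c + 24 * S * (-1) - (-6 * S)) / (-2)) (by omega) (by omega) (-1)
      (by rw [Phig2, Plow2]; omega))
  by_cases g12 : c < 18 * S + 4
  · exact Or.inr (Or.inr (Or.inl ⟨0, 0, 0, rfl, by
      show (18 * S + 2 : ℤ) = c + 24 * S * 0; omega⟩))
  by_cases g13 : c < 20 * S + 2
  · exact Or.inl ((PL S).cov_m 1 ((c + 24 * S * (-1) - (-6 * S + 4)) / (2)) (by omega) (by omega) (-1)
      (by rw [Phig1, Plow1]; omega))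
  by_cases gg : (c - (-4)) % 4 = 0
  · exact Or.inl ((PL S).cov_m 0 ((c + 24 * S * (-1) - (-4)) / (-4)) (by omega) (by omega) (-1)
      (by rw [Phig0, Plow0]; omega))
  · exact Or.inr (Or.inl ((QL S).cov_L 0 ((c + 24 * S * (0) - (20 * S + 2)) / (4)) (by omega) (by omega) (0)
      (by rw [Qhig0, Qlow0]; omega)))

set_option maxHeartbeats 4000000 in
theorem cov_1_1 (r : ℕ) (S : ℤ) (hS : S = r + 2) (c : ℤ) (hp : c % 2 = 1) (h0 : 1 ≤ c)
    (h1 : c ≤ 24 * S - 1) : Cov r S 1 c := by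
  by_cases g0 : c < 2 * S - 3
  · exact Or.inl ((PL S).cov_K 0 ((c + 24 * S * (0) - (1)) / (2)) (by omega) (by omega) (0)
      (by rw [Plow0]; omega))
  by_cases g1 : c < 2 * S - 1
  · exact Or.inr (Or.inr (Or.inl ⟨1, 1, 0, rfl, by
      show (2 * S - 3 : ℤ) = c + 24 * S * 0; omega⟩))
  by_cases g2 : c < 4 * S - 3
  · exact Or.inr (Or.inl ((QL S).cov_K 0 ((c + 24 * S * (-1) - (-22 * S - 1)) / (2)) (by omega) (by omega) (-1)
      (by rw [Qlow0]; omega)))
  by_cases g3 : c < 6 * S - 3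
  · exact Or.inr (Or.inl ((QL S).cov_h 0 ((c + 24 * S * (-2) - (-42 * S - 5)) / (-2)) (by omega) (by omega) (-2)
      (by rw [Qhig0]; omega)))
  by_cases g4 : c < 6 * S - 1
  · exact Or.inr (Or.inr (Or.inl ⟨5, 2, 0, rfl, by
      show (6 * S - 3 : ℤ) = c + 24 * S * 0; omega⟩))
  by_cases g5 : c < 6 * S + 1
  · exact Or.inr (Or.inr (Or.inr ⟨false, 0, by rw [vxi_0_1]; omega⟩))
  by_cases g6 : c < 10 * S - 5
  · by_cases gg : (c - (-14 * S - 9)) % 4 = 0
    · exact Or.inl ((PL S).cov_K 2 ((c + 24 * S * (-1) - (-14 * S - 9)) / (-4)) (by omega) (by omega) (-1)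
        (by rw [Plow2]; omega))
    · exact Or.inr (Or.inl ((QL S).cov_h 1 ((c + 24 * S * (-1) - (-18 * S + 1)) / (4)) (by omega) (by omega) (-1)
        (by rw [Qhig1]; omega)))
  by_cases g7 : c < 10 * S - 3
  · exact Or.inr (Or.inr (Or.inl ⟨0, 1, 0, rfl, by
      show (10 * S - 5 : ℤ) = c + 24 * S * 0; omega⟩))
  by_cases g8 : c < 10 * S - 1
  · exact Or.inr (Or.inl ((QL S).cov_h 1 ((c + 24 * S * (-1) - (-18 * S + 1)) / (4)) (by omega) (by omega) (-1)
      (by rw [Qhig1]; omega)))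
  by_cases g9 : c < 10 * S + 1
  · exact Or.inr (Or.inr (Or.inl ⟨3, 1, 0, rfl, by
      show (10 * S - 1 : ℤ) = c + 24 * S * 0; omega⟩))
  by_cases g10 : c < 14 * S - 3
  · by_cases gg : (c - (-14 * S + 3)) % 4 = 0
    · exact Or.inl ((PL S).cov_h 1 ((c + 24 * S * (-1) - (-14 * S + 3)) / (4)) (by omega) (by omega) (-1)
        (by rw [Phig1]; omega))
    · exact Or.inr (Or.inl ((QL S).cov_K 2 ((c + 24 * S * (-1) - (-10 * S - 7)) / (-4)) (by omega) (by omega) (-1)
        (by rw [Qlow2]; omega)))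
  by_cases g11 : c < 14 * S - 1
  · exact Or.inr (Or.inr (Or.inr ⟨true, 0, by rw [vxi_1_1]; omega⟩))
  by_cases g12 : c < 16 * S - 3
  · exact Or.inl ((PL S).cov_h 2 ((c + 24 * S * (-1) - (-8 * S - 5)) / (-2)) (by omega) (by omega) (-1)
      (by rw [Phig2]; omega))
  by_cases g13 : c < 16 * S - 1
  · exact Or.inr (Or.inr (Or.inl ⟨8, 2, 0, rfl, by
      show (16 * S - 3 : ℤ) = c + 24 * S * 0; omega⟩))
  by_cases g14 : c < 16 * S + 1
  · exact Or.inr (Or.inr (Or.inl ⟨4, 1, 0, rfl, by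
      show (16 * S - 1 : ℤ) = c + 24 * S * 0; omega⟩))
  by_cases g15 : c < 18 * S - 3
  · exact Or.inl ((PL S).cov_K 1 ((c + 24 * S * (-1) - (-8 * S + 1)) / (2)) (by omega) (by omega) (-1)
      (by rw [Plow1]; omega))
  by_cases g16 : c < 18 * S - 1
  · exact Or.inr (Or.inr (Or.inl ⟨2, 1, 0, rfl, by
      show (18 * S - 3 : ℤ) = c + 24 * S * 0; omega⟩))
  by_cases g17 : c < 20 * S - 3
  · exact Or.inr (Or.inl ((QL S).cov_K 1 ((c + 24 * S * (-1) - (-6 * S - 1)) / (2)) (by omega) (by omega) (-1)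
      (by rw [Qlow1]; omega)))
  by_cases g18 : c < 22 * S - 3
  · exact Or.inr (Or.inl ((QL S).cov_h 2 ((c + 24 * S * (0) - (22 * S - 5)) / (-2)) (by omega) (by omega) (0)
      (by rw [Qhig2]; omega)))
  by_cases g19 : c < 22 * S - 1
  · exact Or.inr (Or.inr (Or.inl ⟨7, 2, 0, rfl, by
      show (22 * S - 3 : ℤ) = c + 24 * S * 0; omega⟩))
  by_cases g20 : c < 24 * S - 3
  · exact Or.inl ((PL S).cov_h 0 ((c + 24 * S * (-1) - (-5)) / (-2)) (by omega) (by omega) (-1)
      (by rw [Phig0]; omega))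
  by_cases g21 : c < 24 * S - 1
  · exact Or.inr (Or.inr (Or.inl ⟨6, 2, -1, rfl, by
      show (-3 : ℤ) = c + 24 * S * -1; omega⟩))
  exact Or.inr (Or.inr (Or.inl ⟨9, 2, -1, rfl, by
    show (-1 : ℤ) = c + 24 * S * -1; omega⟩))

set_option maxHeartbeats 4000000 in
theorem cov_1_0 (r : ℕ) (S : ℤ) (hS : S = r + 2) (c : ℤ) (hp : c % 2 = 0) (h0 : 2 ≤ c)
    (h1 : c ≤ 24 * S - 2) : Cov r S 1 c := by
  by_cases g0 : c < 4
  · exact Or.inr (Or.inr (Or.inl ⟨12, 0, 0, rfl, by
      show (2 : ℤ) = c + 24 * S * 0; omega⟩))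
  by_cases g1 : c < 4 * S - 2
  · by_cases gg : (c - (6)) % 4 = 0
    · exact Or.inl ((PL S).cov_S 0 ((c + 24 * S * (0) - (6)) / (4)) (by omega) (by omega) (0)
        (by rw [Plow0, Phig0]; omega))
    · exact Or.inr (Or.inl ((QL S).cov_R 0 ((c + 24 * S * (-1) - (-20 * S - 4)) / (-4)) (by omega) (by omega) (-1)
        (by rw [Qlow0, Qhig0]; omega)))
  by_cases g2 : c < 4 * S
  · exact Or.inr (Or.inr (Or.inl ⟨10, 0, 0, rfl, by
      show (4 * S - 2 : ℤ) = c + 24 * S * 0; omega⟩))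
  by_cases g3 : c < 4 * S + 2
  · exact Or.inr (Or.inr (Or.inl ⟨8, 0, 0, rfl, by
      show (4 * S : ℤ) = c + 24 * S * 0; omega⟩))
  by_cases g4 : c < 4 * S + 4
  · exact Or.inr (Or.inr (Or.inl ⟨5, 0, 0, rfl, by
      show (4 * S + 2 : ℤ) = c + 24 * S * 0; omega⟩))
  by_cases g5 : c < 6 * S
  · exact Or.inl ((PL S).cov_S 1 ((c + 24 * S * (0) - (6 * S - 2)) / (-2)) (by omega) (by omega) (0)
      (by rw [Plow1, Phig1]; omega))
  by_cases g6 : c < 6 * S + 2
  · exact Or.inr (Or.inr (Or.inl ⟨12, 1, 0, rfl, by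
      show (6 * S : ℤ) = c + 24 * S * 0; omega⟩))
  by_cases g7 : c < 6 * S + 4
  · exact Or.inr (Or.inr (Or.inl ⟨10, 2, 0, rfl, by
      show (6 * S + 2 : ℤ) = c + 24 * S * 0; omega⟩))
  by_cases g8 : c < 8 * S
  · exact Or.inl ((PL S).cov_R 2 ((c + 24 * S * (0) - (6 * S + 4)) / (2)) (by omega) (by omega) (0)
      (by rw [Plow2, Phig2]; omega))
  by_cases g9 : c < 8 * S + 2
  · exact Or.inr (Or.inr (Or.inl ⟨13, 0, 0, rfl, by
      show (8 * S : ℤ) = c + 24 * S * 0; omega⟩))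
  by_cases g10 : c < 10 * S
  · exact Or.inr (Or.inl ((QL S).cov_R 2 ((c + 24 * S * (1) - (32 * S + 2)) / (2)) (by omega) (by omega) (1)
      (by rw [Qlow2, Qhig2]; omega)))
  by_cases g11 : c < 10 * S + 2
  · exact Or.inr (Or.inr (Or.inl ⟨11, 0, 0, rfl, by
      show (10 * S : ℤ) = c + 24 * S * 0; omega⟩))
  by_cases g12 : c < 12 * S
  · exact Or.inr (Or.inl ((QL S).cov_S 1 ((c + 24 * S * (0) - (12 * S - 2)) / (-2)) (by omega) (by omega) (0)
      (by rw [Qlow1, Qhig1]; omega)))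
  by_cases g13 : c < 12 * S + 2
  · exact Or.inr (Or.inr (Or.inl ⟨7, 0, 0, rfl, by
      show (12 * S : ℤ) = c + 24 * S * 0; omega⟩))
  by_cases g14 : c < 14 * S
  · exact Or.inr (Or.inl ((QL S).cov_R 1 ((c + 24 * S * (-1) - (-12 * S + 2)) / (2)) (by omega) (by omega) (-1)
      (by rw [Qlow1, Qhig1]; omega)))
  by_cases g15 : c < 14 * S + 2
  · exact Or.inr (Or.inr (Or.inl ⟨10, 1, 0, rfl, by
      show (14 * S : ℤ) = c + 24 * S * 0; omega⟩))
  by_cases g16 : c < 16 * S
  · exact Or.inr (Or.inl ((QL S).cov_S 2 ((c + 24 * S * (-2) - (-32 * S - 2)) / (-2)) (by omega) (by omega) (-2)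
      (by rw [Qlow2, Qhig2]; omega)))
  by_cases g17 : c < 16 * S + 2
  · exact Or.inr (Or.inr (Or.inl ⟨6, 0, 0, rfl, by
      show (16 * S : ℤ) = c + 24 * S * 0; omega⟩))
  by_cases g18 : c < 18 * S - 2
  · exact Or.inl ((PL S).cov_S 2 ((c + 24 * S * (-1) - (-6 * S - 4)) / (-2)) (by omega) (by omega) (-1)
      (by rw [Plow2, Phig2]; omega))
  by_cases g19 : c < 18 * S
  · exact Or.inr (Or.inr (Or.inl ⟨12, 2, 0, rfl, by
      show (18 * S - 2 : ℤ) = c + 24 * S * 0; omega⟩))
  by_cases g20 : c < 18 * S + 2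
  · exact Or.inr (Or.inr (Or.inl ⟨11, 1, 0, rfl, by
      show (18 * S : ℤ) = c + 24 * S * 0; omega⟩))
  by_cases g21 : c < 20 * S - 2
  · exact Or.inl ((PL S).cov_R 1 ((c + 24 * S * (-1) - (-6 * S + 2)) / (2)) (by omega) (by omega) (-1)
      (by rw [Plow1, Phig1]; omega))
  by_cases g22 : c < 20 * S
  · exact Or.inr (Or.inr (Or.inl ⟨13, 1, 0, rfl, by
      show (20 * S - 2 : ℤ) = c + 24 * S * 0; omega⟩))
  by_cases g23 : c < 20 * S + 2
  · exact Or.inr (Or.inr (Or.inl ⟨11, 2, 0, rfl, by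
      show (20 * S : ℤ) = c + 24 * S * 0; omega⟩))
  by_cases g24 : c < 20 * S + 4
  · exact Or.inr (Or.inr (Or.inl ⟨13, 2, 0, rfl, by
      show (20 * S + 2 : ℤ) = c + 24 * S * 0; omega⟩))
  by_cases g25 : c < 24 * S - 2
  · by_cases gg : (c - (-6)) % 4 = 0
    · exact Or.inl ((PL S).cov_R 0 ((c + 24 * S * (-1) - (-6)) / (-4)) (by omega) (by omega) (-1)
        (by rw [Plow0, Phig0]; omega))
    · exact Or.inr (Or.inl ((QL S).cov_S 0 ((c + 24 * S * (0) - (20 * S + 4)) / (4)) (by omega) (by omega) (0)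
        (by rw [Qlow0, Qhig0]; omega)))
  exact Or.inr (Or.inr (Or.inl ⟨9, 0, -1, rfl, by
    show (-2 : ℤ) = c + 24 * S * -1; omega⟩))

theorem cov_all (r : ℕ) (S : ℤ) (hS : S = r + 2) (t : ZMod 2) (c : ℤ) (h0 : 1 ≤ c)
    (h1 : c ≤ 24 * S - 1) : Cov r S t c := by
  have h01 : ∀ x : ZMod 2, x = 0 ∨ x = 1 := by decide
  rcases Int.emod_two_eq_zero_or_one c with hp | hp
  · rcases h01 t with rfl | rfl
    · exact cov_0_0 r S hS c hp (by omega) (by omega)
    · exact cov_1_0 r S hS c hp (by omega) (by omega)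
  · rcases h01 t with rfl | rfl
    · exact cov_0_1 r S hS c hp h0 h1
    · exact cov_1_1 r S hS c hp h0 h1

theorem tr {α : Sort*} {F : ℤ → α} {M : ℤ} (hper : ∀ x m, F (x + M * m) = F x) {x y A B : ℤ}
    (h : F x = F y) (mA mB : ℤ) (hA : A = x + M * mA) (hB : B = y + M * mB) : F A = F B := by
  rw [hA, hB, hper, hper]; exact h

set_option maxHeartbeats 4000000 in
theorem chain_0_0 {α : Sort*} (F : ℤ → α) (G : Bool → α) (S : ℤ)
    (hper : ∀ x m, F (x + 24 * S * m) = F x)
    (hirr : ∀ j p, irt j p = 0 → F (irr S j p) = F (-irr S j (p + 1)))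
    (hv : ∀ z, F (vxi S z 0) = G z) (hv2 : ∀ z, G z = F (-vxi S z 1))
    (hP : ∀ k, F ((PL S).low k 0) = F ((PL S).hig ((![2, 0, 1] : Fin 3 → Fin 3) k) (S - 2)))
    (hQ : ∀ k, F ((QL S).low k 0) = F ((QL S).hig ((![2, 0, 1] : Fin 3 → Fin 3) k) (S - 1))) :
    (∀ j p, irt j p = 0 → F (irr S j p) = G false) ∧ (∀ k, F ((PL S).low k 0) = G false) ∧
      (∀ k, F ((QL S).low k 0) = G false) ∧ G true = G false := by
  have e0 : F (18 * S + 2) = F (14 * S + 5) := tr hper (hirr 0 0 rfl) (0) (1)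
      (by show (18 * S + 2 : ℤ) = (18 * S + 2) + 24 * S * (0); ring)
      (by show (14 * S + 5 : ℤ) = -(10 * S - 5) + 24 * S * (1); ring)
  have e1 : F (20 * S + 3) = F (6 * S - 2) := tr hper (hirr 0 2 rfl) (0) (1)
      (by show (20 * S + 3 : ℤ) = (20 * S + 3) + 24 * S * (0); ring)
      (by show (6 * S - 2 : ℤ) = -(18 * S + 2) + 24 * S * (1); ring)
  have e2 : F (12 * S - 2) = F (22 * S + 3) := tr hper (hirr 1 0 rfl) (0) (1)
      (by show (12 * S - 2 : ℤ) = (12 * S - 2) + 24 * S * (0); ring)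
      (by show (22 * S + 3 : ℤ) = -(2 * S - 3) + 24 * S * (1); ring)
  have e3 : F (10 * S + 5) = F (12 * S + 2) := tr hper (hirr 1 2 rfl) (0) (1)
      (by show (10 * S + 5 : ℤ) = (10 * S + 5) + 24 * S * (0); ring)
      (by show (12 * S + 2 : ℤ) = -(12 * S - 2) + 24 * S * (1); ring)
  have e4 : F (12 * S + 2) = F (6 * S + 3) := tr hper (hirr 2 0 rfl) (0) (1)
      (by show (12 * S + 2 : ℤ) = (12 * S + 2) + 24 * S * (0); ring)
      (by show (6 * S + 3 : ℤ) = -(18 * S - 3) + 24 * S * (1); ring)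
  have e5 : F (18 * S + 1) = F (12 * S - 2) := tr hper (hirr 2 2 rfl) (0) (1)
      (by show (18 * S + 1 : ℤ) = (18 * S + 1) + 24 * S * (0); ring)
      (by show (12 * S - 2 : ℤ) = -(12 * S + 2) + 24 * S * (1); ring)
  have e6 : F (12 * S) = F (14 * S + 1) := tr hper (hirr 3 0 rfl) (0) (1)
      (by show (12 * S : ℤ) = (12 * S) + 24 * S * (0); ring)
      (by show (14 * S + 1 : ℤ) = -(10 * S - 1) + 24 * S * (1); ring)
  have e7 : F (2 * S + 1) = F (12 * S) := tr hper (hirr 3 2 rfl) (0) (1)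
      (by show (2 * S + 1 : ℤ) = (2 * S + 1) + 24 * S * (0); ring)
      (by show (12 * S : ℤ) = -(12 * S) + 24 * S * (1); ring)
  have e8 : F (6 * S - 2) = F (8 * S + 1) := tr hper (hirr 4 0 rfl) (0) (1)
      (by show (6 * S - 2 : ℤ) = (6 * S - 2) + 24 * S * (0); ring)
      (by show (8 * S + 1 : ℤ) = -(16 * S - 1) + 24 * S * (1); ring)
  have e9 : F (2 * S + 3) = F (18 * S + 2) := tr hper (hirr 4 2 rfl) (0) (1)
      (by show (2 * S + 3 : ℤ) = (2 * S + 3) + 24 * S * (0); ring)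
      (by show (18 * S + 2 : ℤ) = -(6 * S - 2) + 24 * S * (1); ring)
  have e10 : F (14 * S + 1) = F (18 * S + 3) := tr hper (hirr 5 1 rfl) (0) (1)
      (by show (14 * S + 1 : ℤ) = (14 * S + 1) + 24 * S * (0); ring)
      (by show (18 * S + 3 : ℤ) = -(6 * S - 3) + 24 * S * (1); ring)
  have e11 : F (8 * S + 3) = F (3) := tr hper (hirr 6 1 rfl) (0) (0)
      (by show (8 * S + 3 : ℤ) = (8 * S + 3) + 24 * S * (0); ring)
      (by show (3 : ℤ) = -(-3) + 24 * S * (0); ring)
  have e12 : F (14 * S + 3) = F (2 * S + 3) := tr hper (hirr 7 1 rfl) (0) (1)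
      (by show (14 * S + 3 : ℤ) = (14 * S + 3) + 24 * S * (0); ring)
      (by show (2 * S + 3 : ℤ) = -(22 * S - 3) + 24 * S * (1); ring)
  have e13 : F (4 * S + 3) = F (8 * S + 3) := tr hper (hirr 8 1 rfl) (0) (1)
      (by show (4 * S + 3 : ℤ) = (4 * S + 3) + 24 * S * (0); ring)
      (by show (8 * S + 3 : ℤ) = -(16 * S - 3) + 24 * S * (1); ring)
  have e14 : F (3) = F (1) := tr hper (hirr 9 1 rfl) (0) (0)
      (by show (3 : ℤ) = (3) + 24 * S * (0); ring)
      (by show (1 : ℤ) = -(-1) + 24 * S * (0); ring)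
  have e15 : F (1) = F (10 * S + 1) := tr hper (hP 0) (0) (0)
      (by show (1 : ℤ) = (2 * ((0) + (-1) * 0) + 1) + 24 * S * (0); ring)
      (by show (10 * S + 1 : ℤ) = (2 * ((7 * S + 2) + (-3 * S) + (1) * (S - 2)) + 1) + 24 * S * (0); ring)
  have e16 : F (8 * S + 1) = F (2 * S + 1) := tr hper (hP 1) (0) (0)
      (by show (8 * S + 1 : ℤ) = (2 * ((4 * S) + (-1) * 0) + 1) + 24 * S * (0); ring)
      (by show (2 * S + 1 : ℤ) = (2 * ((0) + (2) + (1) * (S - 2)) + 1) + 24 * S * (0); ring)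
  have e17 : F (14 * S + 5) = F (10 * S + 5) := tr hper (hP 2) (0) (0)
      (by show (14 * S + 5 : ℤ) = (2 * ((7 * S + 2) + (2) * 0) + 1) + 24 * S * (0); ring)
      (by show (10 * S + 5 : ℤ) = (2 * ((4 * S) + (3 * S - 2) + (-2) * (S - 2)) + 1) + 24 * S * (0); ring)
  have e18 : F (22 * S + 3) = F (4 * S + 3) := tr hper (hQ 0) (0) (1)
      (by show (22 * S + 3 : ℤ) = (2 * ((11 * S + 1) + (-1) * 0) + 1) + 24 * S * (0); ring)
      (by show (4 * S + 3 : ℤ) = (2 * ((5 * S + 1) + (-16 * S + 1) + (1) * (S - 1)) + 1) + 24 * S * (1); ring)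
  have e19 : F (6 * S + 3) = F (20 * S + 3) := tr hper (hQ 1) (0) (-1)
      (by show (6 * S + 3 : ℤ) = (2 * ((3 * S + 1) + (-1) * 0) + 1) + 24 * S * (0); ring)
      (by show (20 * S + 3 : ℤ) = (2 * ((11 * S + 1) + (10 * S + 1) + (1) * (S - 1)) + 1) + 24 * S * (-1); ring)
  have e20 : F (10 * S + 3) = F (14 * S + 3) := tr hper (hQ 2) (0) (0)
      (by show (10 * S + 3 : ℤ) = (2 * ((5 * S + 1) + (2) * 0) + 1) + 24 * S * (0); ring)
      (by show (14 * S + 3 : ℤ) = (2 * ((3 * S + 1) + (6 * S - 2) + (-2) * (S - 1)) + 1) + 24 * S * (0); ring)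
  have e21 : F (18 * S + 3) = G false := hv false
  have e22 : G false = F (18 * S + 1) := (hv2 false).trans (by
      rw [vxi_0_1, ← hper _ (1)]; congr 1; ring)
  have e23 : F (10 * S + 1) = G true := hv true
  have e24 : G true = F (10 * S + 3) := (hv2 true).trans (by
      rw [vxi_1_1, ← hper _ (1)]; congr 1; ring)
  have n0 : F (18 * S + 3) = G false := e21
  have n1 : F (18 * S + 1) = G false := e22.symm
  have n2 : F (14 * S + 1) = G false := (e10).trans n0
  have n3 : F (12 * S - 2) = G false := (e5.symm).trans n1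
  have n4 : F (12 * S) = G false := (e6).trans n2
  have n5 : F (22 * S + 3) = G false := (e2.symm).trans n3
  have n6 : F (2 * S + 1) = G false := (e7).trans n4
  have n7 : F (4 * S + 3) = G false := (e18.symm).trans n5
  have n8 : F (8 * S + 1) = G false := (e16).trans n6
  have n9 : F (8 * S + 3) = G false := (e13.symm).trans n7
  have n10 : F (6 * S - 2) = G false := (e8).trans n8
  have n11 : F (3) = G false := (e11.symm).trans n9
  have n12 : F (20 * S + 3) = G false := (e1).trans n10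
  have n13 : F (1) = G false := (e14.symm).trans n11
  have n14 : F (6 * S + 3) = G false := (e19).trans n12
  have n15 : F (10 * S + 1) = G false := (e15.symm).trans n13
  have n16 : F (12 * S + 2) = G false := (e4).trans n14
  have n17 : G true = G false := (e23.symm).trans n15
  have n18 : F (10 * S + 5) = G false := (e3).trans n16
  have n19 : F (10 * S + 3) = G false := (e24.symm).trans n17
  have n20 : F (14 * S + 5) = G false := (e17).trans n18
  have n21 : F (14 * S + 3) = G false := (e20.symm).trans n19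
  have n22 : F (18 * S + 2) = G false := (e0).trans n20
  have n23 : F (2 * S + 3) = G false := (e12.symm).trans n21
  refine ⟨?_, ?_, ?_, n17⟩
  · intro j p h
    fin_cases j <;> fin_cases p
    · exact n22
    · exact absurd (show (1 : ZMod 2) = 0 from h) (by decide)
    · exact n12
    · exact n3
    · exact absurd (show (1 : ZMod 2) = 0 from h) (by decide)
    · exact n18
    · exact n16
    · exact absurd (show (1 : ZMod 2) = 0 from h) (by decide)
    · exact n1
    · exact n4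
    · exact absurd (show (1 : ZMod 2) = 0 from h) (by decide)
    · exact n6
    · exact n10
    · exact absurd (show (1 : ZMod 2) = 0 from h) (by decide)
    · exact n23
    · exact absurd (show (1 : ZMod 2) = 0 from h) (by decide)
    · exact n2
    · exact absurd (show (1 : ZMod 2) = 0 from h) (by decide)
    · exact absurd (show (1 : ZMod 2) = 0 from h) (by decide)
    · exact n9
    · exact absurd (show (1 : ZMod 2) = 0 from h) (by decide)
    · exact absurd (show (1 : ZMod 2) = 0 from h) (by decide)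
    · exact n21
    · exact absurd (show (1 : ZMod 2) = 0 from h) (by decide)
    · exact absurd (show (1 : ZMod 2) = 0 from h) (by decide)
    · exact n7
    · exact absurd (show (1 : ZMod 2) = 0 from h) (by decide)
    · exact absurd (show (1 : ZMod 2) = 0 from h) (by decide)
    · exact n11
    · exact absurd (show (1 : ZMod 2) = 0 from h) (by decide)
    · exact absurd (show (1 : ZMod 2) = 0 from h) (by decide)
    · exact absurd (show (1 : ZMod 2) = 0 from h) (by decide)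
    · exact absurd (show (1 : ZMod 2) = 0 from h) (by decide)
    · exact absurd (show (1 : ZMod 2) = 0 from h) (by decide)
    · exact absurd (show (1 : ZMod 2) = 0 from h) (by decide)
    · exact absurd (show (1 : ZMod 2) = 0 from h) (by decide)
    · exact absurd (show (1 : ZMod 2) = 0 from h) (by decide)
    · exact absurd (show (1 : ZMod 2) = 0 from h) (by decide)
    · exact absurd (show (1 : ZMod 2) = 0 from h) (by decide)
    · exact absurd (show (1 : ZMod 2) = 0 from h) (by decide)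
    · exact absurd (show (1 : ZMod 2) = 0 from h) (by decide)
    · exact absurd (show (1 : ZMod 2) = 0 from h) (by decide)
  · intro k; fin_cases k
    · refine Eq.trans ?_ n13
      show F (2 * ((0) + (-1) * 0) + 1) = _
      rw [← hper _ (0)]; congr 1; ring
    · refine Eq.trans ?_ n8
      show F (2 * ((4 * S) + (-1) * 0) + 1) = _
      rw [← hper _ (0)]; congr 1; ring
    · refine Eq.trans ?_ n20
      show F (2 * ((7 * S + 2) + (2) * 0) + 1) = _
      rw [← hper _ (0)]; congr 1; ring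
  · intro k; fin_cases k
    · refine Eq.trans ?_ n5
      show F (2 * ((11 * S + 1) + (-1) * 0) + 1) = _
      rw [← hper _ (0)]; congr 1; ring
    · refine Eq.trans ?_ n14
      show F (2 * ((3 * S + 1) + (-1) * 0) + 1) = _
      rw [← hper _ (0)]; congr 1; ring
    · refine Eq.trans ?_ n19
      show F (2 * ((5 * S + 1) + (2) * 0) + 1) = _
      rw [← hper _ (0)]; congr 1; ring

set_option maxHeartbeats 4000000 in
theorem chain_0_1 {α : Sort*} (F : ℤ → α) (G : Bool → α) (S : ℤ)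
    (hper : ∀ x m, F (x + 24 * S * m) = F x)
    (hirr : ∀ j p, irt j p = 0 → F (irr S j p) = F (-irr S j (p + 1)))
    (hv : ∀ z, F (vxi S z 0) = G z) (hv2 : ∀ z, G z = F (-vxi S z 1))
    (hP : ∀ k, F ((PL S).low k 0) = F ((PL S).hig ((![1, 2, 0] : Fin 3 → Fin 3) k) (S - 2)))
    (hQ : ∀ k, F ((QL S).low k 0) = F ((QL S).hig ((![0, 1, 2] : Fin 3 → Fin 3) k) (S - 1))) :
    (∀ j p, irt j p = 0 → F (irr S j p) = G false) ∧ (∀ k, F ((PL S).low k 0) = G false) ∧
      (∀ k, F ((QL S).low k 0) = G false) ∧ G true = G false := by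
  have e0 : F (18 * S + 2) = F (14 * S + 5) := tr hper (hirr 0 0 rfl) (0) (1)
      (by show (18 * S + 2 : ℤ) = (18 * S + 2) + 24 * S * (0); ring)
      (by show (14 * S + 5 : ℤ) = -(10 * S - 5) + 24 * S * (1); ring)
  have e1 : F (20 * S + 3) = F (6 * S - 2) := tr hper (hirr 0 2 rfl) (0) (1)
      (by show (20 * S + 3 : ℤ) = (20 * S + 3) + 24 * S * (0); ring)
      (by show (6 * S - 2 : ℤ) = -(18 * S + 2) + 24 * S * (1); ring)
  have e2 : F (12 * S - 2) = F (22 * S + 3) := tr hper (hirr 1 0 rfl) (0) (1)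
      (by show (12 * S - 2 : ℤ) = (12 * S - 2) + 24 * S * (0); ring)
      (by show (22 * S + 3 : ℤ) = -(2 * S - 3) + 24 * S * (1); ring)
  have e3 : F (10 * S + 5) = F (12 * S + 2) := tr hper (hirr 1 2 rfl) (0) (1)
      (by show (10 * S + 5 : ℤ) = (10 * S + 5) + 24 * S * (0); ring)
      (by show (12 * S + 2 : ℤ) = -(12 * S - 2) + 24 * S * (1); ring)
  have e4 : F (12 * S + 2) = F (6 * S + 3) := tr hper (hirr 2 0 rfl) (0) (1)
      (by show (12 * S + 2 : ℤ) = (12 * S + 2) + 24 * S * (0); ring)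
      (by show (6 * S + 3 : ℤ) = -(18 * S - 3) + 24 * S * (1); ring)
  have e5 : F (18 * S + 1) = F (12 * S - 2) := tr hper (hirr 2 2 rfl) (0) (1)
      (by show (18 * S + 1 : ℤ) = (18 * S + 1) + 24 * S * (0); ring)
      (by show (12 * S - 2 : ℤ) = -(12 * S + 2) + 24 * S * (1); ring)
  have e6 : F (12 * S) = F (14 * S + 1) := tr hper (hirr 3 0 rfl) (0) (1)
      (by show (12 * S : ℤ) = (12 * S) + 24 * S * (0); ring)
      (by show (14 * S + 1 : ℤ) = -(10 * S - 1) + 24 * S * (1); ring)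
  have e7 : F (2 * S + 1) = F (12 * S) := tr hper (hirr 3 2 rfl) (0) (1)
      (by show (2 * S + 1 : ℤ) = (2 * S + 1) + 24 * S * (0); ring)
      (by show (12 * S : ℤ) = -(12 * S) + 24 * S * (1); ring)
  have e8 : F (6 * S - 2) = F (8 * S + 1) := tr hper (hirr 4 0 rfl) (0) (1)
      (by show (6 * S - 2 : ℤ) = (6 * S - 2) + 24 * S * (0); ring)
      (by show (8 * S + 1 : ℤ) = -(16 * S - 1) + 24 * S * (1); ring)
  have e9 : F (2 * S + 3) = F (18 * S + 2) := tr hper (hirr 4 2 rfl) (0) (1)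
      (by show (2 * S + 3 : ℤ) = (2 * S + 3) + 24 * S * (0); ring)
      (by show (18 * S + 2 : ℤ) = -(6 * S - 2) + 24 * S * (1); ring)
  have e10 : F (14 * S + 1) = F (18 * S + 3) := tr hper (hirr 5 1 rfl) (0) (1)
      (by show (14 * S + 1 : ℤ) = (14 * S + 1) + 24 * S * (0); ring)
      (by show (18 * S + 3 : ℤ) = -(6 * S - 3) + 24 * S * (1); ring)
  have e11 : F (8 * S + 3) = F (3) := tr hper (hirr 6 1 rfl) (0) (0)
      (by show (8 * S + 3 : ℤ) = (8 * S + 3) + 24 * S * (0); ring)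
      (by show (3 : ℤ) = -(-3) + 24 * S * (0); ring)
  have e12 : F (14 * S + 3) = F (2 * S + 3) := tr hper (hirr 7 1 rfl) (0) (1)
      (by show (14 * S + 3 : ℤ) = (14 * S + 3) + 24 * S * (0); ring)
      (by show (2 * S + 3 : ℤ) = -(22 * S - 3) + 24 * S * (1); ring)
  have e13 : F (4 * S + 3) = F (8 * S + 3) := tr hper (hirr 8 1 rfl) (0) (1)
      (by show (4 * S + 3 : ℤ) = (4 * S + 3) + 24 * S * (0); ring)
      (by show (8 * S + 3 : ℤ) = -(16 * S - 3) + 24 * S * (1); ring)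
  have e14 : F (3) = F (1) := tr hper (hirr 9 1 rfl) (0) (0)
      (by show (3 : ℤ) = (3) + 24 * S * (0); ring)
      (by show (1 : ℤ) = -(-1) + 24 * S * (0); ring)
  have e15 : F (1) = F (10 * S + 5) := tr hper (hP 0) (0) (0)
      (by show (1 : ℤ) = (2 * ((0) + (-1) * 0) + 1) + 24 * S * (0); ring)
      (by show (10 * S + 5 : ℤ) = (2 * ((4 * S) + (3 * S - 2) + (-2) * (S - 2)) + 1) + 24 * S * (0); ring)
  have e16 : F (8 * S + 1) = F (10 * S + 1) := tr hper (hP 1) (0) (0)
      (by show (8 * S + 1 : ℤ) = (2 * ((4 * S) + (-1) * 0) + 1) + 24 * S * (0); ring)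
      (by show (10 * S + 1 : ℤ) = (2 * ((7 * S + 2) + (-3 * S) + (1) * (S - 2)) + 1) + 24 * S * (0); ring)
  have e17 : F (14 * S + 5) = F (2 * S + 1) := tr hper (hP 2) (0) (0)
      (by show (14 * S + 5 : ℤ) = (2 * ((7 * S + 2) + (2) * 0) + 1) + 24 * S * (0); ring)
      (by show (2 * S + 1 : ℤ) = (2 * ((0) + (2) + (1) * (S - 2)) + 1) + 24 * S * (0); ring)
  have e18 : F (22 * S + 3) = F (20 * S + 3) := tr hper (hQ 0) (0) (-1)
      (by show (22 * S + 3 : ℤ) = (2 * ((11 * S + 1) + (-1) * 0) + 1) + 24 * S * (0); ring)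
      (by show (20 * S + 3 : ℤ) = (2 * ((11 * S + 1) + (10 * S + 1) + (1) * (S - 1)) + 1) + 24 * S * (-1); ring)
  have e19 : F (6 * S + 3) = F (14 * S + 3) := tr hper (hQ 1) (0) (0)
      (by show (6 * S + 3 : ℤ) = (2 * ((3 * S + 1) + (-1) * 0) + 1) + 24 * S * (0); ring)
      (by show (14 * S + 3 : ℤ) = (2 * ((3 * S + 1) + (6 * S - 2) + (-2) * (S - 1)) + 1) + 24 * S * (0); ring)
  have e20 : F (10 * S + 3) = F (4 * S + 3) := tr hper (hQ 2) (0) (1)
      (by show (10 * S + 3 : ℤ) = (2 * ((5 * S + 1) + (2) * 0) + 1) + 24 * S * (0); ring)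
      (by show (4 * S + 3 : ℤ) = (2 * ((5 * S + 1) + (-16 * S + 1) + (1) * (S - 1)) + 1) + 24 * S * (1); ring)
  have e21 : F (18 * S + 3) = G false := hv false
  have e22 : G false = F (18 * S + 1) := (hv2 false).trans (by
      rw [vxi_0_1, ← hper _ (1)]; congr 1; ring)
  have e23 : F (10 * S + 1) = G true := hv true
  have e24 : G true = F (10 * S + 3) := (hv2 true).trans (by
      rw [vxi_1_1, ← hper _ (1)]; congr 1; ring)
  have n0 : F (18 * S + 3) = G false := e21
  have n1 : F (18 * S + 1) = G false := e22.symm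
  have n2 : F (14 * S + 1) = G false := (e10).trans n0
  have n3 : F (12 * S - 2) = G false := (e5.symm).trans n1
  have n4 : F (12 * S) = G false := (e6).trans n2
  have n5 : F (22 * S + 3) = G false := (e2.symm).trans n3
  have n6 : F (2 * S + 1) = G false := (e7).trans n4
  have n7 : F (20 * S + 3) = G false := (e18.symm).trans n5
  have n8 : F (14 * S + 5) = G false := (e17).trans n6
  have n9 : F (6 * S - 2) = G false := (e1.symm).trans n7
  have n10 : F (18 * S + 2) = G false := (e0).trans n8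
  have n11 : F (8 * S + 1) = G false := (e8.symm).trans n9
  have n12 : F (2 * S + 3) = G false := (e9).trans n10
  have n13 : F (10 * S + 1) = G false := (e16.symm).trans n11
  have n14 : F (14 * S + 3) = G false := (e12).trans n12
  have n15 : G true = G false := (e23.symm).trans n13
  have n16 : F (6 * S + 3) = G false := (e19).trans n14
  have n17 : F (10 * S + 3) = G false := (e24.symm).trans n15
  have n18 : F (12 * S + 2) = G false := (e4).trans n16
  have n19 : F (4 * S + 3) = G false := (e20.symm).trans n17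
  have n20 : F (10 * S + 5) = G false := (e3).trans n18
  have n21 : F (8 * S + 3) = G false := (e13.symm).trans n19
  have n22 : F (1) = G false := (e15).trans n20
  have n23 : F (3) = G false := (e11.symm).trans n21
  refine ⟨?_, ?_, ?_, n15⟩
  · intro j p h
    fin_cases j <;> fin_cases p
    · exact n10
    · exact absurd (show (1 : ZMod 2) = 0 from h) (by decide)
    · exact n7
    · exact n3
    · exact absurd (show (1 : ZMod 2) = 0 from h) (by decide)
    · exact n20
    · exact n18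
    · exact absurd (show (1 : ZMod 2) = 0 from h) (by decide)
    · exact n1
    · exact n4
    · exact absurd (show (1 : ZMod 2) = 0 from h) (by decide)
    · exact n6
    · exact n9
    · exact absurd (show (1 : ZMod 2) = 0 from h) (by decide)
    · exact n12
    · exact absurd (show (1 : ZMod 2) = 0 from h) (by decide)
    · exact n2
    · exact absurd (show (1 : ZMod 2) = 0 from h) (by decide)
    · exact absurd (show (1 : ZMod 2) = 0 from h) (by decide)
    · exact n21
    · exact absurd (show (1 : ZMod 2) = 0 from h) (by decide)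
    · exact absurd (show (1 : ZMod 2) = 0 from h) (by decide)
    · exact n14
    · exact absurd (show (1 : ZMod 2) = 0 from h) (by decide)
    · exact absurd (show (1 : ZMod 2) = 0 from h) (by decide)
    · exact n19
    · exact absurd (show (1 : ZMod 2) = 0 from h) (by decide)
    · exact absurd (show (1 : ZMod 2) = 0 from h) (by decide)
    · exact n23
    · exact absurd (show (1 : ZMod 2) = 0 from h) (by decide)
    · exact absurd (show (1 : ZMod 2) = 0 from h) (by decide)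
    · exact absurd (show (1 : ZMod 2) = 0 from h) (by decide)
    · exact absurd (show (1 : ZMod 2) = 0 from h) (by decide)
    · exact absurd (show (1 : ZMod 2) = 0 from h) (by decide)
    · exact absurd (show (1 : ZMod 2) = 0 from h) (by decide)
    · exact absurd (show (1 : ZMod 2) = 0 from h) (by decide)
    · exact absurd (show (1 : ZMod 2) = 0 from h) (by decide)
    · exact absurd (show (1 : ZMod 2) = 0 from h) (by decide)
    · exact absurd (show (1 : ZMod 2) = 0 from h) (by decide)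
    · exact absurd (show (1 : ZMod 2) = 0 from h) (by decide)
    · exact absurd (show (1 : ZMod 2) = 0 from h) (by decide)
    · exact absurd (show (1 : ZMod 2) = 0 from h) (by decide)
  · intro k; fin_cases k
    · refine Eq.trans ?_ n22
      show F (2 * ((0) + (-1) * 0) + 1) = _
      rw [← hper _ (0)]; congr 1; ring
    · refine Eq.trans ?_ n11
      show F (2 * ((4 * S) + (-1) * 0) + 1) = _
      rw [← hper _ (0)]; congr 1; ring
    · refine Eq.trans ?_ n8
      show F (2 * ((7 * S + 2) + (2) * 0) + 1) = _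
      rw [← hper _ (0)]; congr 1; ring
  · intro k; fin_cases k
    · refine Eq.trans ?_ n5
      show F (2 * ((11 * S + 1) + (-1) * 0) + 1) = _
      rw [← hper _ (0)]; congr 1; ring
    · refine Eq.trans ?_ n16
      show F (2 * ((3 * S + 1) + (-1) * 0) + 1) = _
      rw [← hper _ (0)]; congr 1; ring
    · refine Eq.trans ?_ n17
      show F (2 * ((5 * S + 1) + (2) * 0) + 1) = _
      rw [← hper _ (0)]; congr 1; ring

set_option maxHeartbeats 4000000 in
theorem chain_0_2 {α : Sort*} (F : ℤ → α) (G : Bool → α) (S : ℤ)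
    (hper : ∀ x m, F (x + 24 * S * m) = F x)
    (hirr : ∀ j p, irt j p = 0 → F (irr S j p) = F (-irr S j (p + 1)))
    (hv : ∀ z, F (vxi S z 0) = G z) (hv2 : ∀ z, G z = F (-vxi S z 1))
    (hP : ∀ k, F ((PL S).low k 0) = F ((PL S).hig ((![0, 1, 2] : Fin 3 → Fin 3) k) (S - 2)))
    (hQ : ∀ k, F ((QL S).low k 0) = F ((QL S).hig ((![1, 2, 0] : Fin 3 → Fin 3) k) (S - 1))) :
    (∀ j p, irt j p = 0 → F (irr S j p) = G false) ∧ (∀ k, F ((PL S).low k 0) = G false) ∧
      (∀ k, F ((QL S).low k 0) = G false) ∧ G true = G false := by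
  have e0 : F (18 * S + 2) = F (14 * S + 5) := tr hper (hirr 0 0 rfl) (0) (1)
      (by show (18 * S + 2 : ℤ) = (18 * S + 2) + 24 * S * (0); ring)
      (by show (14 * S + 5 : ℤ) = -(10 * S - 5) + 24 * S * (1); ring)
  have e1 : F (20 * S + 3) = F (6 * S - 2) := tr hper (hirr 0 2 rfl) (0) (1)
      (by show (20 * S + 3 : ℤ) = (20 * S + 3) + 24 * S * (0); ring)
      (by show (6 * S - 2 : ℤ) = -(18 * S + 2) + 24 * S * (1); ring)
  have e2 : F (12 * S - 2) = F (22 * S + 3) := tr hper (hirr 1 0 rfl) (0) (1)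
      (by show (12 * S - 2 : ℤ) = (12 * S - 2) + 24 * S * (0); ring)
      (by show (22 * S + 3 : ℤ) = -(2 * S - 3) + 24 * S * (1); ring)
  have e3 : F (10 * S + 5) = F (12 * S + 2) := tr hper (hirr 1 2 rfl) (0) (1)
      (by show (10 * S + 5 : ℤ) = (10 * S + 5) + 24 * S * (0); ring)
      (by show (12 * S + 2 : ℤ) = -(12 * S - 2) + 24 * S * (1); ring)
  have e4 : F (12 * S + 2) = F (6 * S + 3) := tr hper (hirr 2 0 rfl) (0) (1)
      (by show (12 * S + 2 : ℤ) = (12 * S + 2) + 24 * S * (0); ring)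
      (by show (6 * S + 3 : ℤ) = -(18 * S - 3) + 24 * S * (1); ring)
  have e5 : F (18 * S + 1) = F (12 * S - 2) := tr hper (hirr 2 2 rfl) (0) (1)
      (by show (18 * S + 1 : ℤ) = (18 * S + 1) + 24 * S * (0); ring)
      (by show (12 * S - 2 : ℤ) = -(12 * S + 2) + 24 * S * (1); ring)
  have e6 : F (12 * S) = F (14 * S + 1) := tr hper (hirr 3 0 rfl) (0) (1)
      (by show (12 * S : ℤ) = (12 * S) + 24 * S * (0); ring)
      (by show (14 * S + 1 : ℤ) = -(10 * S - 1) + 24 * S * (1); ring)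
  have e7 : F (2 * S + 1) = F (12 * S) := tr hper (hirr 3 2 rfl) (0) (1)
      (by show (2 * S + 1 : ℤ) = (2 * S + 1) + 24 * S * (0); ring)
      (by show (12 * S : ℤ) = -(12 * S) + 24 * S * (1); ring)
  have e8 : F (6 * S - 2) = F (8 * S + 1) := tr hper (hirr 4 0 rfl) (0) (1)
      (by show (6 * S - 2 : ℤ) = (6 * S - 2) + 24 * S * (0); ring)
      (by show (8 * S + 1 : ℤ) = -(16 * S - 1) + 24 * S * (1); ring)
  have e9 : F (2 * S + 3) = F (18 * S + 2) := tr hper (hirr 4 2 rfl) (0) (1)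
      (by show (2 * S + 3 : ℤ) = (2 * S + 3) + 24 * S * (0); ring)
      (by show (18 * S + 2 : ℤ) = -(6 * S - 2) + 24 * S * (1); ring)
  have e10 : F (14 * S + 1) = F (18 * S + 3) := tr hper (hirr 5 1 rfl) (0) (1)
      (by show (14 * S + 1 : ℤ) = (14 * S + 1) + 24 * S * (0); ring)
      (by show (18 * S + 3 : ℤ) = -(6 * S - 3) + 24 * S * (1); ring)
  have e11 : F (8 * S + 3) = F (3) := tr hper (hirr 6 1 rfl) (0) (0)
      (by show (8 * S + 3 : ℤ) = (8 * S + 3) + 24 * S * (0); ring)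
      (by show (3 : ℤ) = -(-3) + 24 * S * (0); ring)
  have e12 : F (14 * S + 3) = F (2 * S + 3) := tr hper (hirr 7 1 rfl) (0) (1)
      (by show (14 * S + 3 : ℤ) = (14 * S + 3) + 24 * S * (0); ring)
      (by show (2 * S + 3 : ℤ) = -(22 * S - 3) + 24 * S * (1); ring)
  have e13 : F (4 * S + 3) = F (8 * S + 3) := tr hper (hirr 8 1 rfl) (0) (1)
      (by show (4 * S + 3 : ℤ) = (4 * S + 3) + 24 * S * (0); ring)
      (by show (8 * S + 3 : ℤ) = -(16 * S - 3) + 24 * S * (1); ring)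
  have e14 : F (3) = F (1) := tr hper (hirr 9 1 rfl) (0) (0)
      (by show (3 : ℤ) = (3) + 24 * S * (0); ring)
      (by show (1 : ℤ) = -(-1) + 24 * S * (0); ring)
  have e15 : F (1) = F (2 * S + 1) := tr hper (hP 0) (0) (0)
      (by show (1 : ℤ) = (2 * ((0) + (-1) * 0) + 1) + 24 * S * (0); ring)
      (by show (2 * S + 1 : ℤ) = (2 * ((0) + (2) + (1) * (S - 2)) + 1) + 24 * S * (0); ring)
  have e16 : F (8 * S + 1) = F (10 * S + 5) := tr hper (hP 1) (0) (0)
      (by show (8 * S + 1 : ℤ) = (2 * ((4 * S) + (-1) * 0) + 1) + 24 * S * (0); ring)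
      (by show (10 * S + 5 : ℤ) = (2 * ((4 * S) + (3 * S - 2) + (-2) * (S - 2)) + 1) + 24 * S * (0); ring)
  have e17 : F (14 * S + 5) = F (10 * S + 1) := tr hper (hP 2) (0) (0)
      (by show (14 * S + 5 : ℤ) = (2 * ((7 * S + 2) + (2) * 0) + 1) + 24 * S * (0); ring)
      (by show (10 * S + 1 : ℤ) = (2 * ((7 * S + 2) + (-3 * S) + (1) * (S - 2)) + 1) + 24 * S * (0); ring)
  have e18 : F (22 * S + 3) = F (14 * S + 3) := tr hper (hQ 0) (0) (0)
      (by show (22 * S + 3 : ℤ) = (2 * ((11 * S + 1) + (-1) * 0) + 1) + 24 * S * (0); ring)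
      (by show (14 * S + 3 : ℤ) = (2 * ((3 * S + 1) + (6 * S - 2) + (-2) * (S - 1)) + 1) + 24 * S * (0); ring)
  have e19 : F (6 * S + 3) = F (4 * S + 3) := tr hper (hQ 1) (0) (1)
      (by show (6 * S + 3 : ℤ) = (2 * ((3 * S + 1) + (-1) * 0) + 1) + 24 * S * (0); ring)
      (by show (4 * S + 3 : ℤ) = (2 * ((5 * S + 1) + (-16 * S + 1) + (1) * (S - 1)) + 1) + 24 * S * (1); ring)
  have e20 : F (10 * S + 3) = F (20 * S + 3) := tr hper (hQ 2) (0) (-1)
      (by show (10 * S + 3 : ℤ) = (2 * ((5 * S + 1) + (2) * 0) + 1) + 24 * S * (0); ring)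
      (by show (20 * S + 3 : ℤ) = (2 * ((11 * S + 1) + (10 * S + 1) + (1) * (S - 1)) + 1) + 24 * S * (-1); ring)
  have e21 : F (18 * S + 3) = G false := hv false
  have e22 : G false = F (18 * S + 1) := (hv2 false).trans (by
      rw [vxi_0_1, ← hper _ (1)]; congr 1; ring)
  have e23 : F (10 * S + 1) = G true := hv true
  have e24 : G true = F (10 * S + 3) := (hv2 true).trans (by
      rw [vxi_1_1, ← hper _ (1)]; congr 1; ring)
  have n0 : F (18 * S + 3) = G false := e21
  have n1 : F (18 * S + 1) = G false := e22.symm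
  have n2 : F (14 * S + 1) = G false := (e10).trans n0
  have n3 : F (12 * S - 2) = G false := (e5.symm).trans n1
  have n4 : F (12 * S) = G false := (e6).trans n2
  have n5 : F (22 * S + 3) = G false := (e2.symm).trans n3
  have n6 : F (2 * S + 1) = G false := (e7).trans n4
  have n7 : F (14 * S + 3) = G false := (e18.symm).trans n5
  have n8 : F (1) = G false := (e15).trans n6
  have n9 : F (2 * S + 3) = G false := (e12.symm).trans n7
  have n10 : F (3) = G false := (e14).trans n8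
  have n11 : F (18 * S + 2) = G false := (e9.symm).trans n9
  have n12 : F (8 * S + 3) = G false := (e11).trans n10
  have n13 : F (14 * S + 5) = G false := (e0.symm).trans n11
  have n14 : F (4 * S + 3) = G false := (e13).trans n12
  have n15 : F (10 * S + 1) = G false := (e17.symm).trans n13
  have n16 : F (6 * S + 3) = G false := (e19).trans n14
  have n17 : G true = G false := (e23.symm).trans n15
  have n18 : F (12 * S + 2) = G false := (e4).trans n16
  have n19 : F (10 * S + 3) = G false := (e24.symm).trans n17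
  have n20 : F (10 * S + 5) = G false := (e3).trans n18
  have n21 : F (20 * S + 3) = G false := (e20.symm).trans n19
  have n22 : F (8 * S + 1) = G false := (e16).trans n20
  have n23 : F (6 * S - 2) = G false := (e1.symm).trans n21
  refine ⟨?_, ?_, ?_, n17⟩
  · intro j p h
    fin_cases j <;> fin_cases p
    · exact n11
    · exact absurd (show (1 : ZMod 2) = 0 from h) (by decide)
    · exact n21
    · exact n3
    · exact absurd (show (1 : ZMod 2) = 0 from h) (by decide)
    · exact n20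
    · exact n18
    · exact absurd (show (1 : ZMod 2) = 0 from h) (by decide)
    · exact n1
    · exact n4
    · exact absurd (show (1 : ZMod 2) = 0 from h) (by decide)
    · exact n6
    · exact n23
    · exact absurd (show (1 : ZMod 2) = 0 from h) (by decide)
    · exact n9
    · exact absurd (show (1 : ZMod 2) = 0 from h) (by decide)
    · exact n2
    · exact absurd (show (1 : ZMod 2) = 0 from h) (by decide)
    · exact absurd (show (1 : ZMod 2) = 0 from h) (by decide)
    · exact n12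
    · exact absurd (show (1 : ZMod 2) = 0 from h) (by decide)
    · exact absurd (show (1 : ZMod 2) = 0 from h) (by decide)
    · exact n7
    · exact absurd (show (1 : ZMod 2) = 0 from h) (by decide)
    · exact absurd (show (1 : ZMod 2) = 0 from h) (by decide)
    · exact n14
    · exact absurd (show (1 : ZMod 2) = 0 from h) (by decide)
    · exact absurd (show (1 : ZMod 2) = 0 from h) (by decide)
    · exact n10
    · exact absurd (show (1 : ZMod 2) = 0 from h) (by decide)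
    · exact absurd (show (1 : ZMod 2) = 0 from h) (by decide)
    · exact absurd (show (1 : ZMod 2) = 0 from h) (by decide)
    · exact absurd (show (1 : ZMod 2) = 0 from h) (by decide)
    · exact absurd (show (1 : ZMod 2) = 0 from h) (by decide)
    · exact absurd (show (1 : ZMod 2) = 0 from h) (by decide)
    · exact absurd (show (1 : ZMod 2) = 0 from h) (by decide)
    · exact absurd (show (1 : ZMod 2) = 0 from h) (by decide)
    · exact absurd (show (1 : ZMod 2) = 0 from h) (by decide)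
    · exact absurd (show (1 : ZMod 2) = 0 from h) (by decide)
    · exact absurd (show (1 : ZMod 2) = 0 from h) (by decide)
    · exact absurd (show (1 : ZMod 2) = 0 from h) (by decide)
    · exact absurd (show (1 : ZMod 2) = 0 from h) (by decide)
  · intro k; fin_cases k
    · refine Eq.trans ?_ n8
      show F (2 * ((0) + (-1) * 0) + 1) = _
      rw [← hper _ (0)]; congr 1; ring
    · refine Eq.trans ?_ n22
      show F (2 * ((4 * S) + (-1) * 0) + 1) = _
      rw [← hper _ (0)]; congr 1; ring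
    · refine Eq.trans ?_ n13
      show F (2 * ((7 * S + 2) + (2) * 0) + 1) = _
      rw [← hper _ (0)]; congr 1; ring
  · intro k; fin_cases k
    · refine Eq.trans ?_ n5
      show F (2 * ((11 * S + 1) + (-1) * 0) + 1) = _
      rw [← hper _ (0)]; congr 1; ring
    · refine Eq.trans ?_ n16
      show F (2 * ((3 * S + 1) + (-1) * 0) + 1) = _
      rw [← hper _ (0)]; congr 1; ring
    · refine Eq.trans ?_ n19
      show F (2 * ((5 * S + 1) + (2) * 0) + 1) = _
      rw [← hper _ (0)]; congr 1; ring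

set_option maxHeartbeats 4000000 in
theorem chain_1_0 {α : Sort*} (F : ℤ → α) (G : Bool → α) (S : ℤ)
    (hper : ∀ x m, F (x + 24 * S * m) = F x)
    (hirr : ∀ j p, irt j p = 1 → F (irr S j p) = F (-irr S j (p + 1)))
    (hv : ∀ z, F (vxi S z 1) = G z) (hv2 : ∀ z, G z = F (-vxi S z 0))
    (hP : ∀ k, F (-(PL S).hig k (S - 2)) = F (-(PL S).low ((![0, 1, 2] : Fin 3 → Fin 3) k) 0))
    (hQ : ∀ k, F (-(QL S).hig k (S - 1)) = F (-(QL S).low ((![1, 2, 0] : Fin 3 → Fin 3) k) 0)) :
    (∀ j p, irt j p = 1 → F (irr S j p) = G false) ∧ (∀ k, F (-(PL S).low k 0) = G false) ∧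
      (∀ k, F (-(QL S).low k 0) = G false) ∧ G true = G false := by
  have e0 : F (10 * S - 5) = F (4 * S - 3) := tr hper (hirr 0 1 rfl) (0) (1)
      (by show (10 * S - 5 : ℤ) = (10 * S - 5) + 24 * S * (0); ring)
      (by show (4 * S - 3 : ℤ) = -(20 * S + 3) + 24 * S * (1); ring)
  have e1 : F (2 * S - 3) = F (14 * S - 5) := tr hper (hirr 1 1 rfl) (0) (1)
      (by show (2 * S - 3 : ℤ) = (2 * S - 3) + 24 * S * (0); ring)
      (by show (14 * S - 5 : ℤ) = -(10 * S + 5) + 24 * S * (1); ring)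
  have e2 : F (18 * S - 3) = F (6 * S - 1) := tr hper (hirr 2 1 rfl) (0) (1)
      (by show (18 * S - 3 : ℤ) = (18 * S - 3) + 24 * S * (0); ring)
      (by show (6 * S - 1 : ℤ) = -(18 * S + 1) + 24 * S * (1); ring)
  have e3 : F (10 * S - 1) = F (22 * S - 1) := tr hper (hirr 3 1 rfl) (0) (1)
      (by show (10 * S - 1 : ℤ) = (10 * S - 1) + 24 * S * (0); ring)
      (by show (22 * S - 1 : ℤ) = -(2 * S + 1) + 24 * S * (1); ring)
  have e4 : F (16 * S - 1) = F (22 * S - 3) := tr hper (hirr 4 1 rfl) (0) (1)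
      (by show (16 * S - 1 : ℤ) = (16 * S - 1) + 24 * S * (0); ring)
      (by show (22 * S - 3 : ℤ) = -(2 * S + 3) + 24 * S * (1); ring)
  have e5 : F (4 * S + 2) = F (10 * S - 1) := tr hper (hirr 5 0 rfl) (0) (1)
      (by show (4 * S + 2 : ℤ) = (4 * S + 2) + 24 * S * (0); ring)
      (by show (10 * S - 1 : ℤ) = -(14 * S + 1) + 24 * S * (1); ring)
  have e6 : F (6 * S - 3) = F (20 * S - 2) := tr hper (hirr 5 2 rfl) (0) (1)
      (by show (6 * S - 3 : ℤ) = (6 * S - 3) + 24 * S * (0); ring)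
      (by show (20 * S - 2 : ℤ) = -(4 * S + 2) + 24 * S * (1); ring)
  have e7 : F (16 * S) = F (16 * S - 3) := tr hper (hirr 6 0 rfl) (0) (1)
      (by show (16 * S : ℤ) = (16 * S) + 24 * S * (0); ring)
      (by show (16 * S - 3 : ℤ) = -(8 * S + 3) + 24 * S * (1); ring)
  have e8 : F (-3) = F (8 * S) := tr hper (hirr 6 2 rfl) (0) (1)
      (by show (-3 : ℤ) = (-3) + 24 * S * (0); ring)
      (by show (8 * S : ℤ) = -(16 * S) + 24 * S * (1); ring)
  have e9 : F (12 * S) = F (10 * S - 3) := tr hper (hirr 7 0 rfl) (0) (1)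
      (by show (12 * S : ℤ) = (12 * S) + 24 * S * (0); ring)
      (by show (10 * S - 3 : ℤ) = -(14 * S + 3) + 24 * S * (1); ring)
  have e10 : F (22 * S - 3) = F (12 * S) := tr hper (hirr 7 2 rfl) (0) (1)
      (by show (22 * S - 3 : ℤ) = (22 * S - 3) + 24 * S * (0); ring)
      (by show (12 * S : ℤ) = -(12 * S) + 24 * S * (1); ring)
  have e11 : F (4 * S) = F (20 * S - 3) := tr hper (hirr 8 0 rfl) (0) (1)
      (by show (4 * S : ℤ) = (4 * S) + 24 * S * (0); ring)
      (by show (20 * S - 3 : ℤ) = -(4 * S + 3) + 24 * S * (1); ring)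
  have e12 : F (16 * S - 3) = F (20 * S) := tr hper (hirr 8 2 rfl) (0) (1)
      (by show (16 * S - 3 : ℤ) = (16 * S - 3) + 24 * S * (0); ring)
      (by show (20 * S : ℤ) = -(4 * S) + 24 * S * (1); ring)
  have e13 : F (-2) = F (-3) := tr hper (hirr 9 0 rfl) (0) (0)
      (by show (-2 : ℤ) = (-2) + 24 * S * (0); ring)
      (by show (-3 : ℤ) = -(3) + 24 * S * (0); ring)
  have e14 : F (-1) = F (2) := tr hper (hirr 9 2 rfl) (0) (0)
      (by show (-1 : ℤ) = (-1) + 24 * S * (0); ring)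
      (by show (2 : ℤ) = -(-2) + 24 * S * (0); ring)
  have e15 : F (4 * S - 2) = F (10 * S) := tr hper (hirr 10 0 rfl) (0) (1)
      (by show (4 * S - 2 : ℤ) = (4 * S - 2) + 24 * S * (0); ring)
      (by show (10 * S : ℤ) = -(14 * S) + 24 * S * (1); ring)
  have e16 : F (14 * S) = F (18 * S - 2) := tr hper (hirr 10 1 rfl) (0) (1)
      (by show (14 * S : ℤ) = (14 * S) + 24 * S * (0); ring)
      (by show (18 * S - 2 : ℤ) = -(6 * S + 2) + 24 * S * (1); ring)
  have e17 : F (6 * S + 2) = F (20 * S + 2) := tr hper (hirr 10 2 rfl) (0) (1)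
      (by show (6 * S + 2 : ℤ) = (6 * S + 2) + 24 * S * (0); ring)
      (by show (20 * S + 2 : ℤ) = -(4 * S - 2) + 24 * S * (1); ring)
  have e18 : F (10 * S) = F (6 * S) := tr hper (hirr 11 0 rfl) (0) (1)
      (by show (10 * S : ℤ) = (10 * S) + 24 * S * (0); ring)
      (by show (6 * S : ℤ) = -(18 * S) + 24 * S * (1); ring)
  have e19 : F (18 * S) = F (4 * S) := tr hper (hirr 11 1 rfl) (0) (1)
      (by show (18 * S : ℤ) = (18 * S) + 24 * S * (0); ring)
      (by show (4 * S : ℤ) = -(20 * S) + 24 * S * (1); ring)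
  have e20 : F (20 * S) = F (14 * S) := tr hper (hirr 11 2 rfl) (0) (1)
      (by show (20 * S : ℤ) = (20 * S) + 24 * S * (0); ring)
      (by show (14 * S : ℤ) = -(10 * S) + 24 * S * (1); ring)
  have e21 : F (2) = F (18 * S) := tr hper (hirr 12 0 rfl) (0) (1)
      (by show (2 : ℤ) = (2) + 24 * S * (0); ring)
      (by show (18 * S : ℤ) = -(6 * S) + 24 * S * (1); ring)
  have e22 : F (6 * S) = F (6 * S + 2) := tr hper (hirr 12 1 rfl) (0) (1)
      (by show (6 * S : ℤ) = (6 * S) + 24 * S * (0); ring)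
      (by show (6 * S + 2 : ℤ) = -(18 * S - 2) + 24 * S * (1); ring)
  have e23 : F (18 * S - 2) = F (-2) := tr hper (hirr 12 2 rfl) (0) (0)
      (by show (18 * S - 2 : ℤ) = (18 * S - 2) + 24 * S * (0); ring)
      (by show (-2 : ℤ) = -(2) + 24 * S * (0); ring)
  have e24 : F (8 * S) = F (4 * S + 2) := tr hper (hirr 13 0 rfl) (0) (1)
      (by show (8 * S : ℤ) = (8 * S) + 24 * S * (0); ring)
      (by show (4 * S + 2 : ℤ) = -(20 * S - 2) + 24 * S * (1); ring)
  have e25 : F (20 * S - 2) = F (4 * S - 2) := tr hper (hirr 13 1 rfl) (0) (1)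
      (by show (20 * S - 2 : ℤ) = (20 * S - 2) + 24 * S * (0); ring)
      (by show (4 * S - 2 : ℤ) = -(20 * S + 2) + 24 * S * (1); ring)
  have e26 : F (20 * S + 2) = F (16 * S) := tr hper (hirr 13 2 rfl) (0) (1)
      (by show (20 * S + 2 : ℤ) = (20 * S + 2) + 24 * S * (0); ring)
      (by show (16 * S : ℤ) = -(8 * S) + 24 * S * (1); ring)
  have e27 : F (22 * S - 1) = F (-1) := tr hper (hP 0) (1) (0)
      (by show (22 * S - 1 : ℤ) = -(2 * ((0) + (2) + (1) * (S - 2)) + 1) + 24 * S * (1); ring)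
      (by show (-1 : ℤ) = -(2 * ((0) + (-1) * 0) + 1) + 24 * S * (0); ring)
  have e28 : F (14 * S - 5) = F (16 * S - 1) := tr hper (hP 1) (1) (1)
      (by show (14 * S - 5 : ℤ) = -(2 * ((4 * S) + (3 * S - 2) + (-2) * (S - 2)) + 1) + 24 * S * (1); ring)
      (by show (16 * S - 1 : ℤ) = -(2 * ((4 * S) + (-1) * 0) + 1) + 24 * S * (1); ring)
  have e29 : F (14 * S - 1) = F (10 * S - 5) := tr hper (hP 2) (1) (1)
      (by show (14 * S - 1 : ℤ) = -(2 * ((7 * S + 2) + (-3 * S) + (1) * (S - 2)) + 1) + 24 * S * (1); ring)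
      (by show (10 * S - 5 : ℤ) = -(2 * ((7 * S + 2) + (2) * 0) + 1) + 24 * S * (1); ring)
  have e30 : F (4 * S - 3) = F (18 * S - 3) := tr hper (hQ 0) (2) (1)
      (by show (4 * S - 3 : ℤ) = -(2 * ((11 * S + 1) + (10 * S + 1) + (1) * (S - 1)) + 1) + 24 * S * (2); ring)
      (by show (18 * S - 3 : ℤ) = -(2 * ((3 * S + 1) + (-1) * 0) + 1) + 24 * S * (1); ring)
  have e31 : F (10 * S - 3) = F (14 * S - 3) := tr hper (hQ 1) (1) (1)
      (by show (10 * S - 3 : ℤ) = -(2 * ((3 * S + 1) + (6 * S - 2) + (-2) * (S - 1)) + 1) + 24 * S * (1); ring)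
      (by show (14 * S - 3 : ℤ) = -(2 * ((5 * S + 1) + (2) * 0) + 1) + 24 * S * (1); ring)
  have e32 : F (20 * S - 3) = F (2 * S - 3) := tr hper (hQ 2) (0) (1)
      (by show (20 * S - 3 : ℤ) = -(2 * ((5 * S + 1) + (-16 * S + 1) + (1) * (S - 1)) + 1) + 24 * S * (0); ring)
      (by show (2 * S - 3 : ℤ) = -(2 * ((11 * S + 1) + (-1) * 0) + 1) + 24 * S * (1); ring)
  have e33 : F (6 * S - 1) = G false := hv false
  have e34 : G false = F (6 * S - 3) := (hv2 false).trans (by
      rw [vxi_0_0, ← hper _ (1)]; congr 1; ring)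
  have e35 : F (14 * S - 3) = G true := hv true
  have e36 : G true = F (14 * S - 1) := (hv2 true).trans (by
      rw [vxi_1_0, ← hper _ (1)]; congr 1; ring)
  have n0 : F (6 * S - 1) = G false := e33
  have n1 : F (6 * S - 3) = G false := e34.symm
  have n2 : F (18 * S - 3) = G false := (e2).trans n0
  have n3 : F (20 * S - 2) = G false := (e6.symm).trans n1
  have n4 : F (4 * S - 3) = G false := (e30).trans n2
  have n5 : F (4 * S - 2) = G false := (e25.symm).trans n3
  have n6 : F (10 * S - 5) = G false := (e0).trans n4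
  have n7 : F (10 * S) = G false := (e15.symm).trans n5
  have n8 : F (14 * S - 1) = G false := (e29).trans n6
  have n9 : F (6 * S) = G false := (e18.symm).trans n7
  have n10 : G true = G false := (e36).trans n8
  have n11 : F (6 * S + 2) = G false := (e22.symm).trans n9
  have n12 : F (14 * S - 3) = G false := (e35).trans n10
  have n13 : F (20 * S + 2) = G false := (e17.symm).trans n11
  have n14 : F (10 * S - 3) = G false := (e31).trans n12
  have n15 : F (16 * S) = G false := (e26.symm).trans n13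
  have n16 : F (12 * S) = G false := (e9).trans n14
  have n17 : F (16 * S - 3) = G false := (e7.symm).trans n15
  have n18 : F (22 * S - 3) = G false := (e10).trans n16
  have n19 : F (20 * S) = G false := (e12.symm).trans n17
  have n20 : F (16 * S - 1) = G false := (e4).trans n18
  have n21 : F (14 * S) = G false := (e20.symm).trans n19
  have n22 : F (14 * S - 5) = G false := (e28).trans n20
  have n23 : F (18 * S - 2) = G false := (e16.symm).trans n21
  have n24 : F (2 * S - 3) = G false := (e1).trans n22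
  have n25 : F (-2) = G false := (e23.symm).trans n23
  have n26 : F (20 * S - 3) = G false := (e32).trans n24
  have n27 : F (-3) = G false := (e13.symm).trans n25
  have n28 : F (4 * S) = G false := (e11).trans n26
  have n29 : F (8 * S) = G false := (e8.symm).trans n27
  have n30 : F (18 * S) = G false := (e19).trans n28
  have n31 : F (4 * S + 2) = G false := (e24.symm).trans n29
  have n32 : F (2) = G false := (e21).trans n30
  have n33 : F (10 * S - 1) = G false := (e5.symm).trans n31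
  have n34 : F (-1) = G false := (e14).trans n32
  have n35 : F (22 * S - 1) = G false := (e3.symm).trans n33
  refine ⟨?_, ?_, ?_, n10⟩
  · intro j p h
    fin_cases j <;> fin_cases p
    · exact absurd (show (0 : ZMod 2) = 1 from h) (by decide)
    · exact n6
    · exact absurd (show (0 : ZMod 2) = 1 from h) (by decide)
    · exact absurd (show (0 : ZMod 2) = 1 from h) (by decide)
    · exact n24
    · exact absurd (show (0 : ZMod 2) = 1 from h) (by decide)
    · exact absurd (show (0 : ZMod 2) = 1 from h) (by decide)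
    · exact n2
    · exact absurd (show (0 : ZMod 2) = 1 from h) (by decide)
    · exact absurd (show (0 : ZMod 2) = 1 from h) (by decide)
    · exact n33
    · exact absurd (show (0 : ZMod 2) = 1 from h) (by decide)
    · exact absurd (show (0 : ZMod 2) = 1 from h) (by decide)
    · exact n20
    · exact absurd (show (0 : ZMod 2) = 1 from h) (by decide)
    · exact n31
    · exact absurd (show (0 : ZMod 2) = 1 from h) (by decide)
    · exact n1
    · exact n15
    · exact absurd (show (0 : ZMod 2) = 1 from h) (by decide)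
    · exact n27
    · exact n16
    · exact absurd (show (0 : ZMod 2) = 1 from h) (by decide)
    · exact n18
    · exact n28
    · exact absurd (show (0 : ZMod 2) = 1 from h) (by decide)
    · exact n17
    · exact n25
    · exact absurd (show (0 : ZMod 2) = 1 from h) (by decide)
    · exact n34
    · exact n5
    · exact n21
    · exact n11
    · exact n7
    · exact n30
    · exact n19
    · exact n32
    · exact n9
    · exact n23
    · exact n29
    · exact n3
    · exact n13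
  · intro k; fin_cases k
    · refine Eq.trans ?_ n34
      show F (-(2 * ((0) + (-1) * 0) + 1)) = _
      rw [← hper _ (0)]; congr 1; ring
    · refine Eq.trans ?_ n20
      show F (-(2 * ((4 * S) + (-1) * 0) + 1)) = _
      rw [← hper _ (1)]; congr 1; ring
    · refine Eq.trans ?_ n6
      show F (-(2 * ((7 * S + 2) + (2) * 0) + 1)) = _
      rw [← hper _ (1)]; congr 1; ring
  · intro k; fin_cases k
    · refine Eq.trans ?_ n24
      show F (-(2 * ((11 * S + 1) + (-1) * 0) + 1)) = _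
      rw [← hper _ (1)]; congr 1; ring
    · refine Eq.trans ?_ n2
      show F (-(2 * ((3 * S + 1) + (-1) * 0) + 1)) = _
      rw [← hper _ (1)]; congr 1; ring
    · refine Eq.trans ?_ n12
      show F (-(2 * ((5 * S + 1) + (2) * 0) + 1)) = _
      rw [← hper _ (1)]; congr 1; ring

set_option maxHeartbeats 4000000 in
theorem chain_1_1 {α : Sort*} (F : ℤ → α) (G : Bool → α) (S : ℤ)
    (hper : ∀ x m, F (x + 24 * S * m) = F x)
    (hirr : ∀ j p, irt j p = 1 → F (irr S j p) = F (-irr S j (p + 1)))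
    (hv : ∀ z, F (vxi S z 1) = G z) (hv2 : ∀ z, G z = F (-vxi S z 0))
    (hP : ∀ k, F (-(PL S).hig k (S - 2)) = F (-(PL S).low ((![1, 2, 0] : Fin 3 → Fin 3) k) 0))
    (hQ : ∀ k, F (-(QL S).hig k (S - 1)) = F (-(QL S).low ((![2, 0, 1] : Fin 3 → Fin 3) k) 0)) :
    (∀ j p, irt j p = 1 → F (irr S j p) = G false) ∧ (∀ k, F (-(PL S).low k 0) = G false) ∧
      (∀ k, F (-(QL S).low k 0) = G false) ∧ G true = G false := by
  have e0 : F (10 * S - 5) = F (4 * S - 3) := tr hper (hirr 0 1 rfl) (0) (1)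
      (by show (10 * S - 5 : ℤ) = (10 * S - 5) + 24 * S * (0); ring)
      (by show (4 * S - 3 : ℤ) = -(20 * S + 3) + 24 * S * (1); ring)
  have e1 : F (2 * S - 3) = F (14 * S - 5) := tr hper (hirr 1 1 rfl) (0) (1)
      (by show (2 * S - 3 : ℤ) = (2 * S - 3) + 24 * S * (0); ring)
      (by show (14 * S - 5 : ℤ) = -(10 * S + 5) + 24 * S * (1); ring)
  have e2 : F (18 * S - 3) = F (6 * S - 1) := tr hper (hirr 2 1 rfl) (0) (1)
      (by show (18 * S - 3 : ℤ) = (18 * S - 3) + 24 * S * (0); ring)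
      (by show (6 * S - 1 : ℤ) = -(18 * S + 1) + 24 * S * (1); ring)
  have e3 : F (10 * S - 1) = F (22 * S - 1) := tr hper (hirr 3 1 rfl) (0) (1)
      (by show (10 * S - 1 : ℤ) = (10 * S - 1) + 24 * S * (0); ring)
      (by show (22 * S - 1 : ℤ) = -(2 * S + 1) + 24 * S * (1); ring)
  have e4 : F (16 * S - 1) = F (22 * S - 3) := tr hper (hirr 4 1 rfl) (0) (1)
      (by show (16 * S - 1 : ℤ) = (16 * S - 1) + 24 * S * (0); ring)
      (by show (22 * S - 3 : ℤ) = -(2 * S + 3) + 24 * S * (1); ring)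
  have e5 : F (4 * S + 2) = F (10 * S - 1) := tr hper (hirr 5 0 rfl) (0) (1)
      (by show (4 * S + 2 : ℤ) = (4 * S + 2) + 24 * S * (0); ring)
      (by show (10 * S - 1 : ℤ) = -(14 * S + 1) + 24 * S * (1); ring)
  have e6 : F (6 * S - 3) = F (20 * S - 2) := tr hper (hirr 5 2 rfl) (0) (1)
      (by show (6 * S - 3 : ℤ) = (6 * S - 3) + 24 * S * (0); ring)
      (by show (20 * S - 2 : ℤ) = -(4 * S + 2) + 24 * S * (1); ring)
  have e7 : F (16 * S) = F (16 * S - 3) := tr hper (hirr 6 0 rfl) (0) (1)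
      (by show (16 * S : ℤ) = (16 * S) + 24 * S * (0); ring)
      (by show (16 * S - 3 : ℤ) = -(8 * S + 3) + 24 * S * (1); ring)
  have e8 : F (-3) = F (8 * S) := tr hper (hirr 6 2 rfl) (0) (1)
      (by show (-3 : ℤ) = (-3) + 24 * S * (0); ring)
      (by show (8 * S : ℤ) = -(16 * S) + 24 * S * (1); ring)
  have e9 : F (12 * S) = F (10 * S - 3) := tr hper (hirr 7 0 rfl) (0) (1)
      (by show (12 * S : ℤ) = (12 * S) + 24 * S * (0); ring)
      (by show (10 * S - 3 : ℤ) = -(14 * S + 3) + 24 * S * (1); ring)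
  have e10 : F (22 * S - 3) = F (12 * S) := tr hper (hirr 7 2 rfl) (0) (1)
      (by show (22 * S - 3 : ℤ) = (22 * S - 3) + 24 * S * (0); ring)
      (by show (12 * S : ℤ) = -(12 * S) + 24 * S * (1); ring)
  have e11 : F (4 * S) = F (20 * S - 3) := tr hper (hirr 8 0 rfl) (0) (1)
      (by show (4 * S : ℤ) = (4 * S) + 24 * S * (0); ring)
      (by show (20 * S - 3 : ℤ) = -(4 * S + 3) + 24 * S * (1); ring)
  have e12 : F (16 * S - 3) = F (20 * S) := tr hper (hirr 8 2 rfl) (0) (1)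
      (by show (16 * S - 3 : ℤ) = (16 * S - 3) + 24 * S * (0); ring)
      (by show (20 * S : ℤ) = -(4 * S) + 24 * S * (1); ring)
  have e13 : F (-2) = F (-3) := tr hper (hirr 9 0 rfl) (0) (0)
      (by show (-2 : ℤ) = (-2) + 24 * S * (0); ring)
      (by show (-3 : ℤ) = -(3) + 24 * S * (0); ring)
  have e14 : F (-1) = F (2) := tr hper (hirr 9 2 rfl) (0) (0)
      (by show (-1 : ℤ) = (-1) + 24 * S * (0); ring)
      (by show (2 : ℤ) = -(-2) + 24 * S * (0); ring)
  have e15 : F (4 * S - 2) = F (10 * S) := tr hper (hirr 10 0 rfl) (0) (1)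
      (by show (4 * S - 2 : ℤ) = (4 * S - 2) + 24 * S * (0); ring)
      (by show (10 * S : ℤ) = -(14 * S) + 24 * S * (1); ring)
  have e16 : F (14 * S) = F (18 * S - 2) := tr hper (hirr 10 1 rfl) (0) (1)
      (by show (14 * S : ℤ) = (14 * S) + 24 * S * (0); ring)
      (by show (18 * S - 2 : ℤ) = -(6 * S + 2) + 24 * S * (1); ring)
  have e17 : F (6 * S + 2) = F (20 * S + 2) := tr hper (hirr 10 2 rfl) (0) (1)
      (by show (6 * S + 2 : ℤ) = (6 * S + 2) + 24 * S * (0); ring)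
      (by show (20 * S + 2 : ℤ) = -(4 * S - 2) + 24 * S * (1); ring)
  have e18 : F (10 * S) = F (6 * S) := tr hper (hirr 11 0 rfl) (0) (1)
      (by show (10 * S : ℤ) = (10 * S) + 24 * S * (0); ring)
      (by show (6 * S : ℤ) = -(18 * S) + 24 * S * (1); ring)
  have e19 : F (18 * S) = F (4 * S) := tr hper (hirr 11 1 rfl) (0) (1)
      (by show (18 * S : ℤ) = (18 * S) + 24 * S * (0); ring)
      (by show (4 * S : ℤ) = -(20 * S) + 24 * S * (1); ring)
  have e20 : F (20 * S) = F (14 * S) := tr hper (hirr 11 2 rfl) (0) (1)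
      (by show (20 * S : ℤ) = (20 * S) + 24 * S * (0); ring)
      (by show (14 * S : ℤ) = -(10 * S) + 24 * S * (1); ring)
  have e21 : F (2) = F (18 * S) := tr hper (hirr 12 0 rfl) (0) (1)
      (by show (2 : ℤ) = (2) + 24 * S * (0); ring)
      (by show (18 * S : ℤ) = -(6 * S) + 24 * S * (1); ring)
  have e22 : F (6 * S) = F (6 * S + 2) := tr hper (hirr 12 1 rfl) (0) (1)
      (by show (6 * S : ℤ) = (6 * S) + 24 * S * (0); ring)
      (by show (6 * S + 2 : ℤ) = -(18 * S - 2) + 24 * S * (1); ring)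
  have e23 : F (18 * S - 2) = F (-2) := tr hper (hirr 12 2 rfl) (0) (0)
      (by show (18 * S - 2 : ℤ) = (18 * S - 2) + 24 * S * (0); ring)
      (by show (-2 : ℤ) = -(2) + 24 * S * (0); ring)
  have e24 : F (8 * S) = F (4 * S + 2) := tr hper (hirr 13 0 rfl) (0) (1)
      (by show (8 * S : ℤ) = (8 * S) + 24 * S * (0); ring)
      (by show (4 * S + 2 : ℤ) = -(20 * S - 2) + 24 * S * (1); ring)
  have e25 : F (20 * S - 2) = F (4 * S - 2) := tr hper (hirr 13 1 rfl) (0) (1)
      (by show (20 * S - 2 : ℤ) = (20 * S - 2) + 24 * S * (0); ring)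
      (by show (4 * S - 2 : ℤ) = -(20 * S + 2) + 24 * S * (1); ring)
  have e26 : F (20 * S + 2) = F (16 * S) := tr hper (hirr 13 2 rfl) (0) (1)
      (by show (20 * S + 2 : ℤ) = (20 * S + 2) + 24 * S * (0); ring)
      (by show (16 * S : ℤ) = -(8 * S) + 24 * S * (1); ring)
  have e27 : F (22 * S - 1) = F (16 * S - 1) := tr hper (hP 0) (1) (1)
      (by show (22 * S - 1 : ℤ) = -(2 * ((0) + (2) + (1) * (S - 2)) + 1) + 24 * S * (1); ring)
      (by show (16 * S - 1 : ℤ) = -(2 * ((4 * S) + (-1) * 0) + 1) + 24 * S * (1); ring)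
  have e28 : F (14 * S - 5) = F (10 * S - 5) := tr hper (hP 1) (1) (1)
      (by show (14 * S - 5 : ℤ) = -(2 * ((4 * S) + (3 * S - 2) + (-2) * (S - 2)) + 1) + 24 * S * (1); ring)
      (by show (10 * S - 5 : ℤ) = -(2 * ((7 * S + 2) + (2) * 0) + 1) + 24 * S * (1); ring)
  have e29 : F (14 * S - 1) = F (-1) := tr hper (hP 2) (1) (0)
      (by show (14 * S - 1 : ℤ) = -(2 * ((7 * S + 2) + (-3 * S) + (1) * (S - 2)) + 1) + 24 * S * (1); ring)
      (by show (-1 : ℤ) = -(2 * ((0) + (-1) * 0) + 1) + 24 * S * (0); ring)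
  have e30 : F (4 * S - 3) = F (14 * S - 3) := tr hper (hQ 0) (2) (1)
      (by show (4 * S - 3 : ℤ) = -(2 * ((11 * S + 1) + (10 * S + 1) + (1) * (S - 1)) + 1) + 24 * S * (2); ring)
      (by show (14 * S - 3 : ℤ) = -(2 * ((5 * S + 1) + (2) * 0) + 1) + 24 * S * (1); ring)
  have e31 : F (10 * S - 3) = F (2 * S - 3) := tr hper (hQ 1) (1) (1)
      (by show (10 * S - 3 : ℤ) = -(2 * ((3 * S + 1) + (6 * S - 2) + (-2) * (S - 1)) + 1) + 24 * S * (1); ring)
      (by show (2 * S - 3 : ℤ) = -(2 * ((11 * S + 1) + (-1) * 0) + 1) + 24 * S * (1); ring)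
  have e32 : F (20 * S - 3) = F (18 * S - 3) := tr hper (hQ 2) (0) (1)
      (by show (20 * S - 3 : ℤ) = -(2 * ((5 * S + 1) + (-16 * S + 1) + (1) * (S - 1)) + 1) + 24 * S * (0); ring)
      (by show (18 * S - 3 : ℤ) = -(2 * ((3 * S + 1) + (-1) * 0) + 1) + 24 * S * (1); ring)
  have e33 : F (6 * S - 1) = G false := hv false
  have e34 : G false = F (6 * S - 3) := (hv2 false).trans (by
      rw [vxi_0_0, ← hper _ (1)]; congr 1; ring)
  have e35 : F (14 * S - 3) = G true := hv true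
  have e36 : G true = F (14 * S - 1) := (hv2 true).trans (by
      rw [vxi_1_0, ← hper _ (1)]; congr 1; ring)
  have n0 : F (6 * S - 1) = G false := e33
  have n1 : F (6 * S - 3) = G false := e34.symm
  have n2 : F (18 * S - 3) = G false := (e2).trans n0
  have n3 : F (20 * S - 2) = G false := (e6.symm).trans n1
  have n4 : F (20 * S - 3) = G false := (e32).trans n2
  have n5 : F (4 * S - 2) = G false := (e25.symm).trans n3
  have n6 : F (4 * S) = G false := (e11).trans n4
  have n7 : F (10 * S) = G false := (e15.symm).trans n5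
  have n8 : F (18 * S) = G false := (e19).trans n6
  have n9 : F (6 * S) = G false := (e18.symm).trans n7
  have n10 : F (2) = G false := (e21).trans n8
  have n11 : F (6 * S + 2) = G false := (e22.symm).trans n9
  have n12 : F (-1) = G false := (e14).trans n10
  have n13 : F (20 * S + 2) = G false := (e17.symm).trans n11
  have n14 : F (14 * S - 1) = G false := (e29).trans n12
  have n15 : F (16 * S) = G false := (e26.symm).trans n13
  have n16 : G true = G false := (e36).trans n14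
  have n17 : F (16 * S - 3) = G false := (e7.symm).trans n15
  have n18 : F (14 * S - 3) = G false := (e35).trans n16
  have n19 : F (20 * S) = G false := (e12.symm).trans n17
  have n20 : F (4 * S - 3) = G false := (e30).trans n18
  have n21 : F (14 * S) = G false := (e20.symm).trans n19
  have n22 : F (10 * S - 5) = G false := (e0).trans n20
  have n23 : F (18 * S - 2) = G false := (e16.symm).trans n21
  have n24 : F (14 * S - 5) = G false := (e28).trans n22
  have n25 : F (-2) = G false := (e23.symm).trans n23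
  have n26 : F (2 * S - 3) = G false := (e1).trans n24
  have n27 : F (-3) = G false := (e13.symm).trans n25
  have n28 : F (10 * S - 3) = G false := (e31).trans n26
  have n29 : F (8 * S) = G false := (e8.symm).trans n27
  have n30 : F (12 * S) = G false := (e9).trans n28
  have n31 : F (4 * S + 2) = G false := (e24.symm).trans n29
  have n32 : F (22 * S - 3) = G false := (e10).trans n30
  have n33 : F (10 * S - 1) = G false := (e5.symm).trans n31
  have n34 : F (16 * S - 1) = G false := (e4).trans n32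
  have n35 : F (22 * S - 1) = G false := (e3.symm).trans n33
  refine ⟨?_, ?_, ?_, n16⟩
  · intro j p h
    fin_cases j <;> fin_cases p
    · exact absurd (show (0 : ZMod 2) = 1 from h) (by decide)
    · exact n22
    · exact absurd (show (0 : ZMod 2) = 1 from h) (by decide)
    · exact absurd (show (0 : ZMod 2) = 1 from h) (by decide)
    · exact n26
    · exact absurd (show (0 : ZMod 2) = 1 from h) (by decide)
    · exact absurd (show (0 : ZMod 2) = 1 from h) (by decide)
    · exact n2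
    · exact absurd (show (0 : ZMod 2) = 1 from h) (by decide)
    · exact absurd (show (0 : ZMod 2) = 1 from h) (by decide)
    · exact n33
    · exact absurd (show (0 : ZMod 2) = 1 from h) (by decide)
    · exact absurd (show (0 : ZMod 2) = 1 from h) (by decide)
    · exact n34
    · exact absurd (show (0 : ZMod 2) = 1 from h) (by decide)
    · exact n31
    · exact absurd (show (0 : ZMod 2) = 1 from h) (by decide)
    · exact n1
    · exact n15
    · exact absurd (show (0 : ZMod 2) = 1 from h) (by decide)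
    · exact n27
    · exact n30
    · exact absurd (show (0 : ZMod 2) = 1 from h) (by decide)
    · exact n32
    · exact n6
    · exact absurd (show (0 : ZMod 2) = 1 from h) (by decide)
    · exact n17
    · exact n25
    · exact absurd (show (0 : ZMod 2) = 1 from h) (by decide)
    · exact n12
    · exact n5
    · exact n21
    · exact n11
    · exact n7
    · exact n8
    · exact n19
    · exact n10
    · exact n9
    · exact n23
    · exact n29
    · exact n3
    · exact n13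
  · intro k; fin_cases k
    · refine Eq.trans ?_ n12
      show F (-(2 * ((0) + (-1) * 0) + 1)) = _
      rw [← hper _ (0)]; congr 1; ring
    · refine Eq.trans ?_ n34
      show F (-(2 * ((4 * S) + (-1) * 0) + 1)) = _
      rw [← hper _ (1)]; congr 1; ring
    · refine Eq.trans ?_ n22
      show F (-(2 * ((7 * S + 2) + (2) * 0) + 1)) = _
      rw [← hper _ (1)]; congr 1; ring
  · intro k; fin_cases k
    · refine Eq.trans ?_ n26
      show F (-(2 * ((11 * S + 1) + (-1) * 0) + 1)) = _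
      rw [← hper _ (1)]; congr 1; ring
    · refine Eq.trans ?_ n2
      show F (-(2 * ((3 * S + 1) + (-1) * 0) + 1)) = _
      rw [← hper _ (1)]; congr 1; ring
    · refine Eq.trans ?_ n18
      show F (-(2 * ((5 * S + 1) + (2) * 0) + 1)) = _
      rw [← hper _ (1)]; congr 1; ring

set_option maxHeartbeats 4000000 in
theorem chain_1_2 {α : Sort*} (F : ℤ → α) (G : Bool → α) (S : ℤ)
    (hper : ∀ x m, F (x + 24 * S * m) = F x)
    (hirr : ∀ j p, irt j p = 1 → F (irr S j p) = F (-irr S j (p + 1)))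
    (hv : ∀ z, F (vxi S z 1) = G z) (hv2 : ∀ z, G z = F (-vxi S z 0))
    (hP : ∀ k, F (-(PL S).hig k (S - 2)) = F (-(PL S).low ((![2, 0, 1] : Fin 3 → Fin 3) k) 0))
    (hQ : ∀ k, F (-(QL S).hig k (S - 1)) = F (-(QL S).low ((![0, 1, 2] : Fin 3 → Fin 3) k) 0)) :
    (∀ j p, irt j p = 1 → F (irr S j p) = G false) ∧ (∀ k, F (-(PL S).low k 0) = G false) ∧
      (∀ k, F (-(QL S).low k 0) = G false) ∧ G true = G false := by
  have e0 : F (10 * S - 5) = F (4 * S - 3) := tr hper (hirr 0 1 rfl) (0) (1)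
      (by show (10 * S - 5 : ℤ) = (10 * S - 5) + 24 * S * (0); ring)
      (by show (4 * S - 3 : ℤ) = -(20 * S + 3) + 24 * S * (1); ring)
  have e1 : F (2 * S - 3) = F (14 * S - 5) := tr hper (hirr 1 1 rfl) (0) (1)
      (by show (2 * S - 3 : ℤ) = (2 * S - 3) + 24 * S * (0); ring)
      (by show (14 * S - 5 : ℤ) = -(10 * S + 5) + 24 * S * (1); ring)
  have e2 : F (18 * S - 3) = F (6 * S - 1) := tr hper (hirr 2 1 rfl) (0) (1)
      (by show (18 * S - 3 : ℤ) = (18 * S - 3) + 24 * S * (0); ring)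
      (by show (6 * S - 1 : ℤ) = -(18 * S + 1) + 24 * S * (1); ring)
  have e3 : F (10 * S - 1) = F (22 * S - 1) := tr hper (hirr 3 1 rfl) (0) (1)
      (by show (10 * S - 1 : ℤ) = (10 * S - 1) + 24 * S * (0); ring)
      (by show (22 * S - 1 : ℤ) = -(2 * S + 1) + 24 * S * (1); ring)
  have e4 : F (16 * S - 1) = F (22 * S - 3) := tr hper (hirr 4 1 rfl) (0) (1)
      (by show (16 * S - 1 : ℤ) = (16 * S - 1) + 24 * S * (0); ring)
      (by show (22 * S - 3 : ℤ) = -(2 * S + 3) + 24 * S * (1); ring)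
  have e5 : F (4 * S + 2) = F (10 * S - 1) := tr hper (hirr 5 0 rfl) (0) (1)
      (by show (4 * S + 2 : ℤ) = (4 * S + 2) + 24 * S * (0); ring)
      (by show (10 * S - 1 : ℤ) = -(14 * S + 1) + 24 * S * (1); ring)
  have e6 : F (6 * S - 3) = F (20 * S - 2) := tr hper (hirr 5 2 rfl) (0) (1)
      (by show (6 * S - 3 : ℤ) = (6 * S - 3) + 24 * S * (0); ring)
      (by show (20 * S - 2 : ℤ) = -(4 * S + 2) + 24 * S * (1); ring)
  have e7 : F (16 * S) = F (16 * S - 3) := tr hper (hirr 6 0 rfl) (0) (1)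
      (by show (16 * S : ℤ) = (16 * S) + 24 * S * (0); ring)
      (by show (16 * S - 3 : ℤ) = -(8 * S + 3) + 24 * S * (1); ring)
  have e8 : F (-3) = F (8 * S) := tr hper (hirr 6 2 rfl) (0) (1)
      (by show (-3 : ℤ) = (-3) + 24 * S * (0); ring)
      (by show (8 * S : ℤ) = -(16 * S) + 24 * S * (1); ring)
  have e9 : F (12 * S) = F (10 * S - 3) := tr hper (hirr 7 0 rfl) (0) (1)
      (by show (12 * S : ℤ) = (12 * S) + 24 * S * (0); ring)
      (by show (10 * S - 3 : ℤ) = -(14 * S + 3) + 24 * S * (1); ring)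
  have e10 : F (22 * S - 3) = F (12 * S) := tr hper (hirr 7 2 rfl) (0) (1)
      (by show (22 * S - 3 : ℤ) = (22 * S - 3) + 24 * S * (0); ring)
      (by show (12 * S : ℤ) = -(12 * S) + 24 * S * (1); ring)
  have e11 : F (4 * S) = F (20 * S - 3) := tr hper (hirr 8 0 rfl) (0) (1)
      (by show (4 * S : ℤ) = (4 * S) + 24 * S * (0); ring)
      (by show (20 * S - 3 : ℤ) = -(4 * S + 3) + 24 * S * (1); ring)
  have e12 : F (16 * S - 3) = F (20 * S) := tr hper (hirr 8 2 rfl) (0) (1)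
      (by show (16 * S - 3 : ℤ) = (16 * S - 3) + 24 * S * (0); ring)
      (by show (20 * S : ℤ) = -(4 * S) + 24 * S * (1); ring)
  have e13 : F (-2) = F (-3) := tr hper (hirr 9 0 rfl) (0) (0)
      (by show (-2 : ℤ) = (-2) + 24 * S * (0); ring)
      (by show (-3 : ℤ) = -(3) + 24 * S * (0); ring)
  have e14 : F (-1) = F (2) := tr hper (hirr 9 2 rfl) (0) (0)
      (by show (-1 : ℤ) = (-1) + 24 * S * (0); ring)
      (by show (2 : ℤ) = -(-2) + 24 * S * (0); ring)
  have e15 : F (4 * S - 2) = F (10 * S) := tr hper (hirr 10 0 rfl) (0) (1)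
      (by show (4 * S - 2 : ℤ) = (4 * S - 2) + 24 * S * (0); ring)
      (by show (10 * S : ℤ) = -(14 * S) + 24 * S * (1); ring)
  have e16 : F (14 * S) = F (18 * S - 2) := tr hper (hirr 10 1 rfl) (0) (1)
      (by show (14 * S : ℤ) = (14 * S) + 24 * S * (0); ring)
      (by show (18 * S - 2 : ℤ) = -(6 * S + 2) + 24 * S * (1); ring)
  have e17 : F (6 * S + 2) = F (20 * S + 2) := tr hper (hirr 10 2 rfl) (0) (1)
      (by show (6 * S + 2 : ℤ) = (6 * S + 2) + 24 * S * (0); ring)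
      (by show (20 * S + 2 : ℤ) = -(4 * S - 2) + 24 * S * (1); ring)
  have e18 : F (10 * S) = F (6 * S) := tr hper (hirr 11 0 rfl) (0) (1)
      (by show (10 * S : ℤ) = (10 * S) + 24 * S * (0); ring)
      (by show (6 * S : ℤ) = -(18 * S) + 24 * S * (1); ring)
  have e19 : F (18 * S) = F (4 * S) := tr hper (hirr 11 1 rfl) (0) (1)
      (by show (18 * S : ℤ) = (18 * S) + 24 * S * (0); ring)
      (by show (4 * S : ℤ) = -(20 * S) + 24 * S * (1); ring)
  have e20 : F (20 * S) = F (14 * S) := tr hper (hirr 11 2 rfl) (0) (1)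
      (by show (20 * S : ℤ) = (20 * S) + 24 * S * (0); ring)
      (by show (14 * S : ℤ) = -(10 * S) + 24 * S * (1); ring)
  have e21 : F (2) = F (18 * S) := tr hper (hirr 12 0 rfl) (0) (1)
      (by show (2 : ℤ) = (2) + 24 * S * (0); ring)
      (by show (18 * S : ℤ) = -(6 * S) + 24 * S * (1); ring)
  have e22 : F (6 * S) = F (6 * S + 2) := tr hper (hirr 12 1 rfl) (0) (1)
      (by show (6 * S : ℤ) = (6 * S) + 24 * S * (0); ring)
      (by show (6 * S + 2 : ℤ) = -(18 * S - 2) + 24 * S * (1); ring)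
  have e23 : F (18 * S - 2) = F (-2) := tr hper (hirr 12 2 rfl) (0) (0)
      (by show (18 * S - 2 : ℤ) = (18 * S - 2) + 24 * S * (0); ring)
      (by show (-2 : ℤ) = -(2) + 24 * S * (0); ring)
  have e24 : F (8 * S) = F (4 * S + 2) := tr hper (hirr 13 0 rfl) (0) (1)
      (by show (8 * S : ℤ) = (8 * S) + 24 * S * (0); ring)
      (by show (4 * S + 2 : ℤ) = -(20 * S - 2) + 24 * S * (1); ring)
  have e25 : F (20 * S - 2) = F (4 * S - 2) := tr hper (hirr 13 1 rfl) (0) (1)
      (by show (20 * S - 2 : ℤ) = (20 * S - 2) + 24 * S * (0); ring)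
      (by show (4 * S - 2 : ℤ) = -(20 * S + 2) + 24 * S * (1); ring)
  have e26 : F (20 * S + 2) = F (16 * S) := tr hper (hirr 13 2 rfl) (0) (1)
      (by show (20 * S + 2 : ℤ) = (20 * S + 2) + 24 * S * (0); ring)
      (by show (16 * S : ℤ) = -(8 * S) + 24 * S * (1); ring)
  have e27 : F (22 * S - 1) = F (10 * S - 5) := tr hper (hP 0) (1) (1)
      (by show (22 * S - 1 : ℤ) = -(2 * ((0) + (2) + (1) * (S - 2)) + 1) + 24 * S * (1); ring)
      (by show (10 * S - 5 : ℤ) = -(2 * ((7 * S + 2) + (2) * 0) + 1) + 24 * S * (1); ring)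
  have e28 : F (14 * S - 5) = F (-1) := tr hper (hP 1) (1) (0)
      (by show (14 * S - 5 : ℤ) = -(2 * ((4 * S) + (3 * S - 2) + (-2) * (S - 2)) + 1) + 24 * S * (1); ring)
      (by show (-1 : ℤ) = -(2 * ((0) + (-1) * 0) + 1) + 24 * S * (0); ring)
  have e29 : F (14 * S - 1) = F (16 * S - 1) := tr hper (hP 2) (1) (1)
      (by show (14 * S - 1 : ℤ) = -(2 * ((7 * S + 2) + (-3 * S) + (1) * (S - 2)) + 1) + 24 * S * (1); ring)
      (by show (16 * S - 1 : ℤ) = -(2 * ((4 * S) + (-1) * 0) + 1) + 24 * S * (1); ring)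
  have e30 : F (4 * S - 3) = F (2 * S - 3) := tr hper (hQ 0) (2) (1)
      (by show (4 * S - 3 : ℤ) = -(2 * ((11 * S + 1) + (10 * S + 1) + (1) * (S - 1)) + 1) + 24 * S * (2); ring)
      (by show (2 * S - 3 : ℤ) = -(2 * ((11 * S + 1) + (-1) * 0) + 1) + 24 * S * (1); ring)
  have e31 : F (10 * S - 3) = F (18 * S - 3) := tr hper (hQ 1) (1) (1)
      (by show (10 * S - 3 : ℤ) = -(2 * ((3 * S + 1) + (6 * S - 2) + (-2) * (S - 1)) + 1) + 24 * S * (1); ring)
      (by show (18 * S - 3 : ℤ) = -(2 * ((3 * S + 1) + (-1) * 0) + 1) + 24 * S * (1); ring)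
  have e32 : F (20 * S - 3) = F (14 * S - 3) := tr hper (hQ 2) (0) (1)
      (by show (20 * S - 3 : ℤ) = -(2 * ((5 * S + 1) + (-16 * S + 1) + (1) * (S - 1)) + 1) + 24 * S * (0); ring)
      (by show (14 * S - 3 : ℤ) = -(2 * ((5 * S + 1) + (2) * 0) + 1) + 24 * S * (1); ring)
  have e33 : F (6 * S - 1) = G false := hv false
  have e34 : G false = F (6 * S - 3) := (hv2 false).trans (by
      rw [vxi_0_0, ← hper _ (1)]; congr 1; ring)
  have e35 : F (14 * S - 3) = G true := hv true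
  have e36 : G true = F (14 * S - 1) := (hv2 true).trans (by
      rw [vxi_1_0, ← hper _ (1)]; congr 1; ring)
  have n0 : F (6 * S - 1) = G false := e33
  have n1 : F (6 * S - 3) = G false := e34.symm
  have n2 : F (18 * S - 3) = G false := (e2).trans n0
  have n3 : F (20 * S - 2) = G false := (e6.symm).trans n1
  have n4 : F (10 * S - 3) = G false := (e31).trans n2
  have n5 : F (4 * S - 2) = G false := (e25.symm).trans n3
  have n6 : F (12 * S) = G false := (e9).trans n4
  have n7 : F (10 * S) = G false := (e15.symm).trans n5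
  have n8 : F (22 * S - 3) = G false := (e10).trans n6
  have n9 : F (6 * S) = G false := (e18.symm).trans n7
  have n10 : F (16 * S - 1) = G false := (e4).trans n8
  have n11 : F (6 * S + 2) = G false := (e22.symm).trans n9
  have n12 : F (14 * S - 1) = G false := (e29).trans n10
  have n13 : F (20 * S + 2) = G false := (e17.symm).trans n11
  have n14 : G true = G false := (e36).trans n12
  have n15 : F (16 * S) = G false := (e26.symm).trans n13
  have n16 : F (14 * S - 3) = G false := (e35).trans n14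
  have n17 : F (16 * S - 3) = G false := (e7.symm).trans n15
  have n18 : F (20 * S - 3) = G false := (e32).trans n16
  have n19 : F (20 * S) = G false := (e12.symm).trans n17
  have n20 : F (4 * S) = G false := (e11).trans n18
  have n21 : F (14 * S) = G false := (e20.symm).trans n19
  have n22 : F (18 * S) = G false := (e19).trans n20
  have n23 : F (18 * S - 2) = G false := (e16.symm).trans n21
  have n24 : F (2) = G false := (e21).trans n22
  have n25 : F (-2) = G false := (e23.symm).trans n23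
  have n26 : F (-1) = G false := (e14).trans n24
  have n27 : F (-3) = G false := (e13.symm).trans n25
  have n28 : F (14 * S - 5) = G false := (e28).trans n26
  have n29 : F (8 * S) = G false := (e8.symm).trans n27
  have n30 : F (2 * S - 3) = G false := (e1).trans n28
  have n31 : F (4 * S + 2) = G false := (e24.symm).trans n29
  have n32 : F (4 * S - 3) = G false := (e30).trans n30
  have n33 : F (10 * S - 1) = G false := (e5.symm).trans n31
  have n34 : F (10 * S - 5) = G false := (e0).trans n32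
  have n35 : F (22 * S - 1) = G false := (e3.symm).trans n33
  refine ⟨?_, ?_, ?_, n14⟩
  · intro j p h
    fin_cases j <;> fin_cases p
    · exact absurd (show (0 : ZMod 2) = 1 from h) (by decide)
    · exact n34
    · exact absurd (show (0 : ZMod 2) = 1 from h) (by decide)
    · exact absurd (show (0 : ZMod 2) = 1 from h) (by decide)
    · exact n30
    · exact absurd (show (0 : ZMod 2) = 1 from h) (by decide)
    · exact absurd (show (0 : ZMod 2) = 1 from h) (by decide)
    · exact n2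
    · exact absurd (show (0 : ZMod 2) = 1 from h) (by decide)
    · exact absurd (show (0 : ZMod 2) = 1 from h) (by decide)
    · exact n33
    · exact absurd (show (0 : ZMod 2) = 1 from h) (by decide)
    · exact absurd (show (0 : ZMod 2) = 1 from h) (by decide)
    · exact n10
    · exact absurd (show (0 : ZMod 2) = 1 from h) (by decide)
    · exact n31
    · exact absurd (show (0 : ZMod 2) = 1 from h) (by decide)
    · exact n1
    · exact n15
    · exact absurd (show (0 : ZMod 2) = 1 from h) (by decide)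
    · exact n27
    · exact n6
    · exact absurd (show (0 : ZMod 2) = 1 from h) (by decide)
    · exact n8
    · exact n20
    · exact absurd (show (0 : ZMod 2) = 1 from h) (by decide)
    · exact n17
    · exact n25
    · exact absurd (show (0 : ZMod 2) = 1 from h) (by decide)
    · exact n26
    · exact n5
    · exact n21
    · exact n11
    · exact n7
    · exact n22
    · exact n19
    · exact n24
    · exact n9
    · exact n23
    · exact n29
    · exact n3
    · exact n13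
  · intro k; fin_cases k
    · refine Eq.trans ?_ n26
      show F (-(2 * ((0) + (-1) * 0) + 1)) = _
      rw [← hper _ (0)]; congr 1; ring
    · refine Eq.trans ?_ n10
      show F (-(2 * ((4 * S) + (-1) * 0) + 1)) = _
      rw [← hper _ (1)]; congr 1; ring
    · refine Eq.trans ?_ n34
      show F (-(2 * ((7 * S + 2) + (2) * 0) + 1)) = _
      rw [← hper _ (1)]; congr 1; ring
  · intro k; fin_cases k
    · refine Eq.trans ?_ n30
      show F (-(2 * ((11 * S + 1) + (-1) * 0) + 1)) = _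
      rw [← hper _ (1)]; congr 1; ring
    · refine Eq.trans ?_ n2
      show F (-(2 * ((3 * S + 1) + (-1) * 0) + 1)) = _
      rw [← hper _ (1)]; congr 1; ring
    · refine Eq.trans ?_ n16
      show F (-(2 * ((5 * S + 1) + (2) * 0) + 1)) = _
      rw [← hper _ (1)]; congr 1; ring

theorem chain_0 {α : Sort*} (F : ℤ → α) (G : Bool → α) (r : ℕ) (S : ℤ) (hS : S = r + 2)
    (hper : ∀ x m, F (x + 24 * S * m) = F x)
    (hirr : ∀ j p, irt j p = 0 → F (irr S j p) = F (-irr S j (p + 1)))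
    (hv : ∀ z, F (vxi S z 0) = G z) (hv2 : ∀ z, G z = F (-vxi S z 1))
    (hP : ∀ τ p, ladTT (r + 1) τ p = 0 → F ((PL S).cc (r + 1) τ p) = F (-(PL S).cc (r + 1) τ (p + 1)))
    (hQ : ∀ τ p, ladTT (r + 2) τ p = 0 → F ((QL S).cc (r + 2) τ p) = F (-(QL S).cc (r + 2) τ (p + 1))) :
    (∀ j p, irt j p = 0 → F (irr S j p) = G false) ∧
    (∀ τ p, ladTT (r + 1) τ p = 0 → F ((PL S).cc (r + 1) τ p) = G false) ∧
    (∀ τ p, ladTT (r + 2) τ p = 0 → F ((QL S).cc (r + 2) τ p) = G false) ∧ G true = G false := by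
  suffices h : (∀ j p, irt j p = 0 → F (irr S j p) = G false) ∧ (∀ k, F ((PL S).low k 0) = G false) ∧
      (∀ k, F ((QL S).low k 0) = G false) ∧ G true = G false by
    obtain ⟨h1, h2, h3, h4⟩ := h
    exact ⟨h1, fun τ p ht => (PL S).all0 F hP _ h2 τ p ht, fun τ p ht => (QL S).all0 F hQ _ h3 τ p ht, h4⟩
  have hp : ∀ k, F ((PL S).low k 0) = F ((PL S).hig (rot3 2 k (r + 1)) (S - 2)) := by
    intro k
    have := (PL S).pass0 F hP k r (by omega)
    rw [this, show ((r : ℕ) : ℤ) = S - 2 by omega]; rfl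
  have hq : ∀ k, F ((QL S).low k 0) = F ((QL S).hig (rot3 1 k (r + 2)) (S - 1)) := by
    intro k
    have := (QL S).pass0 F hQ k (r + 1) (by omega)
    rw [this, show ((r + 1 : ℕ) : ℤ) = S - 1 by omega]; rfl
  obtain ⟨q, hq3⟩ : ∃ q, r = 3 * q + 0 ∨ r = 3 * q + 1 ∨ r = 3 * q + 2 := ⟨r / 3, by omega⟩
  rcases hq3 with rfl | rfl | rfl
  · refine chain_0_0 F G S hper hirr hv hv2 (fun k => ?_) (fun k => ?_)
    · rw [hp k, show rot3 2 k (3 * q + 0 + 1) = (![2, 0, 1] : Fin 3 → Fin 3) k by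
        rw [show 3 * q + 0 + 1 = 3 * q + 1 by ring, rot3_mul]; revert k; decide]
    · rw [hq k, show rot3 1 k (3 * q + 0 + 2) = (![2, 0, 1] : Fin 3 → Fin 3) k by
        rw [show 3 * q + 0 + 2 = 3 * q + 2 by ring, rot3_mul]; revert k; decide]
  · refine chain_0_1 F G S hper hirr hv hv2 (fun k => ?_) (fun k => ?_)
    · rw [hp k, show rot3 2 k (3 * q + 1 + 1) = (![1, 2, 0] : Fin 3 → Fin 3) k by
        rw [show 3 * q + 1 + 1 = 3 * q + 2 by ring, rot3_mul]; revert k; decide]
    · rw [hq k, show rot3 1 k (3 * q + 1 + 2) = (![0, 1, 2] : Fin 3 → Fin 3) k by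
        rw [show 3 * q + 1 + 2 = 3 * q + 3 by ring, rot3_mul]; revert k; decide]
  · refine chain_0_2 F G S hper hirr hv hv2 (fun k => ?_) (fun k => ?_)
    · rw [hp k, show rot3 2 k (3 * q + 2 + 1) = (![0, 1, 2] : Fin 3 → Fin 3) k by
        rw [show 3 * q + 2 + 1 = 3 * q + 3 by ring, rot3_mul]; revert k; decide]
    · rw [hq k, show rot3 1 k (3 * q + 2 + 2) = (![1, 2, 0] : Fin 3 → Fin 3) k by
        rw [show 3 * q + 2 + 2 = 3 * q + 4 by ring, rot3_mul]; revert k; decide]

theorem chain_1 {α : Sort*} (F : ℤ → α) (G : Bool → α) (r : ℕ) (S : ℤ) (hS : S = r + 2)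
    (hper : ∀ x m, F (x + 24 * S * m) = F x)
    (hirr : ∀ j p, irt j p = 1 → F (irr S j p) = F (-irr S j (p + 1)))
    (hv : ∀ z, F (vxi S z 1) = G z) (hv2 : ∀ z, G z = F (-vxi S z 0))
    (hP : ∀ τ p, ladTT (r + 1) τ p = 1 → F ((PL S).cc (r + 1) τ p) = F (-(PL S).cc (r + 1) τ (p + 1)))
    (hQ : ∀ τ p, ladTT (r + 2) τ p = 1 → F ((QL S).cc (r + 2) τ p) = F (-(QL S).cc (r + 2) τ (p + 1))) :
    (∀ j p, irt j p = 1 → F (irr S j p) = G false) ∧
    (∀ τ p, ladTT (r + 1) τ p = 1 → F ((PL S).cc (r + 1) τ p) = G false) ∧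
    (∀ τ p, ladTT (r + 2) τ p = 1 → F ((QL S).cc (r + 2) τ p) = G false) ∧ G true = G false := by
  suffices h : (∀ j p, irt j p = 1 → F (irr S j p) = G false) ∧ (∀ k, F (-(PL S).low k 0) = G false) ∧
      (∀ k, F (-(QL S).low k 0) = G false) ∧ G true = G false by
    obtain ⟨h1, h2, h3, h4⟩ := h
    exact ⟨h1, fun τ p ht => (PL S).all1 F hP _ h2 τ p ht, fun τ p ht => (QL S).all1 F hQ _ h3 τ p ht, h4⟩
  have hp : ∀ k, F (-(PL S).hig k (S - 2)) = F (-(PL S).low (rot3 1 k r) 0) := by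
    intro k
    have := (PL S).pass1 F hP k r (by omega)
    rw [show ((r : ℕ) : ℤ) = S - 2 by omega] at this; exact this
  have hq : ∀ k, F (-(QL S).hig k (S - 1)) = F (-(QL S).low (rot3 1 k (r + 1)) 0) := by
    intro k
    have := (QL S).pass1 F hQ k (r + 1) (by omega)
    rw [show ((r + 1 : ℕ) : ℤ) = S - 1 by omega] at this; exact this
  obtain ⟨q, hq3⟩ : ∃ q, r = 3 * q + 0 ∨ r = 3 * q + 1 ∨ r = 3 * q + 2 := ⟨r / 3, by omega⟩
  rcases hq3 with rfl | rfl | rfl
  · refine chain_1_0 F G S hper hirr hv hv2 (fun k => ?_) (fun k => ?_)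
    · rw [hp k, show rot3 1 k (3 * q + 0 ) = (![0, 1, 2] : Fin 3 → Fin 3) k by
        rw [show 3 * q + 0  = 3 * q + 0 by ring, rot3_mul]; revert k; decide]
    · rw [hq k, show rot3 1 k (3 * q + 0 + 1) = (![1, 2, 0] : Fin 3 → Fin 3) k by
        rw [show 3 * q + 0 + 1 = 3 * q + 1 by ring, rot3_mul]; revert k; decide]
  · refine chain_1_1 F G S hper hirr hv hv2 (fun k => ?_) (fun k => ?_)
    · rw [hp k, show rot3 1 k (3 * q + 1 ) = (![1, 2, 0] : Fin 3 → Fin 3) k by
        rw [show 3 * q + 1  = 3 * q + 1 by ring, rot3_mul]; revert k; decide]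
    · rw [hq k, show rot3 1 k (3 * q + 1 + 1) = (![2, 0, 1] : Fin 3 → Fin 3) k by
        rw [show 3 * q + 1 + 1 = 3 * q + 2 by ring, rot3_mul]; revert k; decide]
  · refine chain_1_2 F G S hper hirr hv hv2 (fun k => ?_) (fun k => ?_)
    · rw [hp k, show rot3 1 k (3 * q + 2 ) = (![2, 0, 1] : Fin 3 → Fin 3) k by
        rw [show 3 * q + 2  = 3 * q + 2 by ring, rot3_mul]; revert k; decide]
    · rw [hq k, show rot3 1 k (3 * q + 2 + 1) = (![0, 1, 2] : Fin 3 → Fin 3) k by
        rw [show 3 * q + 2 + 1 = 3 * q + 3 by ring, rot3_mul]; revert k; decide]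

end Run7.h222.Genus
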