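import Mathlib

set_option autoImplicit false

/-!
# Orientable genus of a finite graph through rotation systems

Definitions of rotation systems, their faces and the orientable genus of a finite connected
graph, the Euler lower bound for simple graphs of minimum degree at least two, and a criterion
for triangular rotation systems given by a next-neighbour function.
-/

namespace Run7.h222.Genus

open SimpleGraph Equiv.Perm

universe u

/-- A rotation system of a graph: a permutation of the darts (directed edges) which preserves the
initial vertex of every dart and, at every vertex, cyclically permutes all darts leaving it. -/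
structure RotationSystem {V : Type u} (G : SimpleGraph V) where
  /-- the permutation of the darts -/
  rot : Equiv.Perm G.Dart
  /-- it preserves initial vertices -/
  rot_fst : ∀ d : G.Dart, (rot d).fst = d.fst
  /-- the darts leaving a vertex form one cycle -/
  rot_trans : ∀ d e : G.Dart, d.fst = e.fst → rot.SameCycle d e

variable {V : Type u} {G : SimpleGraph V}

/-- The face-tracing permutation of a rotation system: reverse the dart, then rotate. -/
def RotationSystem.face (R : RotationSystem G) : Equiv.Perm G.Dart :=
  R.rot * Function.Involutive.toPerm SimpleGraph.Dart.symm SimpleGraph.Dart.symm_involutive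

/-- The number of faces of a rotation system: the number of orbits of the face-tracing
permutation. -/
noncomputable def RotationSystem.numFaces (R : RotationSystem G) : ℕ :=
  Nat.card (Quotient (Equiv.Perm.SameCycle.setoid R.face))

/-- `HasGenus G g`: the graph `G` has a rotation system whose Euler characteristic
`|V| - |E| + |F|` is `2 - 2g`, i.e. (for connected `G` with at least one edge) a cellular
embedding in the closed orientable surface of genus `g`. -/
def HasGenus (G : SimpleGraph V) (g : ℕ) : Prop :=
  ∃ R : RotationSystem G,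
    (Nat.card V : ℤ) - (Nat.card G.edgeSet : ℤ) + (R.numFaces : ℤ) = 2 - 2 * (g : ℤ)

/-- The orientable genus of a finite connected graph with at least one edge
(Heffter-Edmonds-Youngs): the least `g` for which there is a rotation system with Euler
characteristic `2 - 2g`. -/
noncomputable def orientableGenus (G : SimpleGraph V) : ℕ := sInf {g : ℕ | HasGenus G g}

theorem RotationSystem.face_apply (R : RotationSystem G) (d : G.Dart) :
    R.face d = R.rot d.symm := rfl

theorem three_mul_card_quotient_le {D : Type u} [Finite D] (φ : Equiv.Perm D)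
    (h1 : ∀ d, φ d ≠ d) (h2 : ∀ d, φ (φ d) ≠ d) :
    3 * Nat.card (Quotient (Equiv.Perm.SameCycle.setoid φ)) ≤ Nat.card D := by
  classical
  have := Fintype.ofFinite D
  have : Fintype (Quotient (Equiv.Perm.SameCycle.setoid φ)) := Fintype.ofFinite _
  rw [Nat.card_eq_fintype_card, Nat.card_eq_fintype_card]
  have hfib := Finset.card_eq_sum_card_fiberwise (s := (Finset.univ : Finset D))
    (t := (Finset.univ : Finset (Quotient (Equiv.Perm.SameCycle.setoid φ))))
    (f := fun d => (Quotient.mk (Equiv.Perm.SameCycle.setoid φ) d)) (fun _ _ => by simp)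
  rw [← Finset.card_univ (α := D), hfib]
  have : ∀ q ∈ (Finset.univ : Finset (Quotient (Equiv.Perm.SameCycle.setoid φ))),
      3 ≤ (Finset.univ.filter
        (fun d => (Quotient.mk (Equiv.Perm.SameCycle.setoid φ) d) = q)).card := by
    intro q _
    obtain ⟨d, rfl⟩ := Quotient.exists_rep q
    have hs : ({d, φ d, φ (φ d)} : Finset D) ⊆ Finset.univ.filter
        (fun e => (Quotient.mk (Equiv.Perm.SameCycle.setoid φ) e)
          = Quotient.mk (Equiv.Perm.SameCycle.setoid φ) d) := by
      intro e he
      simp only [Finset.mem_insert, Finset.mem_singleton] at he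
      simp only [Finset.mem_filter, Finset.mem_univ, true_and]
      apply Quotient.sound
      show φ.SameCycle e d
      rcases he with rfl | rfl | rfl
      · exact Equiv.Perm.SameCycle.refl _ _
      · exact (Equiv.Perm.sameCycle_apply_left).2 (Equiv.Perm.SameCycle.refl _ _)
      · exact (Equiv.Perm.sameCycle_apply_left).2
          ((Equiv.Perm.sameCycle_apply_left).2 (Equiv.Perm.SameCycle.refl _ _))
    have hc : ({d, φ d, φ (φ d)} : Finset D).card = 3 := by
      rw [Finset.card_eq_three]
      exact ⟨d, φ d, φ (φ d), (h1 d).symm, (h2 d).symm, (h1 (φ d)).symm, rfl⟩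
    rw [← hc]
    exact Finset.card_le_card hs
  calc 3 * Fintype.card (Quotient (Equiv.Perm.SameCycle.setoid φ))
      = ∑ _q : Quotient (Equiv.Perm.SameCycle.setoid φ), 3 := by
        simp [mul_comm]
    _ ≤ _ := Finset.sum_le_sum this

theorem three_mul_card_quotient_ge {D : Type u} [Finite D] (φ : Equiv.Perm D)
    (h3 : ∀ d, φ (φ (φ d)) = d) :
    Nat.card D ≤ 3 * Nat.card (Quotient (Equiv.Perm.SameCycle.setoid φ)) := by
  classical
  have := Fintype.ofFinite D
  have : Fintype (Quotient (Equiv.Perm.SameCycle.setoid φ)) := Fintype.ofFinite _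
  rw [Nat.card_eq_fintype_card, Nat.card_eq_fintype_card]
  have hfib := Finset.card_eq_sum_card_fiberwise (s := (Finset.univ : Finset D))
    (t := (Finset.univ : Finset (Quotient (Equiv.Perm.SameCycle.setoid φ))))
    (f := fun d => (Quotient.mk (Equiv.Perm.SameCycle.setoid φ) d)) (fun _ _ => by simp)
  rw [← Finset.card_univ (α := D), hfib]
  have hit : ∀ (d : D) (n : ℕ), (φ ^ n) d = d ∨ (φ ^ n) d = φ d ∨ (φ ^ n) d = φ (φ d) := by
    intro d n
    induction n with
    | zero => left; simp
    | succ n ih =>
      rw [pow_succ', Equiv.Perm.mul_apply]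
      rcases ih with h | h | h
      · right; left; rw [h]
      · right; right; rw [h]
      · left; rw [h]; exact h3 d
  have : ∀ q ∈ (Finset.univ : Finset (Quotient (Equiv.Perm.SameCycle.setoid φ))),
      (Finset.univ.filter
        (fun d => (Quotient.mk (Equiv.Perm.SameCycle.setoid φ) d) = q)).card ≤ 3 := by
    intro q _
    obtain ⟨d, rfl⟩ := Quotient.exists_rep q
    have hs : Finset.univ.filter
        (fun e => (Quotient.mk (Equiv.Perm.SameCycle.setoid φ) e)
          = Quotient.mk (Equiv.Perm.SameCycle.setoid φ) d) ⊆ ({d, φ d, φ (φ d)} : Finset D) := by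
      intro e he
      simp only [Finset.mem_filter, Finset.mem_univ, true_and] at he
      have he' : φ.SameCycle d e := (Quotient.exact he).symm
      obtain ⟨n, -, -, hn⟩ := he'.exists_pow_eq'' 
      simp only [Finset.mem_insert, Finset.mem_singleton]
      rw [← hn]
      exact hit d n
    exact (Finset.card_le_card hs).trans Finset.card_le_three
  calc _ ≤ ∑ _q : Quotient (Equiv.Perm.SameCycle.setoid φ), 3 := Finset.sum_le_sum this
    _ = 3 * Fintype.card (Quotient (Equiv.Perm.SameCycle.setoid φ)) := by
        simp [mul_comm]

/-- Euler lower bound: three times the number of faces is at most the number of darts if every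
vertex has degree at least two. -/
theorem RotationSystem.three_mul_numFaces_le [Finite V] (R : RotationSystem G)
    (hdeg : ∀ d : G.Dart, ∃ e : G.Dart, e.fst = d.fst ∧ e ≠ d) :
    3 * R.numFaces ≤ Nat.card G.Dart := by
  classical
  have : Finite G.Dart := Finite.of_injective (fun d : G.Dart => d.toProd)
    (fun a b h => SimpleGraph.Dart.ext a b h)
  have hfix : ∀ d, R.rot d ≠ d := by
    intro d hd
    obtain ⟨e, he, hne⟩ := hdeg d
    have := R.rot_trans d e he.symm
    obtain ⟨k, hk⟩ := this
    apply hne
    rw [← hk]
    exact (Equiv.Perm.zpow_apply_eq_self_of_apply_eq_self hd k)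
  apply three_mul_card_quotient_le
  · intro d hd
    have h := congrArg (fun x : G.Dart => x.fst) hd
    simp only [RotationSystem.face_apply, R.rot_fst] at h
    exact d.fst_ne_snd h.symm
  · intro d hd
    set e := R.face d with he
    have h1 : e.fst = d.snd := by
      rw [he, RotationSystem.face_apply, R.rot_fst]; rfl
    have h2 : e.snd = d.fst := by
      have h := congrArg (fun x : G.Dart => x.fst) hd
      simp only [RotationSystem.face_apply, R.rot_fst] at h
      exact h
    have h3 : e = d.symm := by
      apply SimpleGraph.Dart.ext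
      exact Prod.ext h1 h2
    apply hfix d.symm
    rw [← RotationSystem.face_apply, ← he, h3]

/-- A next-neighbour function describing a triangular rotation system: `nxt v u` is the
neighbour of `v` following `u` in the rotation at `v`. -/
structure TriNext (G : SimpleGraph V) (nxt : V → V → V) : Prop where
  adj : ∀ u v, G.Adj u v → G.Adj v (nxt v u)
  tri : ∀ u v, G.Adj u v → nxt (nxt v u) v = u
  conn : ∀ v, ∀ f : V → Prop, (∀ u, G.Adj u v → (f (nxt v u) ↔ f u)) →
    ∀ u u', G.Adj u v → G.Adj u' v → f u → f u'

theorem TriNext.map {W : Type*} {G' : SimpleGraph W} {nxt : V → V → V} (h : TriNext G nxt)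
    (e : G ≃g G') : TriNext G' (fun v u => e (nxt (e.symm v) (e.symm u))) where
  adj u v huv := by
    have := h.adj (e.symm u) (e.symm v) (e.symm.map_adj_iff.2 huv)
    have := e.map_adj_iff.2 this
    simpa using this
  tri u v huv := by
    have := h.tri (e.symm u) (e.symm v) (e.symm.map_adj_iff.2 huv)
    simp [this]
  conn v f hf u u' hu hu' hfu := by
    have := h.conn (e.symm v) (fun x => f (e x)) (by
      intro x hx
      have hx' : G'.Adj (e x) v := by
        have := e.map_adj_iff.2 hx
        simpa using this
      have := hf (e x) hx'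
      simpa using this) (e.symm u) (e.symm u') (e.symm.map_adj_iff.2 hu)
        (e.symm.map_adj_iff.2 hu')
    simpa using this (by simpa using hfu)

/-- A triangular next-neighbour function gives a rotation system all of whose faces are
triangles: three times the number of faces is the number of darts. -/
theorem TriNext.exists_rotationSystem [Finite V] {nxt : V → V → V} (h : TriNext G nxt) :
    ∃ R : RotationSystem G, Nat.card G.Dart ≤ 3 * R.numFaces := by
  classical
  have : Finite G.Dart := Finite.of_injective (fun d : G.Dart => d.toProd)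
    (fun a b h => SimpleGraph.Dart.ext a b h)
  let φ : G.Dart → G.Dart := fun d => ⟨(d.snd, nxt d.snd d.fst), h.adj _ _ d.adj⟩
  have hφ1 : ∀ d, (φ d).fst = d.snd := fun d => rfl
  have hφ2 : ∀ d, (φ d).snd = nxt d.snd d.fst := fun d => rfl
  have hφ3 : ∀ d, φ (φ (φ d)) = d := by
    intro d
    apply SimpleGraph.Dart.ext
    have e1 : nxt (nxt d.snd d.fst) d.snd = d.fst := h.tri _ _ d.adj
    have e2 : nxt (nxt (nxt d.snd d.fst) d.snd) (nxt d.snd d.fst) = d.snd :=
      h.tri _ _ (h.adj _ _ d.adj)
    show ((nxt (nxt d.snd d.fst) d.snd),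
      nxt (nxt (nxt d.snd d.fst) d.snd) (nxt d.snd d.fst)) = (d.fst, d.snd)
    rw [e2, e1]
  let Φ : Equiv.Perm G.Dart := ⟨φ, fun d => φ (φ d), fun d => hφ3 d, fun d => hφ3 d⟩
  let S : Equiv.Perm G.Dart :=
    Function.Involutive.toPerm SimpleGraph.Dart.symm SimpleGraph.Dart.symm_involutive
  have hSS : S * S = 1 := by
    ext d
    · simp [S]
    · simp [S]
  have hrot : ∀ d : G.Dart, (Φ * S) d = φ d.symm := fun d => rfl
  refine ⟨⟨Φ * S, ?_, ?_⟩, ?_⟩
  · intro d
    rw [hrot, hφ1]
    rfl
  · intro d e hde
    let f : V → Prop := fun u => ∃ hu : G.Adj d.fst u, (Φ * S).SameCycle d ⟨(d.fst, u), hu⟩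
    have hf := h.conn d.fst f (by
      intro u hu
      have hu1 : G.Adj d.fst u := hu.symm
      have hu2 : G.Adj d.fst (nxt d.fst u) := h.adj _ _ hu
      have key : (Φ * S) ⟨(d.fst, u), hu1⟩ = ⟨(d.fst, nxt d.fst u), hu2⟩ := by
        rw [hrot]
        rfl
      constructor
      · rintro ⟨h1, h2⟩
        refine ⟨hu1, ?_⟩
        rw [← key] at h2
        exact (Equiv.Perm.sameCycle_apply_right).1 h2
      · rintro ⟨h1, h2⟩
        refine ⟨hu2, ?_⟩
        rw [← key]
        exact (Equiv.Perm.sameCycle_apply_right).2 h2)
    have hd : f d.snd := ⟨d.adj, Equiv.Perm.SameCycle.refl _ _⟩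
    have he : f e.snd := hf d.snd e.snd d.adj.symm (by rw [hde]; exact e.adj.symm) hd
    obtain ⟨h1, h2⟩ := he
    convert h2 using 1
    apply SimpleGraph.Dart.ext
    exact Prod.ext hde.symm rfl
  · have hface : (Φ * S) * S = Φ := by rw [mul_assoc, hSS, mul_one]
    have h' := three_mul_card_quotient_ge Φ hφ3
    have : Nat.card (Quotient (Equiv.Perm.SameCycle.setoid ((Φ * S) * S)))
        = Nat.card (Quotient (Equiv.Perm.SameCycle.setoid Φ)) := by rw [hface]
    unfold RotationSystem.numFaces RotationSystem.face
    change Nat.card G.Dart ≤ 3 * Nat.card (Quotient (Equiv.Perm.SameCycle.setoid ((Φ * S) * S)))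
    rw [this]
    exact h'

end Run7.h222.Genus
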