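import Mathlib
import Pool.Agent.Run7.h222.Genus

set_option autoImplicit false

/-!
# From index 2 triple systems to triangular embeddings of `K_{N+2} - K_2`

A triple system encodes an index 2 current graph with current group `ZMod N` (`N` even) with
two vortices.  It yields a triangular rotation system of the complete graph on
`ZMod N ⊕ Bool` minus the edge between the two extra vertices.
-/

namespace Run7.h222.Genus

open SimpleGraph

/-- The complete graph on `ZMod N ⊕ Bool` minus the edge joining the two extra vertices. -/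
def H (N : ℕ) : SimpleGraph (ZMod N ⊕ Bool) where
  Adj u v := match u, v with
    | .inl a, .inl b => a ≠ b
    | .inl _, .inr _ => True
    | .inr _, .inl _ => True
    | .inr _, .inr _ => False
  symm := ⟨fun u v h => by
    rcases u with a | z <;> rcases v with b | y
    · exact fun hh => h hh.symm
    · trivial
    · trivial
    · exact h⟩
  loopless := ⟨fun u h => by
    rcases u with a | z
    · exact h rfl
    · exact h⟩

theorem H_inl_inl {N : ℕ} (a b : ZMod N) : (H N).Adj (.inl a) (.inl b) ↔ a ≠ b := Iff.rfl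
theorem H_inl_inr {N : ℕ} (a : ZMod N) (z : Bool) : (H N).Adj (.inl a) (.inr z) := trivial
theorem H_inr_inl {N : ℕ} (a : ZMod N) (z : Bool) : (H N).Adj (.inr z) (.inl a) := trivial
theorem H_inr_inr {N : ℕ} (y z : Bool) : ¬ (H N).Adj (.inr z) (.inr y) := fun h => h

/-- An index 2 triple system over `ZMod N`. -/
structure TripleSystem (N : ℕ) (π : ZMod N →+* ZMod 2) where
  T : Type
  fin : Fintype T
  tt : T → Fin 3 → ZMod 2
  cc : T → Fin 3 → ZMod N
  vx : Bool → ZMod 2 → ZMod N
  sum_zero : ∀ τ, cc τ 0 + cc τ 1 + cc τ 2 = 0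
  par : ∀ τ p, tt τ (p + 1) = tt τ p + π (cc τ (p + 1))
  vx_odd : ∀ z t, π (vx z t) = 1
  card : 3 * Fintype.card T + 4 ≤ 2 * (N - 1)
  cover : ∀ t c, c ≠ 0 → (∃ τ p, tt τ p = t ∧ cc τ p = c) ∨ ∃ z, vx z t = c
  vx0 : vx false 0 + vx false 1 = 2
  vx1 : vx true 0 + vx true 1 = -2
  conn : ∀ t (f : ZMod N ⊕ Bool → Prop),
    (∀ τ p, tt τ p = t → (f (.inl (cc τ p)) ↔ f (.inl (-cc τ (p + 1))))) →
    (∀ z, f (.inl (vx z t)) ↔ f (.inr z)) →
    (∀ z, f (.inr z) ↔ f (.inl (-vx z (t + 1)))) →
    (∀ τ p, tt τ p = t → (f (.inl (cc τ p)) ↔ f (.inr false))) ∧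
      (f (.inr true) ↔ f (.inr false))

attribute [instance] TripleSystem.fin

namespace TripleSystem

variable {N : ℕ} {π : ZMod N →+* ZMod 2} (S : TripleSystem N π)

/-- the position of an incoming dart -/
def val : (S.T × Fin 3) ⊕ (Bool × ZMod 2) → ZMod 2 × ZMod N
  | .inl (τ, p) => (S.tt τ p, S.cc τ p)
  | .inr (z, t) => (t, S.vx z t)

theorem val_surj (t : ZMod 2) (c : ZMod N) (hc : c ≠ 0) : ∃ i, S.val i = (t, c) := by
  rcases S.cover t c hc with ⟨τ, p, h1, h2⟩ | ⟨z, h⟩
  · exact ⟨.inl (τ, p), by simp [val, h1, h2]⟩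
  · exact ⟨.inr (z, t), by simp [val, h]⟩

theorem val_inj_and [NeZero N] :
    Function.Injective S.val ∧ ∀ i, (S.val i).2 ≠ 0 := by
  classical
  let A : Finset (ZMod 2 × ZMod N) := Finset.univ ×ˢ (Finset.univ.erase (0 : ZMod N))
  have hA : A.card = 2 * (N - 1) := by
    simp only [A, Finset.card_product, Finset.card_erase_of_mem (Finset.mem_univ _)]
    simp [ZMod.card]
  have hsub : A ⊆ Finset.univ.image S.val := by
    rintro ⟨t, c⟩ h
    simp only [A, Finset.mem_product, Finset.mem_univ, true_and, Finset.mem_erase,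
      and_true] at h
    obtain ⟨i, hi⟩ := S.val_surj t c h
    exact Finset.mem_image.2 ⟨i, Finset.mem_univ _, hi⟩
  have hcardI : (Finset.univ : Finset ((S.T × Fin 3) ⊕ (Bool × ZMod 2))).card
      = 3 * Fintype.card S.T + 4 := by
    rw [Finset.card_univ, Fintype.card_sum, Fintype.card_prod, Fintype.card_prod]
    simp [ZMod.card]
    ring
  have h1 : A.card ≤ (Finset.univ.image S.val).card := Finset.card_le_card hsub
  have h2 : (Finset.univ.image S.val).card ≤
      (Finset.univ : Finset ((S.T × Fin 3) ⊕ (Bool × ZMod 2))).card := Finset.card_image_le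
  have h3 := S.card
  have heq : (Finset.univ.image S.val).card =
      (Finset.univ : Finset ((S.T × Fin 3) ⊕ (Bool × ZMod 2))).card := by
    apply le_antisymm h2
    rw [hcardI]
    rw [hA] at h1
    omega
  have himg : A = Finset.univ.image S.val := by
    apply Finset.eq_of_subset_of_card_le hsub
    rw [heq, hcardI, hA]
    exact h3
  constructor
  · have := Finset.card_image_iff.1 heq
    intro x y hxy
    exact this (Finset.mem_coe.2 (Finset.mem_univ _)) (Finset.mem_coe.2 (Finset.mem_univ _)) hxy
  · intro i
    have : S.val i ∈ A := by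
      rw [himg]
      exact Finset.mem_image_of_mem _ (Finset.mem_univ _)
    simp only [A, Finset.mem_product, Finset.mem_univ, true_and, Finset.mem_erase,
      and_true] at this
    exact this

theorem cc_ne [NeZero N] (τ : S.T) (p : Fin 3) : S.cc τ p ≠ 0 :=
  S.val_inj_and.2 (.inl (τ, p))

theorem vx_ne [NeZero N] (z : Bool) (t : ZMod 2) : S.vx z t ≠ 0 :=
  S.val_inj_and.2 (.inr (z, t))

open Classical in
/-- the next difference in the rotation -/
noncomputable def nx (t : ZMod 2) : ZMod N ⊕ Bool → ZMod N ⊕ Bool
  | .inl c => if h : ∃ i, S.val i = (t, c) then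
      (match h.choose with
        | .inl (τ, p) => .inl (-S.cc τ (p + 1))
        | .inr (z, _) => .inr z) else .inl 0
  | .inr z => .inl (-S.vx z (t + 1))

theorem nx_tri [NeZero N] (τ : S.T) (p : Fin 3) (t : ZMod 2) (c : ZMod N) (ht : S.tt τ p = t)
    (hc : S.cc τ p = c) : S.nx t (.inl c) = .inl (-S.cc τ (p + 1)) := by
  have h : ∃ i, S.val i = (t, c) := ⟨.inl (τ, p), by simp [val, ht, hc]⟩
  have h2 : h.choose = .inl (τ, p) := by
    apply S.val_inj_and.1
    rw [h.choose_spec]
    simp [val, ht, hc]
  simp only [nx, h, dite_true, h2]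

theorem nx_vx [NeZero N] (z : Bool) (t : ZMod 2) (c : ZMod N) (hc : S.vx z t = c) :
    S.nx t (.inl c) = .inr z := by
  have h : ∃ i, S.val i = (t, c) := ⟨.inr (z, t), by simp [val, hc]⟩
  have h2 : h.choose = .inr (z, t) := by
    apply S.val_inj_and.1
    rw [h.choose_spec]
    simp [val, hc]
  simp only [nx, h, dite_true, h2]

/-- translation of a difference by a vertex -/
def shift (v : ZMod N) : ZMod N ⊕ Bool → ZMod N ⊕ Bool
  | .inl c => .inl (v + c)
  | .inr z => .inr z

/-- the next-neighbour function on `K_{N+2} - K_2` -/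
noncomputable def nxt : ZMod N ⊕ Bool → ZMod N ⊕ Bool → ZMod N ⊕ Bool
  | .inl v, .inl u => shift v (S.nx (π v) (.inl (u - v)))
  | .inl v, .inr z => .inl (v - S.vx z (π v + 1))
  | .inr z, .inl u => .inl (u + S.vx z (π u))
  | .inr _, .inr _ => .inl 0

theorem nxt_tri [NeZero N] (τ : S.T) (p : Fin 3) (v u : ZMod N) (ht : S.tt τ p = π v)
    (hc : S.cc τ p = u - v) : S.nxt (.inl v) (.inl u) = .inl (v - S.cc τ (p + 1)) := by
  simp only [nxt, S.nx_tri τ p (π v) (u - v) ht hc, shift]
  rw [sub_eq_add_neg v]

theorem nxt_vx [NeZero N] (z : Bool) (v u : ZMod N) (hc : S.vx z (π v) = u - v) :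
    S.nxt (.inl v) (.inl u) = .inr z := by
  simp only [nxt, S.nx_vx z (π v) (u - v) hc, shift]

theorem zmod2_neg (x : ZMod 2) : -x = x := by
  revert x; decide

theorem zmod2_add_one (x : ZMod 2) : x + 1 + 1 = x := by
  revert x; decide

theorem sum_cyc (τ : S.T) (p : Fin 3) :
    S.cc τ p + S.cc τ (p + 1) + S.cc τ (p + 1 + 1) = 0 := by
  have h := S.sum_zero τ
  fin_cases p
  · simpa using h
  · show S.cc τ 1 + S.cc τ 2 + S.cc τ 0 = 0
    rw [← h]; ring
  · show S.cc τ 2 + S.cc τ 0 + S.cc τ 1 = 0
    rw [← h]; ring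

theorem triNext [NeZero N] (hπ : ∀ e : ZMod N, π e = 0 → ∃ k : ℕ, e = 2 * (k : ZMod N)) :
    TriNext (H N) S.nxt where
  adj := by
    rintro (u | z) (v | y) h
    · have hne : u - v ≠ 0 := sub_ne_zero.2 h
      obtain ⟨i, hi⟩ := S.val_surj (π v) (u - v) hne
      rcases i with ⟨τ, p⟩ | ⟨z, t⟩
      · simp only [val, Prod.mk.injEq] at hi
        rw [S.nxt_tri τ p v u hi.1 hi.2, H_inl_inl]
        intro h'
        apply S.cc_ne τ (p + 1)
        have : v - (v - S.cc τ (p + 1)) = 0 := by rw [← h']; ring
        simpa using this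
      · simp only [val, Prod.mk.injEq] at hi
        obtain ⟨rfl, hi⟩ := hi
        rw [S.nxt_vx z v u hi]
        exact H_inl_inr _ _
    · exact H_inr_inl _ _
    · show (H N).Adj (.inl v) (.inl (v - S.vx z (π v + 1)))
      rw [H_inl_inl]
      intro h'
      apply S.vx_ne z (π v + 1)
      have : v - (v - S.vx z (π v + 1)) = 0 := by rw [← h']; ring
      simpa using this
    · exact absurd h (H_inr_inr _ _)
  tri := by
    rintro (u | z) (v | y) h
    · have hne : u - v ≠ 0 := sub_ne_zero.2 h
      obtain ⟨i, hi⟩ := S.val_surj (π v) (u - v) hne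
      rcases i with ⟨τ, p⟩ | ⟨z, t⟩
      · simp only [val, Prod.mk.injEq] at hi
        rw [S.nxt_tri τ p v u hi.1 hi.2]
        have hπw : π (v - S.cc τ (p + 1)) = S.tt τ (p + 1) := by
          rw [map_sub, S.par τ p, hi.1, sub_eq_add_neg, zmod2_neg]
        rw [S.nxt_tri τ (p + 1) (v - S.cc τ (p + 1)) v hπw.symm (by ring)]
        congr 1
        have := S.sum_cyc τ p
        have h2 : S.cc τ p = u - v := hi.2
        rw [h2] at this
        linear_combination -this
      · simp only [val, Prod.mk.injEq] at hi
        obtain ⟨rfl, hi⟩ := hi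
        rw [S.nxt_vx z v u hi]
        show Sum.inl (v + S.vx z (π v)) = Sum.inl u
        rw [hi]
        congr 1
        ring
    · show S.nxt (.inl (u + S.vx y (π u))) (.inr y) = .inl u
      show Sum.inl (u + S.vx y (π u) - S.vx y (π (u + S.vx y (π u)) + 1)) = Sum.inl u
      rw [map_add, S.vx_odd, zmod2_add_one]
      congr 1
      ring
    · show S.nxt (.inl (v - S.vx z (π v + 1))) (.inl v) = .inr z
      apply S.nxt_vx
      have : π (v - S.vx z (π v + 1)) = π v + 1 := by
        rw [map_sub, S.vx_odd, sub_eq_add_neg, zmod2_neg]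
      rw [this]
      ring
    · exact absurd h (H_inr_inr _ _)
  conn := by
    rintro (v | z) f hf u u' hu hu' hfu
    · -- a finite vertex
      let F : ZMod N ⊕ Bool → Prop := fun w => f (shift v w)
      have hcc : ∀ τ p, S.tt τ p = π v → (F (.inl (S.cc τ p)) ↔ F (.inl (-S.cc τ (p + 1)))) := by
        intro τ p ht
        have hadj : (H N).Adj (.inl (v + S.cc τ p)) (.inl v) := by
          rw [H_inl_inl]
          intro h'
          exact S.cc_ne τ p (by simpa using h')
        have := hf _ hadj
        rw [S.nxt_tri τ p v (v + S.cc τ p) ht (by ring)] at this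
        show f (.inl (v + S.cc τ p)) ↔ f (.inl (v + -S.cc τ (p + 1)))
        rw [← sub_eq_add_neg]
        exact this.symm
      have hvx : ∀ z, F (.inl (S.vx z (π v))) ↔ F (.inr z) := by
        intro z
        have hadj : (H N).Adj (.inl (v + S.vx z (π v))) (.inl v) := by
          rw [H_inl_inl]
          intro h'
          exact S.vx_ne z (π v) (by simpa using h')
        have := hf _ hadj
        rw [S.nxt_vx z v (v + S.vx z (π v)) (by ring)] at this
        exact this.symm
      have hvx2 : ∀ z, F (.inr z) ↔ F (.inl (-S.vx z (π v + 1))) := by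
        intro z
        have := hf (.inr z) (H_inr_inl _ _)
        show f (.inr z) ↔ f (.inl (v + -S.vx z (π v + 1)))
        rw [← sub_eq_add_neg]
        exact this.symm
      obtain ⟨h1, h2⟩ := S.conn (π v) F hcc hvx hvx2
      have key : ∀ w, (H N).Adj w (.inl v) → (f w ↔ f (.inr false)) := by
        rintro (w | y) hw
        · have hne : w - v ≠ 0 := sub_ne_zero.2 hw
          rcases S.cover (π v) (w - v) hne with ⟨τ, p, h3, h4⟩ | ⟨y, h3⟩
          · have := h1 τ p h3
            rw [h4] at this
            show f (.inl w) ↔ _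
            have hw' : v + (w - v) = w := by ring
            rw [← hw']
            exact this
          · have := hvx y
            rw [h3] at this
            have hw' : v + (w - v) = w := by ring
            rw [← hw']
            refine this.trans ?_
            cases y
            · exact Iff.rfl
            · exact h2
        · cases y
          · exact Iff.rfl
          · exact h2
      exact (key u' hu').2 ((key u hu).1 hfu)
    · -- a vortex vertex
      rcases u with u | y
      swap
      · exact absurd hu (H_inr_inr _ _)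
      rcases u' with u' | y
      swap
      · exact absurd hu' (H_inr_inr _ _)
      have hstep : ∀ w : ZMod N, f (.inl (w + S.vx z (π w))) ↔ f (.inl w) :=
        fun w => hf (.inl w) (H_inl_inr _ _)
      have hstep2 : ∀ w : ZMod N, π w = 0 →
          (f (.inl (w + (S.vx z 0 + S.vx z 1))) ↔ f (.inl w)) := by
        intro w hw
        have h1 := hstep w
        have h2 := hstep (w + S.vx z (π w))
        rw [map_add, S.vx_odd, hw] at h2
        rw [hw] at h1
        have h3 : (0 : ZMod 2) + 1 = 1 := by decide
        rw [h3, add_assoc] at h2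
        exact h2.trans h1
      have hsum : S.vx z 0 + S.vx z 1 = 2 ∨ S.vx z 0 + S.vx z 1 = -2 := by
        cases z
        · left; exact S.vx0
        · right; exact S.vx1
      have hπ2 : ∀ k : ℕ, π (2 * (k : ZMod N)) = 0 := by
        intro k
        rw [map_mul]
        have : π (2 : ZMod N) = 0 := by
          rw [map_ofNat]; decide
        rw [this, zero_mul]
      have heven : ∀ k : ℕ, f (.inl (2 * (k : ZMod N))) ↔ f (.inl 0) := by
        intro k
        induction k with
        | zero => simp
        | succ k ih =>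
          rcases hsum with h | h
          · have := hstep2 (2 * (k : ZMod N)) (hπ2 k)
            rw [h] at this
            have e : 2 * (k : ZMod N) + 2 = 2 * ((k + 1 : ℕ) : ZMod N) := by push_cast; ring
            rw [e] at this
            exact this.trans ih
          · have := hstep2 (2 * ((k + 1 : ℕ) : ZMod N)) (hπ2 (k + 1))
            rw [h] at this
            have e : 2 * ((k + 1 : ℕ) : ZMod N) + -2 = 2 * (k : ZMod N) := by push_cast; ring
            rw [e] at this
            exact this.symm.trans ih
      have hall : ∀ w : ZMod N, f (.inl w) ↔ f (.inl 0) := by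
        intro w
        have h01 : ∀ x : ZMod 2, x = 0 ∨ x = 1 := by decide
        rcases h01 (π w) with h | h
        · obtain ⟨k, hk⟩ := hπ w h
          rw [hk]
          exact heven k
        · have h1 := hstep w
          have h2 : π (w + S.vx z (π w)) = 0 := by
            rw [map_add, S.vx_odd, h]; decide
          obtain ⟨k, hk⟩ := hπ _ h2
          rw [hk] at h1
          exact h1.symm.trans (heven k)
      exact (hall u').2 ((hall u).1 hfu)

end TripleSystem

end Run7.h222.Genus
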