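import Mathlib
import Pool.Agent.Run7.h222.Scheme

set_option autoImplicit false
set_option linter.all false

/-!
# The index 2 triple system for `K_26 - K_2`
-/

namespace Run7.h222.Genus

/-- the currents -/
def cc1 : Fin 14 → Fin 3 → ZMod 24 :=
  ![![1, 18, 5],
    ![2, 14, 8],
    ![3, 6, 15],
    ![4, 9, 11],
    ![5, 3, 16],
    ![7, 22, 19],
    ![9, 11, 4],
    ![10, 1, 13],
    ![12, 16, 20],
    ![15, 13, 20],
    ![17, 17, 14],
    ![21, 21, 6],
    ![2, 10, 12],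
    ![8, 22, 18]]

/-- the sides -/
def tt1 : Fin 14 → Fin 3 → ZMod 2 :=
  ![![0, 0, 1],
    ![0, 0, 0],
    ![0, 0, 1],
    ![0, 1, 0],
    ![0, 1, 1],
    ![0, 0, 1],
    ![0, 1, 1],
    ![0, 1, 0],
    ![0, 0, 0],
    ![0, 1, 1],
    ![0, 1, 1],
    ![0, 1, 1],
    ![1, 1, 1],
    ![1, 1, 1]]

/-- the vortices -/
def vx1 (z : Bool) (t : ZMod 2) : ZMod 24 :=
  if t = 0 then (if z = false then 19 else 23) else (if z = false then 7 else 23)

/-- parity -/
def pi1 : ZMod 24 →+* ZMod 2 := ZMod.castHom (by norm_num) (ZMod 2)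

theorem cover1 : ∀ (t : ZMod 2) (c : ZMod 24), c ≠ 0 →
    (∃ τ p, tt1 τ p = t ∧ cc1 τ p = c) ∨ ∃ z, vx1 z t = c := by
  decide +kernel

theorem conn1_0 (f : ZMod 24 ⊕ Bool → Prop)
    (hcc : ∀ τ p, tt1 τ p = 0 → (f (.inl (cc1 τ p)) ↔ f (.inl (-cc1 τ (p + 1)))))
    (hv : ∀ z, f (.inl (vx1 z 0)) ↔ f (.inr z))
    (hv2 : ∀ z, f (.inr z) ↔ f (.inl (-vx1 z 1))) :
    (∀ τ p, tt1 τ p = 0 → (f (.inl (cc1 τ p)) ↔ f (.inr false))) ∧
      (f (.inr true) ↔ f (.inr false)) := by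
  have e0 : f (.inl (1 : ZMod 24)) ↔ f (.inl (6 : ZMod 24)) := hcc 0 0 rfl
  have e1 : f (.inl (18 : ZMod 24)) ↔ f (.inl (19 : ZMod 24)) := hcc 0 1 rfl
  have e2 : f (.inl (2 : ZMod 24)) ↔ f (.inl (10 : ZMod 24)) := hcc 1 0 rfl
  have e3 : f (.inl (14 : ZMod 24)) ↔ f (.inl (16 : ZMod 24)) := hcc 1 1 rfl
  have e4 : f (.inl (8 : ZMod 24)) ↔ f (.inl (22 : ZMod 24)) := hcc 1 2 rfl
  have e5 : f (.inl (3 : ZMod 24)) ↔ f (.inl (18 : ZMod 24)) := hcc 2 0 rfl
  have e6 : f (.inl (6 : ZMod 24)) ↔ f (.inl (9 : ZMod 24)) := hcc 2 1 rfl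
  have e7 : f (.inl (4 : ZMod 24)) ↔ f (.inl (15 : ZMod 24)) := hcc 3 0 rfl
  have e8 : f (.inl (11 : ZMod 24)) ↔ f (.inl (20 : ZMod 24)) := hcc 3 2 rfl
  have e9 : f (.inl (5 : ZMod 24)) ↔ f (.inl (21 : ZMod 24)) := hcc 4 0 rfl
  have e10 : f (.inl (7 : ZMod 24)) ↔ f (.inl (2 : ZMod 24)) := hcc 5 0 rfl
  have e11 : f (.inl (22 : ZMod 24)) ↔ f (.inl (5 : ZMod 24)) := hcc 5 1 rfl
  have e12 : f (.inl (9 : ZMod 24)) ↔ f (.inl (13 : ZMod 24)) := hcc 6 0 rfl
  have e13 : f (.inl (10 : ZMod 24)) ↔ f (.inl (23 : ZMod 24)) := hcc 7 0 rfl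
  have e14 : f (.inl (13 : ZMod 24)) ↔ f (.inl (14 : ZMod 24)) := hcc 7 2 rfl
  have e15 : f (.inl (12 : ZMod 24)) ↔ f (.inl (8 : ZMod 24)) := hcc 8 0 rfl
  have e16 : f (.inl (16 : ZMod 24)) ↔ f (.inl (4 : ZMod 24)) := hcc 8 1 rfl
  have e17 : f (.inl (20 : ZMod 24)) ↔ f (.inl (12 : ZMod 24)) := hcc 8 2 rfl
  have e18 : f (.inl (15 : ZMod 24)) ↔ f (.inl (11 : ZMod 24)) := hcc 9 0 rfl
  have e19 : f (.inl (17 : ZMod 24)) ↔ f (.inl (7 : ZMod 24)) := hcc 10 0 rfl
  have e20 : f (.inl (21 : ZMod 24)) ↔ f (.inl (3 : ZMod 24)) := hcc 11 0 rfl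
  have e21 : f (.inl (19 : ZMod 24)) ↔ f (.inr false) := hv false
  have e22 : f (.inr false) ↔ f (.inl (17 : ZMod 24)) := hv2 false
  have e23 : f (.inl (23 : ZMod 24)) ↔ f (.inr true) := hv true
  have e24 : f (.inr true) ↔ f (.inl (1 : ZMod 24)) := hv2 true
  have n0 : f (.inl (19 : ZMod 24)) ↔ f (.inr false) := e21
  have n1 : f (.inl (17 : ZMod 24)) ↔ f (.inr false) := e22.symm
  have n2 : f (.inl (18 : ZMod 24)) ↔ f (.inr false) := (e1).trans n0
  have n3 : f (.inl (7 : ZMod 24)) ↔ f (.inr false) := (e19.symm).trans n1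
  have n4 : f (.inl (3 : ZMod 24)) ↔ f (.inr false) := (e5).trans n2
  have n5 : f (.inl (2 : ZMod 24)) ↔ f (.inr false) := (e10.symm).trans n3
  have n6 : f (.inl (21 : ZMod 24)) ↔ f (.inr false) := (e20).trans n4
  have n7 : f (.inl (10 : ZMod 24)) ↔ f (.inr false) := (e2.symm).trans n5
  have n8 : f (.inl (5 : ZMod 24)) ↔ f (.inr false) := (e9).trans n6
  have n9 : f (.inl (23 : ZMod 24)) ↔ f (.inr false) := (e13.symm).trans n7
  have n10 : f (.inl (22 : ZMod 24)) ↔ f (.inr false) := (e11).trans n8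
  have n11 : f (.inr true) ↔ f (.inr false) := (e23.symm).trans n9
  have n12 : f (.inl (8 : ZMod 24)) ↔ f (.inr false) := (e4).trans n10
  have n13 : f (.inl (1 : ZMod 24)) ↔ f (.inr false) := (e24.symm).trans n11
  have n14 : f (.inl (12 : ZMod 24)) ↔ f (.inr false) := (e15).trans n12
  have n15 : f (.inl (6 : ZMod 24)) ↔ f (.inr false) := (e0.symm).trans n13
  have n16 : f (.inl (20 : ZMod 24)) ↔ f (.inr false) := (e17).trans n14
  have n17 : f (.inl (9 : ZMod 24)) ↔ f (.inr false) := (e6.symm).trans n15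
  have n18 : f (.inl (11 : ZMod 24)) ↔ f (.inr false) := (e8).trans n16
  have n19 : f (.inl (13 : ZMod 24)) ↔ f (.inr false) := (e12.symm).trans n17
  have n20 : f (.inl (15 : ZMod 24)) ↔ f (.inr false) := (e18).trans n18
  have n21 : f (.inl (14 : ZMod 24)) ↔ f (.inr false) := (e14.symm).trans n19
  have n22 : f (.inl (4 : ZMod 24)) ↔ f (.inr false) := (e7).trans n20
  have n23 : f (.inl (16 : ZMod 24)) ↔ f (.inr false) := (e3.symm).trans n21
  refine ⟨?_, n11⟩
  intro j p h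
  fin_cases j <;> fin_cases p
  · exact n13
  · exact n2
  · exact absurd (show (1 : ZMod 2) = 0 from h) (by decide)
  · exact n5
  · exact n21
  · exact n12
  · exact n4
  · exact n15
  · exact absurd (show (1 : ZMod 2) = 0 from h) (by decide)
  · exact n22
  · exact absurd (show (1 : ZMod 2) = 0 from h) (by decide)
  · exact n18
  · exact n8
  · exact absurd (show (1 : ZMod 2) = 0 from h) (by decide)
  · exact absurd (show (1 : ZMod 2) = 0 from h) (by decide)
  · exact n3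
  · exact n10
  · exact absurd (show (1 : ZMod 2) = 0 from h) (by decide)
  · exact n17
  · exact absurd (show (1 : ZMod 2) = 0 from h) (by decide)
  · exact absurd (show (1 : ZMod 2) = 0 from h) (by decide)
  · exact n7
  · exact absurd (show (1 : ZMod 2) = 0 from h) (by decide)
  · exact n19
  · exact n14
  · exact n23
  · exact n16
  · exact n20
  · exact absurd (show (1 : ZMod 2) = 0 from h) (by decide)
  · exact absurd (show (1 : ZMod 2) = 0 from h) (by decide)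
  · exact n1
  · exact absurd (show (1 : ZMod 2) = 0 from h) (by decide)
  · exact absurd (show (1 : ZMod 2) = 0 from h) (by decide)
  · exact n6
  · exact absurd (show (1 : ZMod 2) = 0 from h) (by decide)
  · exact absurd (show (1 : ZMod 2) = 0 from h) (by decide)
  · exact absurd (show (1 : ZMod 2) = 0 from h) (by decide)
  · exact absurd (show (1 : ZMod 2) = 0 from h) (by decide)
  · exact absurd (show (1 : ZMod 2) = 0 from h) (by decide)
  · exact absurd (show (1 : ZMod 2) = 0 from h) (by decide)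
  · exact absurd (show (1 : ZMod 2) = 0 from h) (by decide)
  · exact absurd (show (1 : ZMod 2) = 0 from h) (by decide)

theorem conn1_1 (f : ZMod 24 ⊕ Bool → Prop)
    (hcc : ∀ τ p, tt1 τ p = 1 → (f (.inl (cc1 τ p)) ↔ f (.inl (-cc1 τ (p + 1)))))
    (hv : ∀ z, f (.inl (vx1 z 1)) ↔ f (.inr z))
    (hv2 : ∀ z, f (.inr z) ↔ f (.inl (-vx1 z 0))) :
    (∀ τ p, tt1 τ p = 1 → (f (.inl (cc1 τ p)) ↔ f (.inr false))) ∧
      (f (.inr true) ↔ f (.inr false)) := by
  have e0 : f (.inl (5 : ZMod 24)) ↔ f (.inl (23 : ZMod 24)) := hcc 0 2 rfl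
  have e1 : f (.inl (15 : ZMod 24)) ↔ f (.inl (21 : ZMod 24)) := hcc 2 2 rfl
  have e2 : f (.inl (9 : ZMod 24)) ↔ f (.inl (13 : ZMod 24)) := hcc 3 1 rfl
  have e3 : f (.inl (3 : ZMod 24)) ↔ f (.inl (8 : ZMod 24)) := hcc 4 1 rfl
  have e4 : f (.inl (16 : ZMod 24)) ↔ f (.inl (19 : ZMod 24)) := hcc 4 2 rfl
  have e5 : f (.inl (19 : ZMod 24)) ↔ f (.inl (17 : ZMod 24)) := hcc 5 2 rfl
  have e6 : f (.inl (11 : ZMod 24)) ↔ f (.inl (20 : ZMod 24)) := hcc 6 1 rfl
  have e7 : f (.inl (4 : ZMod 24)) ↔ f (.inl (15 : ZMod 24)) := hcc 6 2 rfl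
  have e8 : f (.inl (1 : ZMod 24)) ↔ f (.inl (11 : ZMod 24)) := hcc 7 1 rfl
  have e9 : f (.inl (13 : ZMod 24)) ↔ f (.inl (4 : ZMod 24)) := hcc 9 1 rfl
  have e10 : f (.inl (20 : ZMod 24)) ↔ f (.inl (9 : ZMod 24)) := hcc 9 2 rfl
  have e11 : f (.inl (17 : ZMod 24)) ↔ f (.inl (10 : ZMod 24)) := hcc 10 1 rfl
  have e12 : f (.inl (14 : ZMod 24)) ↔ f (.inl (7 : ZMod 24)) := hcc 10 2 rfl
  have e13 : f (.inl (21 : ZMod 24)) ↔ f (.inl (18 : ZMod 24)) := hcc 11 1 rfl
  have e14 : f (.inl (6 : ZMod 24)) ↔ f (.inl (3 : ZMod 24)) := hcc 11 2 rfl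
  have e15 : f (.inl (2 : ZMod 24)) ↔ f (.inl (14 : ZMod 24)) := hcc 12 0 rfl
  have e16 : f (.inl (10 : ZMod 24)) ↔ f (.inl (12 : ZMod 24)) := hcc 12 1 rfl
  have e17 : f (.inl (12 : ZMod 24)) ↔ f (.inl (22 : ZMod 24)) := hcc 12 2 rfl
  have e18 : f (.inl (8 : ZMod 24)) ↔ f (.inl (2 : ZMod 24)) := hcc 13 0 rfl
  have e19 : f (.inl (22 : ZMod 24)) ↔ f (.inl (6 : ZMod 24)) := hcc 13 1 rfl
  have e20 : f (.inl (18 : ZMod 24)) ↔ f (.inl (16 : ZMod 24)) := hcc 13 2 rfl
  have e21 : f (.inl (7 : ZMod 24)) ↔ f (.inr false) := hv false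
  have e22 : f (.inr false) ↔ f (.inl (5 : ZMod 24)) := hv2 false
  have e23 : f (.inl (23 : ZMod 24)) ↔ f (.inr true) := hv true
  have e24 : f (.inr true) ↔ f (.inl (1 : ZMod 24)) := hv2 true
  have n0 : f (.inl (7 : ZMod 24)) ↔ f (.inr false) := e21
  have n1 : f (.inl (5 : ZMod 24)) ↔ f (.inr false) := e22.symm
  have n2 : f (.inl (14 : ZMod 24)) ↔ f (.inr false) := (e12).trans n0
  have n3 : f (.inl (23 : ZMod 24)) ↔ f (.inr false) := (e0.symm).trans n1
  have n4 : f (.inl (2 : ZMod 24)) ↔ f (.inr false) := (e15).trans n2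
  have n5 : f (.inr true) ↔ f (.inr false) := (e23.symm).trans n3
  have n6 : f (.inl (8 : ZMod 24)) ↔ f (.inr false) := (e18).trans n4
  have n7 : f (.inl (1 : ZMod 24)) ↔ f (.inr false) := (e24.symm).trans n5
  have n8 : f (.inl (3 : ZMod 24)) ↔ f (.inr false) := (e3).trans n6
  have n9 : f (.inl (11 : ZMod 24)) ↔ f (.inr false) := (e8.symm).trans n7
  have n10 : f (.inl (6 : ZMod 24)) ↔ f (.inr false) := (e14).trans n8
  have n11 : f (.inl (20 : ZMod 24)) ↔ f (.inr false) := (e6.symm).trans n9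
  have n12 : f (.inl (22 : ZMod 24)) ↔ f (.inr false) := (e19).trans n10
  have n13 : f (.inl (9 : ZMod 24)) ↔ f (.inr false) := (e10.symm).trans n11
  have n14 : f (.inl (12 : ZMod 24)) ↔ f (.inr false) := (e17).trans n12
  have n15 : f (.inl (13 : ZMod 24)) ↔ f (.inr false) := (e2.symm).trans n13
  have n16 : f (.inl (10 : ZMod 24)) ↔ f (.inr false) := (e16).trans n14
  have n17 : f (.inl (4 : ZMod 24)) ↔ f (.inr false) := (e9.symm).trans n15
  have n18 : f (.inl (17 : ZMod 24)) ↔ f (.inr false) := (e11).trans n16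
  have n19 : f (.inl (15 : ZMod 24)) ↔ f (.inr false) := (e7.symm).trans n17
  have n20 : f (.inl (19 : ZMod 24)) ↔ f (.inr false) := (e5).trans n18
  have n21 : f (.inl (21 : ZMod 24)) ↔ f (.inr false) := (e1.symm).trans n19
  have n22 : f (.inl (16 : ZMod 24)) ↔ f (.inr false) := (e4).trans n20
  have n23 : f (.inl (18 : ZMod 24)) ↔ f (.inr false) := (e13.symm).trans n21
  refine ⟨?_, n5⟩
  intro j p h
  fin_cases j <;> fin_cases p
  · exact absurd (show (0 : ZMod 2) = 1 from h) (by decide)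
  · exact absurd (show (0 : ZMod 2) = 1 from h) (by decide)
  · exact n1
  · exact absurd (show (0 : ZMod 2) = 1 from h) (by decide)
  · exact absurd (show (0 : ZMod 2) = 1 from h) (by decide)
  · exact absurd (show (0 : ZMod 2) = 1 from h) (by decide)
  · exact absurd (show (0 : ZMod 2) = 1 from h) (by decide)
  · exact absurd (show (0 : ZMod 2) = 1 from h) (by decide)
  · exact n19
  · exact absurd (show (0 : ZMod 2) = 1 from h) (by decide)
  · exact n13
  · exact absurd (show (0 : ZMod 2) = 1 from h) (by decide)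
  · exact absurd (show (0 : ZMod 2) = 1 from h) (by decide)
  · exact n8
  · exact n22
  · exact absurd (show (0 : ZMod 2) = 1 from h) (by decide)
  · exact absurd (show (0 : ZMod 2) = 1 from h) (by decide)
  · exact n20
  · exact absurd (show (0 : ZMod 2) = 1 from h) (by decide)
  · exact n9
  · exact n17
  · exact absurd (show (0 : ZMod 2) = 1 from h) (by decide)
  · exact n7
  · exact absurd (show (0 : ZMod 2) = 1 from h) (by decide)
  · exact absurd (show (0 : ZMod 2) = 1 from h) (by decide)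
  · exact absurd (show (0 : ZMod 2) = 1 from h) (by decide)
  · exact absurd (show (0 : ZMod 2) = 1 from h) (by decide)
  · exact absurd (show (0 : ZMod 2) = 1 from h) (by decide)
  · exact n15
  · exact n11
  · exact absurd (show (0 : ZMod 2) = 1 from h) (by decide)
  · exact n18
  · exact n2
  · exact absurd (show (0 : ZMod 2) = 1 from h) (by decide)
  · exact n21
  · exact n10
  · exact n4
  · exact n16
  · exact n14
  · exact n6
  · exact n12
  · exact n23

/-- the triple system for `K_26 - K_2` -/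
def sys1 : TripleSystem 24 pi1 where
  T := Fin 14
  fin := inferInstance
  tt := tt1
  cc := cc1
  vx := vx1
  sum_zero := by decide +kernel
  par := by decide +kernel
  vx_odd := by decide +kernel
  card := by simp
  cover := cover1
  vx0 := by decide +kernel
  vx1 := by decide +kernel
  conn := by
    have h01 : ∀ x : ZMod 2, x = 0 ∨ x = 1 := by decide
    intro t f hcc hv hv2
    rcases h01 t with rfl | rfl
    · exact conn1_0 f hcc hv hv2
    · exact conn1_1 f hcc hv hv2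

end Run7.h222.Genus
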