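import Mathlib
import Pool.Agent.Run7.h222.Scheme
import Pool.Agent.Run7.h222.FamilyData
import Pool.Agent.Run7.h222.FamilyOne

set_option autoImplicit false

/-!
# The genus of `K_{24s+2} - K_2`
-/

namespace Run7.h222.Genus

open SimpleGraph

/-- parity of residues modulo `24 s` -/
def piS (s : ℕ) : ZMod (24 * s) →+* ZMod 2 :=
  ZMod.castHom (Dvd.dvd.mul_right (by norm_num) s) (ZMod 2)

theorem zmod2_cases (x : ZMod 2) : x = 0 ∨ x = 1 := by
  revert x; decide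

/-- index type of all triples -/
abbrev TS (r : ℕ) := LT (r + 1) ⊕ (LT (r + 2) ⊕ Fin 14)

/-- integer currents -/
def ccZ (r : ℕ) : TS r → Fin 3 → ℤ
  | .inl τ => (PL ((r + 2 : ℕ) : ℤ)).cc (r + 1) τ
  | .inr (.inl τ) => (QL ((r + 2 : ℕ) : ℤ)).cc (r + 2) τ
  | .inr (.inr j) => irr ((r + 2 : ℕ) : ℤ) j

/-- sides -/
def ttZ (r : ℕ) : TS r → Fin 3 → ZMod 2
  | .inl τ => ladTT (r + 1) τ
  | .inr (.inl τ) => ladTT (r + 2) τ
  | .inr (.inr j) => irt j

theorem cast_mul_eq (r : ℕ) (m : ℤ) :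
    ((24 * ((r + 2 : ℕ) : ℤ) * m : ℤ) : ZMod (24 * (r + 2))) = 0 := by
  have : ((24 * (r + 2) : ℕ) : ZMod (24 * (r + 2))) = 0 := ZMod.natCast_self _
  have h2 : ((24 * ((r + 2 : ℕ) : ℤ) : ℤ) : ZMod (24 * (r + 2))) = 0 := by
    rw [← this]; push_cast; ring
  rw [Int.cast_mul, h2, zero_mul]

theorem ttZ_par (r : ℕ) (τ : TS r) (p : Fin 3) :
    ttZ r τ (p + 1) = ttZ r τ p + ((ccZ r τ (p + 1) : ℤ) : ZMod 2) := by
  rcases τ with τ | τ | j
  · exact Lad.par _ _ τ p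
  · exact Lad.par _ _ τ p
  · exact irr_par _ j p

theorem ccZ_sum (r : ℕ) (τ : TS r) :
    ∃ m : ℤ, ccZ r τ 0 + ccZ r τ 1 + ccZ r τ 2 = 24 * ((r + 2 : ℕ) : ℤ) * m := by
  rcases τ with τ | τ | j
  · exact ⟨0, by rw [mul_zero]; exact Lad.sum_zero _ _ τ⟩
  · exact ⟨0, by rw [mul_zero]; exact Lad.sum_zero _ _ τ⟩
  · exact irr_sum _ j

theorem cov_cast (r : ℕ) (t : ZMod 2) (c : ZMod (24 * (r + 2))) (hc : c ≠ 0) :
    (∃ (τ : TS r) (p : Fin 3), ttZ r τ p = t ∧ ((ccZ r τ p : ℤ) : ZMod (24 * (r + 2))) = c) ∨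
      ∃ z, ((vxi ((r + 2 : ℕ) : ℤ) z t : ℤ) : ZMod (24 * (r + 2))) = c := by
  have hcv : ((c.val : ℤ) : ZMod (24 * (r + 2))) = c := by
    rw [Int.cast_natCast, ZMod.natCast_zmod_val]
  have hlt : c.val < 24 * (r + 2) := ZMod.val_lt c
  have hpos : 0 < c.val := by
    rcases Nat.eq_zero_or_pos c.val with h | h
    · exact absurd ((ZMod.val_eq_zero c).1 h) hc
    · exact h
  have key : ∀ x m : ℤ, x = (c.val : ℤ) + 24 * ((r + 2 : ℕ) : ℤ) * m →
      ((x : ℤ) : ZMod (24 * (r + 2))) = c := by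
    intro x m hx
    rw [hx, Int.cast_add, cast_mul_eq, add_zero, hcv]
  have := cov_all r ((r + 2 : ℕ) : ℤ) (by push_cast; ring) t (c.val : ℤ) (by omega)
    (by push_cast; omega)
  rcases this with ⟨τ, p, m, h1, h2⟩ | ⟨τ, p, m, h1, h2⟩ | ⟨j, p, m, h1, h2⟩ | ⟨z, m, h⟩
  · exact Or.inl ⟨.inl τ, p, h1, key _ m h2⟩
  · exact Or.inl ⟨.inr (.inl τ), p, h1, key _ m h2⟩
  · exact Or.inl ⟨.inr (.inr j), p, h1, key _ m h2⟩
  · exact Or.inr ⟨z, key _ m h⟩

theorem conn_cast (r : ℕ) (t : ZMod 2) (f : ZMod (24 * (r + 2)) ⊕ Bool → Prop)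
    (hcc : ∀ (τ : TS r) p, ttZ r τ p = t → (f (.inl ((ccZ r τ p : ℤ) : ZMod (24 * (r + 2)))) ↔
      f (.inl (-((ccZ r τ (p + 1) : ℤ) : ZMod (24 * (r + 2)))))))
    (hv : ∀ z, f (.inl ((vxi ((r + 2 : ℕ) : ℤ) z t : ℤ) : ZMod (24 * (r + 2)))) ↔ f (.inr z))
    (hv2 : ∀ z, f (.inr z) ↔
      f (.inl (-((vxi ((r + 2 : ℕ) : ℤ) z (t + 1) : ℤ) : ZMod (24 * (r + 2)))))) :
    (∀ (τ : TS r) p, ttZ r τ p = t → (f (.inl ((ccZ r τ p : ℤ) : ZMod (24 * (r + 2)))) ↔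
      f (.inr false))) ∧ (f (.inr true) ↔ f (.inr false)) := by
  let F : ℤ → Prop := fun x => f (.inl ((x : ℤ) : ZMod (24 * (r + 2))))
  let G : Bool → Prop := fun z => f (.inr z)
  have hper : ∀ x m : ℤ, F (x + 24 * ((r + 2 : ℕ) : ℤ) * m) = F x := by
    intro x m
    show f (.inl _) = f (.inl _)
    rw [Int.cast_add, cast_mul_eq, add_zero]
  have hcc' : ∀ (τ : TS r) p, ttZ r τ p = t → F (ccZ r τ p) = F (-(ccZ r τ (p + 1))) := by
    intro τ p h
    show f (.inl _) = f (.inl _)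
    rw [Int.cast_neg]
    exact propext (hcc τ p h)
  have hv' : ∀ z, F (vxi ((r + 2 : ℕ) : ℤ) z t) = G z := fun z => propext (hv z)
  have hv2' : ∀ z, G z = F (-(vxi ((r + 2 : ℕ) : ℤ) z (t + 1))) := by
    intro z
    show f (.inr z) = f (.inl _)
    rw [Int.cast_neg]
    exact propext (hv2 z)
  have hS : ((r + 2 : ℕ) : ℤ) = (r : ℤ) + 2 := by push_cast; ring
  rcases zmod2_cases t with rfl | rfl
  · obtain ⟨h1, h2, h3, h4⟩ := chain_0 F G r ((r + 2 : ℕ) : ℤ) hS hper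
      (fun j p h => hcc' (.inr (.inr j)) p h) hv' hv2'
      (fun τ p h => hcc' (.inl τ) p h) (fun τ p h => hcc' (.inr (.inl τ)) p h)
    refine ⟨?_, iff_of_eq h4⟩
    rintro (τ | τ | j) p h
    · exact iff_of_eq (h2 τ p h)
    · exact iff_of_eq (h3 τ p h)
    · exact iff_of_eq (h1 j p h)
  · obtain ⟨h1, h2, h3, h4⟩ := chain_1 F G r ((r + 2 : ℕ) : ℤ) hS hper
      (fun j p h => hcc' (.inr (.inr j)) p h) hv' hv2'
      (fun τ p h => hcc' (.inl τ) p h) (fun τ p h => hcc' (.inr (.inl τ)) p h)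
    refine ⟨?_, iff_of_eq h4⟩
    rintro (τ | τ | j) p h
    · exact iff_of_eq (h2 τ p h)
    · exact iff_of_eq (h3 τ p h)
    · exact iff_of_eq (h1 j p h)

/-- the triple system for `K_{24s+2} - K_2`, `s = r + 2 ≥ 2` -/
def sysS (r : ℕ) : TripleSystem (24 * (r + 2)) (piS (r + 2)) where
  T := TS r
  fin := inferInstance
  tt := ttZ r
  cc := fun τ p => ((ccZ r τ p : ℤ) : ZMod (24 * (r + 2)))
  vx := fun z t => ((vxi ((r + 2 : ℕ) : ℤ) z t : ℤ) : ZMod (24 * (r + 2)))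
  sum_zero := by
    intro τ
    obtain ⟨m, hm⟩ := ccZ_sum r τ
    rw [← Int.cast_add, ← Int.cast_add, hm, cast_mul_eq]
  par := by
    intro τ p
    rw [map_intCast]
    exact ttZ_par r τ p
  vx_odd := by
    intro z t
    rw [map_intCast]
    exact vxi_odd _ z t
  card := by
    simp only [Fintype.card_sum, Fintype.card_prod, Fintype.card_fin]
    omega
  cover := fun t c hc => cov_cast r t c hc
  vx0 := by
    rw [← Int.cast_add, vxi_0_0, vxi_0_1]
    have : (18 * ((r + 2 : ℕ) : ℤ) + 3 + (6 * ((r + 2 : ℕ) : ℤ) - 1) : ℤ)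
      = 24 * ((r + 2 : ℕ) : ℤ) * 1 + 2 := by ring
    rw [this, Int.cast_add, cast_mul_eq, zero_add]
    norm_num
  vx1 := by
    rw [← Int.cast_add, vxi_1_0, vxi_1_1]
    have : (10 * ((r + 2 : ℕ) : ℤ) + 1 + (14 * ((r + 2 : ℕ) : ℤ) - 3) : ℤ)
      = 24 * ((r + 2 : ℕ) : ℤ) * 1 + -2 := by ring
    rw [this, Int.cast_add, cast_mul_eq, zero_add]
    norm_num
  conn := fun t f hcc hv hv2 => conn_cast r t f hcc hv hv2

theorem even_of_pi (M : ℕ) [NeZero M] (h2 : 2 ∣ M) (e : ZMod M)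
    (h : ZMod.castHom h2 (ZMod 2) e = 0) : ∃ k : ℕ, e = 2 * (k : ZMod M) := by
  have he : ((e.val : ℕ) : ZMod M) = e := ZMod.natCast_zmod_val e
  rw [← he, map_natCast, ZMod.natCast_eq_zero_iff] at h
  obtain ⟨k, hk⟩ := h
  refine ⟨k, ?_⟩
  rw [← he, hk]
  push_cast
  ring

theorem exists_triNext (s : ℕ) (hs : 1 ≤ s) : ∃ nxt, TriNext (H (24 * s)) nxt := by
  rcases Nat.lt_or_ge s 2 with h | h
  · obtain rfl : s = 1 := by omega
    exact ⟨_, sys1.triNext (even_of_pi 24 _)⟩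
  · obtain ⟨r, rfl⟩ : ∃ r, s = r + 2 := ⟨s - 2, by omega⟩
    have : NeZero (24 * (r + 2)) := ⟨by omega⟩
    exact ⟨_, (sysS r).triNext (even_of_pi _ _)⟩

/-- `K_n` minus one edge is isomorphic to the standard model. -/
theorem exists_iso (s : ℕ) (hs : 1 ≤ s) (a b : Fin (24 * s + 2)) (hab : a ≠ b) :
    Nonempty (H (24 * s) ≃g (⊤ : SimpleGraph (Fin (24 * s + 2))).deleteEdges {s(a, b)}) := by
  classical
  have : NeZero (24 * s) := ⟨by omega⟩
  -- an equivalence mapping the two extra vertices to `a` and `b`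
  have hcard : Fintype.card (ZMod (24 * s) ⊕ Bool) = Fintype.card (Fin (24 * s + 2)) := by
    simp [ZMod.card]
  let e0 : (ZMod (24 * s) ⊕ Bool) ≃ Fin (24 * s + 2) := Fintype.equivOfCardEq hcard
  let e1 : (ZMod (24 * s) ⊕ Bool) ≃ Fin (24 * s + 2) :=
    e0.trans (Equiv.swap (e0 (.inr false)) a)
  have h1 : e1 (.inr false) = a := by simp [e1]
  let e2 : (ZMod (24 * s) ⊕ Bool) ≃ Fin (24 * s + 2) :=
    e1.trans (Equiv.swap (e1 (.inr true)) b)
  have h2 : e2 (.inr true) = b := by simp [e2]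
  have h3 : e2 (.inr false) = a := by
    show Equiv.swap (e1 (.inr true)) b (e1 (.inr false)) = a
    rw [h1]
    apply Equiv.swap_apply_of_ne_of_ne
    · rw [← h1]
      intro h
      have := e1.injective h
      simp at this
    · exact hab
  refine ⟨⟨e2, ?_⟩⟩
  intro u v
  rw [SimpleGraph.deleteEdges_adj, SimpleGraph.top_adj]
  have hinj : ∀ x y, e2 x = e2 y ↔ x = y := fun x y => e2.injective.eq_iff
  have key : s(e2 u, e2 v) ∈ ({s(a, b)} : Set (Sym2 (Fin (24 * s + 2)))) ↔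
      (u = .inr false ∧ v = .inr true) ∨ (u = .inr true ∧ v = .inr false) := by
    rw [Set.mem_singleton_iff, Sym2.eq_iff, ← h3, ← h2]
    simp only [hinj]
  rw [key, Ne, hinj]
  rcases u with u | z <;> rcases v with v | y
  · rw [H_inl_inl]
    simp
  · simp [H_inl_inr]
  · simp [H_inr_inl]
  · cases z <;> cases y <;> simp [H_inr_inr]

theorem card_edgeSet (n : ℕ) (a b : Fin n) (hab : a ≠ b) :
    Nat.card ((⊤ : SimpleGraph (Fin n)).deleteEdges {s(a, b)}).edgeSet + 1 = n.choose 2 := by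
  classical
  rw [SimpleGraph.edgeSet_deleteEdges, Nat.card_eq_fintype_card]
  have hmem : s(a, b) ∈ (⊤ : SimpleGraph (Fin n)).edgeSet := by simpa using hab
  have htop : ((⊤ : SimpleGraph (Fin n)).edgeFinset).card = n.choose 2 := by
    rw [SimpleGraph.card_edgeFinset_top_eq_card_choose_two, Fintype.card_fin]
  have h1 : Fintype.card ↥((⊤ : SimpleGraph (Fin n)).edgeSet \ {s(a, b)}) =
      (((⊤ : SimpleGraph (Fin n)).edgeFinset).erase s(a, b)).card := by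
    rw [← Set.toFinset_card]
    congr 1
    ext x
    simp [and_comm]
  rw [h1, Finset.card_erase_of_mem (by simpa using hab), htop]
  have : 0 < n.choose 2 := by
    rw [← htop]
    exact Finset.card_pos.2 ⟨s(a, b), by simpa using hab⟩
  omega

theorem card_dart (n : ℕ) (G : SimpleGraph (Fin n)) :
    Nat.card G.Dart = 2 * Nat.card G.edgeSet := by
  classical
  rw [Nat.card_eq_fintype_card, Nat.card_eq_fintype_card, SimpleGraph.dart_card_eq_twice_card_edges,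
    ← SimpleGraph.edgeFinset_card]

end Run7.h222.Genus
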