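import Mathlib

/-!
Hemispheres: a finite family of vectors is Good if some open half-space (through the origin)
contains all of them.  Fixed-point version of Helly / Kirchberger, and compression by the point of
smallest norm of the convex hull.
-/

open Finset
open scoped RealInnerProductSpace

namespace Run7.h222.Hemi

variable {F : Type*} [NormedAddCommGroup F] [InnerProductSpace ℝ F]
variable {ι : Type*}

/-- all vectors `z i`, `i ∈ I`, lie in a common open half-space through the origin -/
def Good (z : ι → F) (I : Finset ι) : Prop := ∃ w : F, ∀ i ∈ I, 0 < ⟪w, z i⟫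

lemma Good.mono {z : ι → F} {I J : Finset ι} (h : Good z I) (hJ : J ⊆ I) : Good z J := by
  obtain ⟨w, hw⟩ := h
  exact ⟨w, fun i hi => hw i (hJ hi)⟩

/-- Helly with a fixed member: if for every `T ⊆ R` with at most `finrank F` members the family
`insert x T` is good, then `insert x R` is good. -/
theorem good_insert_of_forall [FiniteDimensional ℝ F] [DecidableEq ι] (z : ι → F) (x : ι) (R : Finset ι)
    (D : ℕ) (hD : Module.finrank ℝ F = D) (hD1 : 1 ≤ D)
    (h : ∀ T ⊆ R, #T ≤ D → Good z (insert x T)) : Good z (insert x R) := by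
  obtain ⟨n, rfl⟩ : ∃ n, D = n + 1 := ⟨D - 1, by omega⟩
  have hx : z x ≠ 0 := by
    obtain ⟨w, hw⟩ := h ∅ (by simp) (by simp)
    have := hw x (by simp)
    intro h0
    rw [h0, inner_zero_right] at this
    exact lt_irrefl _ this
  have : Fact (Module.finrank ℝ F = n + 1) := ⟨hD⟩
  set V : Submodule ℝ F := (ℝ ∙ (z x))ᗮ with hV
  have hfr : Module.finrank ℝ V = n := Submodule.finrank_orthogonal_span_singleton hx
  set w0 : F := (‖z x‖ ^ 2)⁻¹ • z x with hw0
  have hnz : ‖z x‖ ^ 2 ≠ 0 := by
    have := norm_ne_zero_iff.mpr hx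
    positivity
  have hw0x : ⟪w0, z x⟫ = 1 := by
    rw [hw0, real_inner_smul_left, real_inner_self_eq_norm_sq]
    exact inv_mul_cancel₀ hnz
  -- convex sets
  let K : ι → Set V := fun i => {u : V | 0 < ⟪w0 + (u : F), z i⟫}
  have hK : ∀ i ∈ R, Convex ℝ (K i) := by
    intro i _ u hu v hv a b ha hb hab
    simp only [K, Set.mem_ofPred_eq] at hu hv ⊢
    have : w0 + ((a • u + b • v : V) : F) = a • (w0 + (u : F)) + b • (w0 + (v : F)) := by
      have : w0 = a • w0 + b • w0 := by rw [← add_smul, hab, one_smul]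
      push_cast
      nth_rewrite 1 [this]
      simp only [smul_add]
      abel
    rw [this, inner_add_left, real_inner_smul_left, real_inner_smul_left]
    rcases ha.lt_or_eq with ha' | ha'
    · have := mul_pos ha' hu
      have := mul_nonneg hb hv.le
      linarith
    · have hb1 : b = 1 := by linarith
      subst hb1
      rw [← ha']
      simpa using hv
  have hne : (⋂ i ∈ R, K i).Nonempty := by
    apply Convex.helly_theorem' hK
    intro I hI hcard
    rw [hfr] at hcard
    obtain ⟨w, hw⟩ := h I hI hcard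
    have hwx := hw x (by simp)
    refine ⟨⟨(⟪w, z x⟫)⁻¹ • w - w0, ?_⟩, ?_⟩
    · rw [hV, Submodule.mem_orthogonal_singleton_iff_inner_left, inner_sub_left, real_inner_smul_left,
        hw0x, inv_mul_cancel₀ hwx.ne', sub_self]
    · simp only [Set.mem_iInter, K, Set.mem_ofPred_eq]
      intro i hi
      have h1 := hw i (by simp [hi])
      rw [add_sub_cancel, real_inner_smul_left]
      positivity
  obtain ⟨u, hu⟩ := hne
  refine ⟨w0 + (u : F), ?_⟩
  intro i hi
  rw [Finset.mem_insert] at hi
  rcases hi with rfl | hi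
  · rw [inner_add_left, hw0x]
    have : ⟪(u : F), z i⟫ = 0 :=
      (Submodule.mem_orthogonal_singleton_iff_inner_left).mp u.2
    rw [this]
    norm_num
  · simp only [Set.mem_iInter, K, Set.mem_ofPred_eq] at hu
    exact hu i hi

/-- `v` is the point of smallest norm of `K`, in variational form -/
def IsMinPt (K : Set F) (v : F) : Prop := v ∈ K ∧ ∀ w ∈ K, ⟪v, v⟫ ≤ ⟪v, w⟫

lemma IsMinPt.unique {K : Set F} {v v' : F} (h : IsMinPt K v) (h' : IsMinPt K v') : v = v' := by
  have h1 := h.2 v' h'.1
  have h2 := h'.2 v h.1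
  have h3 : ⟪v - v', v - v'⟫ ≤ 0 := by
    rw [inner_sub_left, inner_sub_right, inner_sub_right, real_inner_comm v v']
    rw [real_inner_comm v v'] at h2
    linarith
  have h4 : v - v' = 0 := by
    rw [real_inner_self_eq_norm_sq] at h3
    have h5 : ‖v - v'‖ = 0 := by nlinarith [norm_nonneg (v - v')]
    exact norm_eq_zero.mp h5
  exact sub_eq_zero.mp h4

lemma exists_isMinPt (z : ι → F) (I : Finset ι) (hI : I.Nonempty) :
    ∃ v, IsMinPt (convexHull ℝ (z '' (I : Set ι))) v := by
  have hfin : (z '' (I : Set ι)).Finite := (I.finite_toSet).image z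
  have hcomp : IsComplete (convexHull ℝ (z '' (I : Set ι))) := (hfin.isCompact_convexHull (𝕜 := ℝ)).isComplete
  have hne : (convexHull ℝ (z '' (I : Set ι))).Nonempty :=
    (convexHull_nonempty_iff).mpr (Set.Nonempty.image z (by simpa using hI))
  obtain ⟨v, hv, hmin⟩ := exists_norm_eq_iInf_of_complete_convex hne hcomp (convex_convexHull ℝ _) 0
  refine ⟨v, hv, ?_⟩
  intro w hw
  have := (norm_eq_iInf_iff_real_inner_le_zero (convex_convexHull ℝ _) hv).mp hmin w hw
  rw [zero_sub, inner_neg_left, inner_sub_right] at this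
  linarith

/-- if the family is good, the minimal point gives a witness -/
lemma IsMinPt.pos {z : ι → F} {I : Finset ι} {v : F} (hg : Good z I)
    (hv : IsMinPt (convexHull ℝ (z '' (I : Set ι))) v) : ∀ i ∈ I, 0 < ⟪v, z i⟫ := by
  obtain ⟨w, hw⟩ := hg
  have hconv : Convex ℝ {y : F | 0 < ⟪w, y⟫} := by
    have := convex_halfSpace_gt (𝕜 := ℝ) (f := fun y : F => ⟪w, y⟫)
      ⟨fun a b => inner_add_right _ _ _, fun c a => real_inner_smul_right _ _ _⟩ 0
    exact this
  have hsub : convexHull ℝ (z '' (I : Set ι)) ⊆ {y : F | 0 < ⟪w, y⟫} := by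
    apply convexHull_min _ hconv
    rintro _ ⟨i, hi, rfl⟩
    exact hw i (by simpa using hi)
  have hv0 : v ≠ 0 := by
    rintro rfl
    have := hsub hv.1
    simp at this
  intro i hi
  have h1 := hv.2 (z i) (subset_convexHull ℝ _ ⟨i, by simpa using hi, rfl⟩)
  have h2 : 0 < ⟪v, v⟫ := real_inner_self_pos.mpr hv0
  linarith

/-- compression: the minimal point of a good family is the minimal point of a subfamily with at most
`finrank F` members. -/
theorem exists_basis [FiniteDimensional ℝ F] (z : ι → F) (I : Finset ι) (hg : Good z I) {v : F}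
    (hv : IsMinPt (convexHull ℝ (z '' (I : Set ι))) v) :
    ∃ J ⊆ I, #J ≤ Module.finrank ℝ F ∧ v ∈ convexHull ℝ (z '' (J : Set ι)) := by
  classical
  have hpos := hv.pos hg
  -- representation of v by affinely independent positive combination of points in the face
  have hface : v ∈ convexHull ℝ (z '' {i | i ∈ I ∧ ⟪v, z i⟫ = ⟪v, v⟫}) := by
    have h1 := hv.1
    rw [← Finset.coe_image, Finset.mem_convexHull'] at h1
    obtain ⟨w, hw0, hw1, hw2⟩ := h1
    have hmem : ∀ y ∈ I.image z, ⟪v, v⟫ ≤ ⟪v, y⟫ := by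
      intro y hy
      apply hv.2 y
      apply subset_convexHull ℝ _
      rw [← Finset.coe_image]
      exact hy
    have hsum : ∑ y ∈ I.image z, w y * (⟪v, y⟫ - ⟪v, v⟫) = 0 := by
      have : ∑ y ∈ I.image z, w y * (⟪v, y⟫ - ⟪v, v⟫) =
          ⟪v, ∑ y ∈ I.image z, w y • y⟫ - (∑ y ∈ I.image z, w y) * ⟪v, v⟫ := by
        rw [inner_sum, Finset.sum_mul, ← Finset.sum_sub_distrib]
        refine Finset.sum_congr rfl fun y _ => ?_
        rw [real_inner_smul_right]
        ring
      rw [this, hw1, hw2]
      ring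
    have hzero : ∀ y ∈ I.image z, w y * (⟪v, y⟫ - ⟪v, v⟫) = 0 := by
      apply (Finset.sum_eq_zero_iff_of_nonneg _).mp hsum
      intro y hy
      exact mul_nonneg (hw0 y hy) (by linarith [hmem y hy])
    have hcoe : z '' {i | i ∈ I ∧ ⟪v, z i⟫ = ⟪v, v⟫} = (((I.image z).filter
        (fun y => ⟪v, y⟫ = ⟪v, v⟫) : Finset F) : Set F) := by
      ext y
      simp only [Set.mem_image, Set.mem_ofPred_eq, Finset.coe_filter, Finset.mem_image]
      constructor
      · rintro ⟨i, ⟨hi, he⟩, rfl⟩
        exact ⟨⟨i, hi, rfl⟩, he⟩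
      · rintro ⟨⟨i, hi, rfl⟩, he⟩
        exact ⟨i, ⟨hi, he⟩, rfl⟩
    rw [hcoe, Finset.mem_convexHull']
    refine ⟨w, fun y hy => hw0 y (Finset.mem_filter.mp hy).1, ?_, ?_⟩
    · rw [Finset.sum_filter_of_ne]
      · exact hw1
      · intro y hy hne
        rcases mul_eq_zero.mp (hzero y hy) with h | h
        · exact absurd h hne
        · linarith
    · rw [Finset.sum_filter_of_ne]
      · exact hw2
      · intro y hy hne
        rcases mul_eq_zero.mp (hzero y hy) with h | h
        · rw [h, zero_smul] at hne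
          exact absurd rfl hne
        · linarith
  obtain ⟨κ, hκ, y, a, hy, haff, ha, ha1, hay⟩ := eq_pos_convex_span_of_mem_convexHull hface
  have hsel : ∀ k, ∃ i, (i ∈ I ∧ ⟪v, z i⟫ = ⟪v, v⟫) ∧ z i = y k := fun k => hy ⟨k, rfl⟩
  choose s hs hsy using hsel
  have hlin : LinearIndependent ℝ y := by
    rw [Fintype.linearIndependent_iff]
    intro g hg0
    have h1 : ∑ k, g k = 0 := by
      have h2 : ⟪v, ∑ k, g k • y k⟫ = (∑ k, g k) * ⟪v, v⟫ := by
        rw [inner_sum, Finset.sum_mul]
        refine Finset.sum_congr rfl fun k _ => ?_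
        rw [real_inner_smul_right, ← hsy k, (hs k).2]
      rw [hg0, inner_zero_right] at h2
      have hvv : ⟪v, v⟫ ≠ 0 := by
        intro h0
        have hne : Nonempty κ := by
          by_contra hemp
          rw [not_nonempty_iff] at hemp
          simp at ha1
        obtain ⟨k⟩ := hne
        have := hpos (s k) (hs k).1
        rw [(hs k).2, h0] at this
        exact lt_irrefl _ this
      rcases mul_eq_zero.mp h2.symm with h | h
      · exact h
      · exact absurd h hvv
    have := (affineIndependent_iff (k := ℝ) (p := y)).mp haff Finset.univ g h1 hg0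
    intro k
    exact this k (Finset.mem_univ k)
  refine ⟨Finset.univ.image s, ?_, ?_, ?_⟩
  · intro i hi
    simp only [Finset.mem_image, Finset.mem_univ, true_and] at hi
    obtain ⟨k, rfl⟩ := hi
    exact (hs k).1
  · calc #(Finset.univ.image s) ≤ #(Finset.univ : Finset κ) := Finset.card_image_le
      _ = Fintype.card κ := rfl
      _ ≤ Module.finrank ℝ F := hlin.fintype_card_le_finrank
  · rw [← hay]
    apply (convex_convexHull ℝ _).sum_mem (fun k _ => (ha k).le) ha1
    intro k _
    apply subset_convexHull ℝ _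
    exact ⟨s k, by simp, hsy k⟩

end Run7.h222.Hemi
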