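import Mathlib
import Pool.Agent.Run7.h222.Hemi

/-!
Counting: if every vector `w` is in conflict with many of the `z i`, then many `(D+1)`-subsets are bad.
-/

open Finset
open scoped RealInnerProductSpace

namespace Run7.h222.Hemi

variable {F : Type*} [NormedAddCommGroup F] [InnerProductSpace ℝ F]
variable {ι : Type*}

open Classical in
/-- a choice of the point of smallest norm of the convex hull of the `z i`, `i ∈ I` -/
noncomputable def minPt (z : ι → F) (I : Finset ι) : F :=
  if h : I.Nonempty then (exists_isMinPt z I h).choose else 0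

lemma minPt_spec (z : ι → F) {I : Finset ι} (h : I.Nonempty) :
    IsMinPt (convexHull ℝ (z '' (I : Set ι))) (minPt z I) := by
  rw [minPt, dif_pos h]
  exact (exists_isMinPt z I h).choose_spec

lemma minPt_eq {z : ι → F} {I I' J : Finset ι} (hI : I.Nonempty) (hI' : I'.Nonempty)
    (hJ : J ⊆ I') (hsub : I' ⊆ I) (hv : minPt z I ∈ convexHull ℝ (z '' (J : Set ι))) :
    minPt z I' = minPt z I := by
  apply (minPt_spec z hI').unique
  refine ⟨convexHull_mono (Set.image_mono (by exact_mod_cast hJ)) hv, ?_⟩
  intro w hw
  exact (minPt_spec z hI).2 w (convexHull_mono (Set.image_mono (by exact_mod_cast hsub)) hw)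

open Classical in
theorem count_good [FiniteDimensional ℝ F] (z : ι → F) (x : ι) (X : Finset ι)
    (D : ℕ) (hD : Module.finrank ℝ F = D) (k m : ℕ) (hm : D ≤ m)
    (hk : ∀ w : F, 0 < ⟪w, z x⟫ → k ≤ #{i ∈ X | ¬ 0 < ⟪w, z i⟫}) :
    #{R ∈ X.powersetCard (2 * m) | Good z (insert x R)} * (2 * m - D).choose m
      ≤ (#X).choose m * (#X - m - k).choose m := by
  rw [← Finset.card_powersetCard m X]
  set s := {R ∈ X.powersetCard (2 * m) | Good z (insert x R)} with hs
  let r : Finset ι → Finset ι → Prop := fun R R' => R' ⊆ R ∧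
    ∀ i ∈ R \ R', 0 < ⟪minPt z (insert x R'), z i⟫
  apply Finset.card_mul_le_card_mul r
  · intro R hR
    rw [hs, Finset.mem_filter, Finset.mem_powersetCard] at hR
    obtain ⟨⟨hRX, hRc⟩, hg⟩ := hR
    have hne : (insert x R).Nonempty := Finset.insert_nonempty _ _
    obtain ⟨J, hJI, hJc, hJv⟩ := exists_basis z (insert x R) hg (minPt_spec z hne)
    have hJ' : J.erase x ⊆ R := by
      intro i hi
      rw [Finset.mem_erase] at hi
      have := hJI hi.2
      rw [Finset.mem_insert] at this
      exact this.resolve_left hi.1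
    have hJ'c : #(J.erase x) ≤ D := (Finset.card_le_card (Finset.erase_subset _ _)).trans (hJc.trans hD.le)
    obtain ⟨J'', hJ1, hJ2, hJ3⟩ := Finset.exists_subsuperset_card_eq hJ' hJ'c (by omega : D ≤ #R)
    have hcard : (2 * m - D).choose m = #((R \ J'').powersetCard m) := by
      rw [Finset.card_powersetCard, Finset.card_sdiff_of_subset hJ2, hRc, hJ3]
    rw [hcard]
    apply Finset.card_le_card_of_injOn (fun Q => R \ Q)
    · intro Q hQ
      rw [Finset.mem_coe, Finset.mem_powersetCard] at hQ
      have hQR : Q ⊆ R := hQ.1.trans Finset.sdiff_subset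
      have hJR' : J'' ⊆ R \ Q := by
        intro i hi
        rw [Finset.mem_sdiff]
        refine ⟨hJ2 hi, fun hiQ => ?_⟩
        exact (Finset.mem_sdiff.mp (hQ.1 hiQ)).2 hi
      have hmp : minPt z (insert x (R \ Q)) = minPt z (insert x R) := by
        apply minPt_eq hne (Finset.insert_nonempty _ _) (J := J) _ _ hJv
        · intro i hi
          rw [Finset.mem_insert]
          by_cases hix : i = x
          · exact Or.inl hix
          · exact Or.inr (hJR' (hJ1 (Finset.mem_erase.mpr ⟨hix, hi⟩)))
        · exact Finset.insert_subset_insert _ Finset.sdiff_subset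
      simp only [Finset.mem_bipartiteAbove, Finset.mem_powersetCard, Finset.mem_coe]
      refine ⟨⟨Finset.sdiff_subset.trans hRX, ?_⟩, Finset.sdiff_subset, ?_⟩
      · rw [Finset.card_sdiff_of_subset hQR, hRc, hQ.2]; omega
      · intro i hi
        rw [hmp]
        apply (minPt_spec z hne).pos hg
        exact Finset.mem_insert_of_mem (Finset.sdiff_subset hi)
    · intro Q hQ Q' hQ' hQQ
      rw [Finset.mem_coe, Finset.mem_powersetCard] at hQ hQ'
      have hQR : Q ⊆ R := hQ.1.trans Finset.sdiff_subset
      have hQR' : Q' ⊆ R := hQ'.1.trans Finset.sdiff_subset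
      simp only at hQQ
      rw [← Finset.sdiff_sdiff_eq_self hQR, hQQ, Finset.sdiff_sdiff_eq_self hQR']
  · intro R' hR'
    rw [Finset.mem_powersetCard] at hR'
    rcases Finset.eq_empty_or_nonempty (Finset.bipartiteBelow r s R') with hemp | ⟨R0, hR0⟩
    · rw [hemp]; simp
    rw [Finset.mem_bipartiteBelow, hs, Finset.mem_filter] at hR0
    have hgood : Good z (insert x R') := hR0.1.2.mono (Finset.insert_subset_insert _ hR0.2.1)
    set v := minPt z (insert x R') with hv
    have hvpos := (minPt_spec z (Finset.insert_nonempty x R')).pos hgood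
    rw [← hv] at hvpos
    have hcardY : #{i ∈ X \ R' | 0 < ⟪v, z i⟫} ≤ #X - m - k := by
      have h1 := hk v (hvpos x (Finset.mem_insert_self _ _))
      have h2 : #{i ∈ X \ R' | 0 < ⟪v, z i⟫} + #R' + #{i ∈ X | ¬ 0 < ⟪v, z i⟫} ≤ #X := by
        rw [← Finset.card_union_of_disjoint, ← Finset.card_union_of_disjoint]
        · apply Finset.card_le_card
          intro i hi
          simp only [Finset.mem_union, Finset.mem_filter, Finset.mem_sdiff] at hi
          rcases hi with (hi | hi) | hi
          · exact hi.1.1
          · exact hR'.1 hi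
          · exact hi.1
        · rw [Finset.disjoint_left]
          intro i hi hi2
          simp only [Finset.mem_union, Finset.mem_filter, Finset.mem_sdiff] at hi hi2
          rcases hi with hi | hi
          · exact hi2.2 hi.2
          · exact hi2.2 (hvpos i (Finset.mem_insert_of_mem hi))
        · rw [Finset.disjoint_left]
          intro i hi hi2
          simp only [Finset.mem_filter, Finset.mem_sdiff] at hi
          exact hi.1.2 hi2
      rw [hR'.2] at h2
      omega
    calc #(Finset.bipartiteBelow r s R')
        ≤ #(({i ∈ X \ R' | 0 < ⟪v, z i⟫} : Finset ι).powersetCard m) := by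
          apply Finset.card_le_card_of_injOn (fun R => R \ R')
          · intro R hR
            rw [Finset.mem_coe, Finset.mem_bipartiteBelow, hs, Finset.mem_filter, Finset.mem_powersetCard] at hR
            simp only [Finset.mem_coe, Finset.mem_powersetCard]
            refine ⟨?_, ?_⟩
            · intro i hi
              rw [Finset.mem_filter, Finset.mem_sdiff]
              refine ⟨⟨hR.1.1.1 (Finset.sdiff_subset hi), (Finset.mem_sdiff.mp hi).2⟩, ?_⟩
              exact hR.2.2 i hi
            · rw [Finset.card_sdiff_of_subset hR.2.1, hR.1.1.2, hR'.2]; omega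
          · intro R hR R1 hR1 hRR
            rw [Finset.mem_coe, Finset.mem_bipartiteBelow] at hR hR1
            simp only at hRR
            rw [← Finset.sdiff_union_of_subset hR.2.1, hRR, Finset.sdiff_union_of_subset hR1.2.1]
      _ = (#{i ∈ X \ R' | 0 < ⟪v, z i⟫}).choose m := Finset.card_powersetCard _ _
      _ ≤ (#X - m - k).choose m := Nat.choose_le_choose _ hcardY

open Classical in
theorem count_bad [FiniteDimensional ℝ F] (z : ι → F) (x : ι) (X : Finset ι)
    (D : ℕ) (hD : Module.finrank ℝ F = D) (hD1 : 1 ≤ D) (M : ℕ) (hM : D ≤ M) :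
    #{R ∈ X.powersetCard M | ¬ Good z (insert x R)}
      ≤ #{T ∈ X.powersetCard D | ¬ Good z (insert x T)} * (#X - D).choose (M - D) := by
  set s := {R ∈ X.powersetCard M | ¬ Good z (insert x R)} with hs
  set t := {T ∈ X.powersetCard D | ¬ Good z (insert x T)} with ht
  rw [← Nat.mul_one (#s)]
  apply Finset.card_mul_le_card_mul (fun R T => T ⊆ R)
  · intro R hR
    rw [hs, Finset.mem_filter, Finset.mem_powersetCard] at hR
    obtain ⟨⟨hRX, hRc⟩, hb⟩ := hR
    have : ∃ T ⊆ R, #T ≤ D ∧ ¬ Good z (insert x T) := by
      by_contra hcon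
      push Not at hcon
      exact hb (good_insert_of_forall z x R D hD hD1 hcon)
    obtain ⟨T, hTR, hTc, hTb⟩ := this
    obtain ⟨T', h1, h2, h3⟩ := Finset.exists_subsuperset_card_eq hTR hTc (by omega : D ≤ #R)
    rw [Nat.one_le_iff_ne_zero, Finset.card_ne_zero]
    refine ⟨T', ?_⟩
    rw [Finset.mem_bipartiteAbove, ht, Finset.mem_filter, Finset.mem_powersetCard]
    exact ⟨⟨⟨h2.trans hRX, h3⟩, fun hg => hTb (hg.mono (Finset.insert_subset_insert _ h1))⟩, h2⟩
  · intro T hT
    rw [ht, Finset.mem_filter, Finset.mem_powersetCard] at hT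
    have hc : #(X \ T) = #X - D := by rw [Finset.card_sdiff_of_subset hT.1.1, hT.1.2]
    rw [← hc, ← Finset.card_powersetCard]
    apply Finset.card_le_card_of_injOn (fun R => R \ T)
    · intro R hR
      rw [Finset.mem_coe, Finset.mem_bipartiteBelow, hs, Finset.mem_filter, Finset.mem_powersetCard] at hR
      simp only [Finset.mem_coe, Finset.mem_powersetCard]
      refine ⟨Finset.sdiff_subset_sdiff hR.1.1.1 (Finset.Subset.refl _), ?_⟩
      rw [Finset.card_sdiff_of_subset hR.2, hR.1.1.2, hT.1.2]
    · intro R hR R1 hR1 hRR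
      rw [Finset.mem_coe, Finset.mem_bipartiteBelow] at hR hR1
      simp only at hRR
      rw [← Finset.sdiff_union_of_subset hR.2, hRR, Finset.sdiff_union_of_subset hR1.2]

open Classical in
theorem count_sum (z : ι → F) (S : Finset ι) (D β : ℕ)
    (h : ∀ x ∈ S, β ≤ #{T ∈ (S.erase x).powersetCard D | ¬ Good z (insert x T)}) :
    #S * β ≤ #{T ∈ S.powersetCard (D + 1) | ¬ Good z T} * (D + 1) := by
  apply Finset.card_mul_le_card_mul (fun x T => x ∈ T)
  · intro x hx
    refine (h x hx).trans ?_
    apply Finset.card_le_card_of_injOn (fun T => insert x T)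
    · intro T hT
      rw [Finset.mem_coe, Finset.mem_filter, Finset.mem_powersetCard] at hT
      have hxT : x ∉ T := fun hxT => by
        have := hT.1.1 hxT
        simp at this
      rw [Finset.mem_coe, Finset.mem_bipartiteAbove, Finset.mem_filter, Finset.mem_powersetCard]
      refine ⟨⟨⟨?_, ?_⟩, hT.2⟩, Finset.mem_insert_self _ _⟩
      · intro i hi
        rw [Finset.mem_insert] at hi
        rcases hi with rfl | hi
        · exact hx
        · exact Finset.mem_of_mem_erase (hT.1.1 hi)
      · rw [Finset.card_insert_of_notMem hxT, hT.1.2]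
    · intro T hT T' hT' hTT
      rw [Finset.mem_coe, Finset.mem_filter, Finset.mem_powersetCard] at hT hT'
      have hxT : x ∉ T := fun hxT => by
        have := hT.1.1 hxT
        simp at this
      have hxT' : x ∉ T' := fun hxT => by
        have := hT'.1.1 hxT
        simp at this
      simp only at hTT
      rw [← Finset.erase_insert hxT, hTT, Finset.erase_insert hxT']
  · intro T hT
    rw [Finset.mem_filter, Finset.mem_powersetCard] at hT
    calc #(Finset.bipartiteBelow (fun x T => x ∈ T) S T) ≤ #T := by
          apply Finset.card_le_card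
          intro i hi
          rw [Finset.mem_bipartiteBelow] at hi
          exact hi.2
      _ = D + 1 := hT.1.2

/-- `C(a-k, m) a^m ≤ C(a, m) (a-k)^m` -/
lemma choose_sub_mul_pow_le (a k : ℕ) (hk : k ≤ a) (m : ℕ) :
    (a - k).choose m * a ^ m ≤ a.choose m * (a - k) ^ m := by
  induction m with
  | zero => simp
  | succ m ih =>
    have h1 : (a - k).choose (m + 1) * (m + 1) = (a - k).choose m * (a - k - m) := Nat.choose_succ_right_eq _ _
    have h2 : a.choose (m + 1) * (m + 1) = a.choose m * (a - m) := Nat.choose_succ_right_eq _ _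
    have h3 : (a - k - m) * a ≤ (a - m) * (a - k) := by
      rcases Nat.lt_or_ge (a - k) m with h | h
      · have : a - k - m = 0 := by omega
        rw [this]; simp
      · obtain ⟨c, hc⟩ := Nat.exists_eq_add_of_le h
        have ha : a = m + c + k := by omega
        subst ha
        have e1 : m + c + k - k - m = c := by omega
        have e2 : m + c + k - m = c + k := by omega
        have e3 : m + c + k - k = m + c := by omega
        rw [e1, e2, e3]
        nlinarith [Nat.zero_le (k * m)]
    have : ((a - k).choose (m + 1) * a ^ (m + 1)) * (m + 1)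
        ≤ (a.choose (m + 1) * (a - k) ^ (m + 1)) * (m + 1) := by
      calc ((a - k).choose (m + 1) * a ^ (m + 1)) * (m + 1)
          = ((a - k).choose (m + 1) * (m + 1)) * (a ^ m * a) := by ring
        _ = ((a - k).choose m * a ^ m) * ((a - k - m) * a) := by rw [h1]; ring
        _ ≤ (a.choose m * (a - k) ^ m) * ((a - m) * (a - k)) := Nat.mul_le_mul ih h3
        _ = (a.choose m * (a - m)) * ((a - k) ^ m * (a - k)) := by ring
        _ = (a.choose (m + 1) * (a - k) ^ (m + 1)) * (m + 1) := by rw [← h2]; ring
    exact Nat.le_of_mul_le_mul_right this (Nat.succ_pos m)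

lemma choose_two_mul_le (m : ℕ) : ∀ D : ℕ, 2 * D ≤ m → (2 * m).choose m ≤ 4 ^ D * (2 * m - D).choose m := by
  intro D
  induction D with
  | zero => intro _; simp
  | succ D ih =>
    intro h
    refine (ih (by omega)).trans ?_
    rw [pow_succ, mul_assoc]
    apply Nat.mul_le_mul_left
    obtain ⟨a, ha⟩ : ∃ a, 2 * m - D = a + 1 := ⟨2 * m - D - 1, by omega⟩
    have ha' : 2 * m - (D + 1) = a := by omega
    rw [ha, ha']
    have h1 : (a + 1).choose m * (a + 1 - m) = (a + 1) * a.choose m := by
      have := Nat.choose_mul_succ_eq a m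
      rw [← this, mul_comm]
    have h2 : a + 1 ≤ 4 * (a + 1 - m) := by omega
    have h3 : 0 < a + 1 - m := by omega
    have : (a + 1).choose m * (a + 1 - m) ≤ (4 * a.choose m) * (a + 1 - m) := by
      rw [h1]
      calc (a + 1) * a.choose m ≤ (4 * (a + 1 - m)) * a.choose m := Nat.mul_le_mul_right _ h2
        _ = _ := by ring
    exact Nat.le_of_mul_le_mul_right this h3

end Run7.h222.Hemi
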