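import Mathlib
import Pool.Agent.Run7.h222.HemiCount

/-!
Main counting theorem: many conflicts for every `w` force many bad `(D+1)`-subsets, and its
inverse form with the rate `ε ^ (1/D)`.
-/

open Finset
open scoped RealInnerProductSpace

namespace Run7.h222.Hemi

variable {F : Type*} [NormedAddCommGroup F] [InnerProductSpace ℝ F]
variable {ι : Type*}

open Classical in
/-- conflicts of `w` in `S` -/
noncomputable def conf (z : ι → F) (S : Finset ι) (w : F) : ℕ := #{i ∈ S | ¬ 0 < ⟪w, z i⟫}

open Classical in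
/-- number of bad subsets of size `M` -/
noncomputable def badCount (z : ι → F) (S : Finset ι) (M : ℕ) : ℕ :=
  #{T ∈ S.powersetCard M | ¬ Good z T}

lemma exp_bound (D : ℕ) : (2 : ℝ) * 4 ^ D ≤ Real.exp (2 * D + 1) := by
  have h1 : (2 : ℝ) ≤ Real.exp 1 := by
    have := Real.add_one_le_exp (1 : ℝ)
    linarith
  have h2 : (2 : ℝ) * 4 ^ D = 2 ^ (2 * D + 1) := by
    rw [pow_succ, pow_mul]; norm_num; ring
  rw [h2]
  calc (2 : ℝ) ^ (2 * D + 1) ≤ (Real.exp 1) ^ (2 * D + 1) := by gcongr
    _ = Real.exp (2 * D + 1) := by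
      rw [← Real.exp_nat_mul]
      congr 1
      push_cast
      ring

/-- the numeric core -/
lemma numeric_core (D m n' k : ℕ) (hm : 2 * D ≤ m) (hn' : 2 * m ≤ n')
    (hkm : (2 * D + 1) * n' ≤ k * m) (hm0 : 0 < m) :
    2 * ((2 * m).choose m * (n' - m - k).choose m) ≤ (2 * m - D).choose m * (n' - m).choose m := by
  have hn0 : 0 < n' := by omega
  rcases Nat.lt_or_ge (n' - m) k with hk | hk
  · have : n' - m - k = 0 := by omega
    rw [this, Nat.choose_eq_zero_of_lt hm0]
    simp
  have hA := choose_two_mul_le m D hm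
  have hB := choose_sub_mul_pow_le (n' - m) k hk m
  have ha0 : 0 < n' - m := by omega
  -- (n'-m-k)^m * (2 * 4^D) ≤ (n'-m)^m
  have hC : ((n' - m - k : ℕ) : ℝ) ^ m * (2 * 4 ^ D) ≤ ((n' - m : ℕ) : ℝ) ^ m := by
    have hkR : (k : ℝ) ≤ ((n' - m : ℕ) : ℝ) := by exact_mod_cast hk
    have haR : (0 : ℝ) < ((n' - m : ℕ) : ℝ) := by exact_mod_cast ha0
    have hcast : ((n' - m - k : ℕ) : ℝ) = ((n' - m : ℕ) : ℝ) - k := by
      rw [Nat.cast_sub hk]
    rw [hcast]
    set a : ℝ := ((n' - m : ℕ) : ℝ) with ha
    have h1 : a - k ≤ a * Real.exp (-(k / a)) := by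
      have := Real.add_one_le_exp (-(k / a) : ℝ)
      have h2 : a * (-(k / a) + 1) ≤ a * Real.exp (-(k / a)) := mul_le_mul_of_nonneg_left this haR.le
      have h3 : a * (-(k / a) + 1) = a - k := by field_simp; ring
      linarith
    have h2 : (a - k) ^ m ≤ a ^ m * Real.exp (-(k / a) * m) := by
      calc (a - k) ^ m ≤ (a * Real.exp (-(k / a))) ^ m := by
            apply pow_le_pow_left₀ (by linarith) h1
        _ = a ^ m * Real.exp (-(k / a) * m) := by
            rw [mul_pow, ← Real.exp_nat_mul]
            congr 2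
            ring
    have h3 : (2 : ℝ) * 4 ^ D ≤ Real.exp (k / a * m) := by
      refine (exp_bound D).trans (Real.exp_le_exp.mpr ?_)
      have han : a ≤ n' := by
        rw [ha]; exact_mod_cast Nat.sub_le _ _
      have h4 : ((2 * D + 1 : ℕ) : ℝ) * n' ≤ k * m := by exact_mod_cast hkm
      push_cast at h4
      have h5 : (2 * (D : ℝ) + 1) * a ≤ k * m := le_trans (by gcongr) h4
      rw [div_mul_eq_mul_div, le_div_iff₀ haR]
      exact h5
    calc (a - k) ^ m * (2 * 4 ^ D) ≤ (a ^ m * Real.exp (-(k / a) * m)) * Real.exp (k / a * m) := by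
          apply mul_le_mul h2 h3 (by positivity) (by positivity)
      _ = a ^ m * (Real.exp (-(k / a) * m) * Real.exp (k / a * m)) := by ring
      _ = a ^ m := by rw [← Real.exp_add]; simp
  have hC' : (n' - m - k) ^ m * (2 * 4 ^ D) ≤ (n' - m) ^ m := by exact_mod_cast hC
  have hpos : 0 < (n' - m) ^ m := pow_pos ha0 m
  have hfin : (2 * ((2 * m).choose m * (n' - m - k).choose m)) * (n' - m) ^ m
      ≤ ((2 * m - D).choose m * (n' - m).choose m) * (n' - m) ^ m := by
    calc (2 * ((2 * m).choose m * (n' - m - k).choose m)) * (n' - m) ^ m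
        = (2 * m).choose m * 2 * ((n' - m - k).choose m * (n' - m) ^ m) := by ring
      _ ≤ (4 ^ D * (2 * m - D).choose m) * 2 * ((n' - m).choose m * (n' - m - k) ^ m) := by
          apply Nat.mul_le_mul (Nat.mul_le_mul_right _ hA) hB
      _ = ((2 * m - D).choose m * (n' - m).choose m) * ((n' - m - k) ^ m * (2 * 4 ^ D)) := by ring
      _ ≤ ((2 * m - D).choose m * (n' - m).choose m) * (n' - m) ^ m := Nat.mul_le_mul_left _ hC'
  exact Nat.le_of_mul_le_mul_right hfin hpos

/-- If every `w` is in conflict with at least `k` members, and `k m ≥ (2D+1) n`, then the number of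
bad `(D+1)`-subsets is at least `C(n, D+1) / (2 C(2m, D))`. -/
theorem many_bad [FiniteDimensional ℝ F] (z : ι → F) (S : Finset ι) (D : ℕ)
    (hD : Module.finrank ℝ F = D) (hD1 : 1 ≤ D) (k m : ℕ) (hm : 2 * D ≤ m) (hmS : 2 * m + 1 ≤ #S)
    (hkm : (2 * D + 1) * #S ≤ k * m) (hk : ∀ w : F, k ≤ conf z S w) :
    (#S).choose (D + 1) ≤ 2 * (2 * m).choose D * badCount z S (D + 1) := by
  classical
  have hm0 : 0 < m := by omega
  have hkS : k ≤ #S := (hk 0).trans (Finset.card_filter_le _ _)
  have hβ : ∀ x ∈ S, (#S - 1).choose D ≤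
      2 * (2 * m).choose D * #{T ∈ (S.erase x).powersetCard D | ¬ Good z (insert x T)} := by
    intro x hx
    set X := S.erase x with hX
    have hXc : #X = #S - 1 := Finset.card_erase_of_mem hx
    have hSX : S = insert x X := (Finset.insert_erase hx).symm
    have hxX : x ∉ X := by simp [hX]
    have hkX : ∀ w : F, 0 < ⟪w, z x⟫ → k ≤ #{i ∈ X | ¬ 0 < ⟪w, z i⟫} := by
      intro w hw
      have := hk w
      rw [conf, hSX, Finset.filter_insert, if_neg (by simpa using hw)] at this
      exact this
    by_cases hX0 : ∀ w : F, ¬ 0 < ⟪w, z x⟫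
    · -- everything is bad
      have hall : ∀ T : Finset ι, ¬ Good z (insert x T) := by
        rintro T ⟨w, hw⟩
        exact hX0 w (hw x (Finset.mem_insert_self _ _))
      rw [Finset.filter_true_of_mem (fun T _ => hall T), Finset.card_powersetCard, hXc]
      have : 0 < 2 * (2 * m).choose D := Nat.mul_pos (by norm_num) (Nat.choose_pos (by omega))
      exact Nat.le_mul_of_pos_left _ this
    push Not at hX0
    obtain ⟨w0, hw0⟩ := hX0
    have hkX' : k ≤ #X := (hkX w0 hw0).trans (Finset.card_filter_le _ _)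
    have h1 := count_good z x X D hD k m (by omega) hkX
    have h2 := count_bad z x X D hD hD1 (2 * m) (by omega)
    have h3 : #{R ∈ X.powersetCard (2 * m) | Good z (insert x R)} +
        #{R ∈ X.powersetCard (2 * m) | ¬ Good z (insert x R)} = (#X).choose (2 * m) := by
      rw [Finset.card_filter_add_card_filter_not, Finset.card_powersetCard]
    set g := #{R ∈ X.powersetCard (2 * m) | Good z (insert x R)} with hg
    set bd := #{R ∈ X.powersetCard (2 * m) | ¬ Good z (insert x R)} with hbd
    set bx := #{T ∈ X.powersetCard D | ¬ Good z (insert x T)} with hbx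
    have hcore := numeric_core D m (#X) k hm (by omega) (by
      calc (2 * D + 1) * #X ≤ (2 * D + 1) * #S := Nat.mul_le_mul_left _ (by omega)
        _ ≤ k * m := hkm) hm0
    have hch1 : (#X).choose (2 * m) * (2 * m).choose m = (#X).choose m * (#X - m).choose m := by
      have := Nat.choose_mul (n := #X) (k := 2 * m) (s := m) (by omega)
      rw [this]
      congr 2
      omega
    -- 2 g ≤ C(n', 2m)
    have h4 : 2 * g ≤ (#X).choose (2 * m) := by
      have hp1 : 0 < (2 * m - D).choose m := Nat.choose_pos (by omega)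
      have hp2 : 0 < (2 * m).choose m := Nat.choose_pos (by omega)
      have : (2 * g) * ((2 * m - D).choose m * (2 * m).choose m) ≤
          (#X).choose (2 * m) * ((2 * m - D).choose m * (2 * m).choose m) := by
        calc (2 * g) * ((2 * m - D).choose m * (2 * m).choose m)
            = (g * (2 * m - D).choose m) * (2 * (2 * m).choose m) := by ring
          _ ≤ ((#X).choose m * (#X - m - k).choose m) * (2 * (2 * m).choose m) :=
              Nat.mul_le_mul_right _ h1
          _ = (#X).choose m * (2 * ((2 * m).choose m * (#X - m - k).choose m)) := by ring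
          _ ≤ (#X).choose m * ((2 * m - D).choose m * (#X - m).choose m) := Nat.mul_le_mul_left _ hcore
          _ = ((#X).choose m * (#X - m).choose m) * (2 * m - D).choose m := by ring
          _ = _ := by rw [← hch1]; ring
      exact Nat.le_of_mul_le_mul_right this (Nat.mul_pos hp1 hp2)
    have h5 : (#X).choose (2 * m) ≤ 2 * bd := by omega
    have hch2 : (#X).choose (2 * m) * (2 * m).choose D = (#X).choose D * (#X - D).choose (2 * m - D) :=
      Nat.choose_mul (by omega)
    have hp3 : 0 < (#X - D).choose (2 * m - D) := Nat.choose_pos (by omega)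
    rw [← hXc]
    have : (#X).choose D * (#X - D).choose (2 * m - D) ≤
        (2 * (2 * m).choose D * bx) * (#X - D).choose (2 * m - D) := by
      rw [← hch2]
      calc (#X).choose (2 * m) * (2 * m).choose D ≤ (2 * bd) * (2 * m).choose D := Nat.mul_le_mul_right _ h5
        _ ≤ (2 * (bx * (#X - D).choose (2 * m - D))) * (2 * m).choose D := by
            apply Nat.mul_le_mul_right
            exact Nat.mul_le_mul_left _ h2
        _ = _ := by ring
    exact Nat.le_of_mul_le_mul_right this hp3
  -- sum over x: use β = ceiling; we avoid division by scaling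
  have hsum : #S * (#S - 1).choose D ≤ 2 * (2 * m).choose D * (badCount z S (D + 1) * (D + 1)) := by
    -- minimal b_x
    have hne : S.Nonempty := by
      rw [← Finset.card_pos]; omega
    obtain ⟨x0, hx0, hmin⟩ := Finset.exists_min_image S
      (fun x => #{T ∈ (S.erase x).powersetCard D | ¬ Good z (insert x T)}) hne
    have h6 := count_sum z S D (#{T ∈ (S.erase x0).powersetCard D | ¬ Good z (insert x0 T)})
      (fun x hx => hmin x hx)
    calc #S * (#S - 1).choose D ≤ #S * (2 * (2 * m).choose D *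
          #{T ∈ (S.erase x0).powersetCard D | ¬ Good z (insert x0 T)}) :=
          Nat.mul_le_mul_left _ (hβ x0 hx0)
      _ = 2 * (2 * m).choose D * (#S *
          #{T ∈ (S.erase x0).powersetCard D | ¬ Good z (insert x0 T)}) := by ring
      _ ≤ 2 * (2 * m).choose D * (badCount z S (D + 1) * (D + 1)) := Nat.mul_le_mul_left _ h6
  have hch : #S * (#S - 1).choose D = (#S).choose (D + 1) * (D + 1) := by
    obtain ⟨a, ha⟩ : ∃ a, #S = a + 1 := ⟨#S - 1, by omega⟩
    rw [ha, Nat.add_sub_cancel, Nat.add_one_mul_choose_eq]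
  rw [hch] at hsum
  have : (#S).choose (D + 1) * (D + 1) ≤ (2 * (2 * m).choose D * badCount z S (D + 1)) * (D + 1) := by
    calc _ ≤ _ := hsum
      _ = _ := by ring
  exact Nat.le_of_mul_le_mul_right this (Nat.succ_pos D)

/-- if fewer than `n/(D+1)` of the `(D+1)`-subsets are bad then everything is good -/
theorem all_good [FiniteDimensional ℝ F] (z : ι → F) (S : Finset ι) (D : ℕ)
    (hD : Module.finrank ℝ F = D) (hD1 : 1 ≤ D) (hS : D + 1 ≤ #S)
    (hb : badCount z S (D + 1) * (D + 1) < #S) : Good z S := by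
  classical
  -- some x lies in no bad (D+1)-subset
  have hex : ∃ x ∈ S, #{T ∈ (S.erase x).powersetCard D | ¬ Good z (insert x T)} = 0 := by
    by_contra hcon
    push Not at hcon
    have := count_sum z S D 1 (fun x hx => Nat.one_le_iff_ne_zero.mpr (hcon x hx))
    rw [badCount] at hb
    omega
  obtain ⟨x, hx, h0⟩ := hex
  rw [Finset.card_eq_zero, Finset.filter_eq_empty_iff] at h0
  rw [← Finset.insert_erase hx]
  apply good_insert_of_forall z x (S.erase x) D hD hD1
  intro T hT hTc
  obtain ⟨T', h1, h2, h3⟩ := Finset.exists_subsuperset_card_eq hT hTc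
    (by rw [Finset.card_erase_of_mem hx]; omega : D ≤ #(S.erase x))
  have := h0 (Finset.mem_powersetCard.mpr ⟨h2, h3⟩)
  rw [not_not] at this
  exact this.mono (Finset.insert_subset_insert _ h1)

/-- Main theorem in vector form. -/
theorem exists_few_conflicts [FiniteDimensional ℝ F] (z : ι → F) (S : Finset ι) (D : ℕ)
    (hD : Module.finrank ℝ F = D) (hD1 : 1 ≤ D) (hS : D + 1 ≤ #S) (t : ℝ) (ht : 0 ≤ t)
    (hb : (badCount z S (D + 1) : ℝ) ≤ t ^ D * (#S).choose (D + 1)) :
    ∃ w : F, (conf z S w : ℝ) ≤ 16 * (2 * D + 1) * t * #S := by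
  classical
  have hn0 : (0 : ℝ) < #S := by
    have : 0 < #S := by omega
    exact_mod_cast this
  have hDR : (1 : ℝ) ≤ D := by exact_mod_cast hD1
  -- trivial case of large t
  by_cases ht1 : 1 ≤ 32 * D * t
  · refine ⟨0, ?_⟩
    have h1 : (conf z S 0 : ℝ) ≤ #S := by
      exact_mod_cast Finset.card_filter_le _ _
    refine h1.trans ?_
    have : (1 : ℝ) ≤ 16 * (2 * D + 1) * t := by nlinarith
    nlinarith
  push Not at ht1
  -- small n
  by_cases hsmall : 4 * t * #S ≤ 1
  · have hgood : Good z S := by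
      apply all_good z S D hD hD1 hS
      have h1 : ((#S).choose (D + 1) : ℝ) ≤ (#S : ℝ) ^ (D + 1) := by
        exact_mod_cast Nat.choose_le_pow _ _
      have h2 : (badCount z S (D + 1) : ℝ) ≤ (t * #S) ^ D * #S := by
        refine hb.trans ?_
        calc t ^ D * ((#S).choose (D + 1) : ℝ) ≤ t ^ D * (#S : ℝ) ^ (D + 1) := by gcongr
          _ = (t * #S) ^ D * #S := by rw [mul_pow, pow_succ]; ring
      have h3 : (t * #S) ^ D ≤ (1 / 4 : ℝ) ^ D := by
        apply pow_le_pow_left₀ (by positivity)
        linarith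
      have h4 : (1 / 4 : ℝ) ^ D * (D + 1) < 1 := by
        have h5 : ((D : ℝ) + 1) < 4 ^ D := by
          have : D + 1 < 4 ^ D := by
            have h6 : D < 2 ^ D := Nat.lt_two_pow_self
            have h7 : 4 ^ D = 2 ^ D * 2 ^ D := by rw [← mul_pow]; norm_num
            have h8 : 2 ≤ 2 ^ D := by
              calc 2 = 2 ^ 1 := by norm_num
                _ ≤ 2 ^ D := Nat.pow_le_pow_right (by norm_num) hD1
            rw [h7]
            nlinarith
          exact_mod_cast this
        rw [one_div, inv_pow]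
        rw [inv_mul_lt_iff₀ (by positivity)]
        linarith
      have h5 : (badCount z S (D + 1) : ℝ) * (D + 1) < #S := by
        calc (badCount z S (D + 1) : ℝ) * (D + 1) ≤ ((t * #S) ^ D * #S) * (D + 1) := by gcongr
          _ ≤ ((1 / 4 : ℝ) ^ D * #S) * (D + 1) := by gcongr
          _ = ((1 / 4 : ℝ) ^ D * (D + 1)) * #S := by ring
          _ < 1 * #S := by gcongr
          _ = #S := one_mul _
      exact_mod_cast h5
    obtain ⟨w, hw⟩ := hgood
    refine ⟨w, ?_⟩
    have : conf z S w = 0 := by
      rw [conf, Finset.card_eq_zero, Finset.filter_eq_empty_iff]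
      intro i hi
      rw [not_not]
      exact hw i hi
    rw [this, Nat.cast_zero]
    positivity
  push Not at hsmall
  have ht0 : 0 < t := by
    rcases ht.lt_or_eq with h | h
    · exact h
    · rw [← h] at hsmall; simp at hsmall; linarith
  by_contra hcon
  push Not at hcon
  set k : ℕ := ⌊16 * (2 * (D : ℝ) + 1) * t * #S⌋₊ + 1 with hk
  set m : ℕ := ⌊1 / (8 * t)⌋₊ with hm
  have hkall : ∀ w : F, k ≤ conf z S w := by
    intro w
    rw [hk, Nat.add_one_le_iff]
    rw [Nat.floor_lt (by positivity)]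
    exact hcon w
  have hm1 : (m : ℝ) ≤ 1 / (8 * t) := Nat.floor_le (by positivity)
  have hm2 : 1 / (8 * t) < m + 1 := Nat.lt_floor_add_one _
  have ht8 : t < 1 / 32 := by nlinarith
  have hm3 : 1 / (16 * t) ≤ m := by
    have : 1 / (8 * t) - 1 ≥ 1 / (16 * t) := by
      rw [ge_iff_le, ← sub_nonneg]
      have : 1 / (8 * t) - 1 - 1 / (16 * t) = (1 - 16 * t) / (16 * t) := by
        field_simp
        ring
      rw [this]
      apply div_nonneg <;> linarith
    linarith
  have hm4 : 2 * D ≤ m := by
    have : (2 * D : ℝ) ≤ m := by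
      refine le_trans ?_ hm3
      rw [le_div_iff₀ (by positivity)]
      linarith
    exact_mod_cast this
  have hm5 : 2 * m + 1 ≤ #S := by
    have : (2 * m : ℝ) < #S := by
      calc (2 * m : ℝ) ≤ 2 * (1 / (8 * t)) := by linarith
        _ = 1 / (4 * t) := by field_simp; ring
        _ < #S := by
          rw [div_lt_iff₀ (by positivity)]
          linarith
    have : 2 * m < #S := by exact_mod_cast this
    omega
  have hkm : (2 * D + 1) * #S ≤ k * m := by
    have : ((2 * (D : ℝ) + 1) * #S) ≤ k * m := by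
      have hk1 : 16 * (2 * (D : ℝ) + 1) * t * #S ≤ k := by
        rw [hk]
        push_cast
        exact (Nat.lt_floor_add_one _).le
      calc (2 * (D : ℝ) + 1) * #S = (16 * (2 * (D : ℝ) + 1) * t * #S) * (1 / (16 * t)) := by
            field_simp
        _ ≤ k * m := by
            apply mul_le_mul hk1 hm3 (by positivity) (by positivity)
    exact_mod_cast this
  have hmain := many_bad z S D hD hD1 k m hm4 hm5 hkm hkall
  have hmainR : ((#S).choose (D + 1) : ℝ) ≤ 2 * ((2 * m).choose D : ℝ) * badCount z S (D + 1) := by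
    exact_mod_cast hmain
  have hchpos : (0 : ℝ) < (#S).choose (D + 1) := by
    exact_mod_cast Nat.choose_pos hS
  have hc1 : ((2 * m).choose D : ℝ) ≤ (2 * m : ℝ) ^ D := by
    exact_mod_cast Nat.choose_le_pow (2 * m) D
  have hc2 : (2 * m : ℝ) ^ D * t ^ D ≤ (1 / 4) ^ D := by
    rw [← mul_pow]
    apply pow_le_pow_left₀ (by positivity)
    calc (2 * m : ℝ) * t ≤ 2 * (1 / (8 * t)) * t := by gcongr
      _ = 1 / 4 := by field_simp; ring
  have hc3 : ((1 : ℝ) / 4) ^ D ≤ 1 / 4 := by
    calc ((1 : ℝ) / 4) ^ D ≤ (1 / 4) ^ 1 := pow_le_pow_of_le_one (by norm_num) (by norm_num) hD1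
      _ = 1 / 4 := pow_one _
  have : ((#S).choose (D + 1) : ℝ) ≤ 1 / 2 * (#S).choose (D + 1) := by
    calc ((#S).choose (D + 1) : ℝ) ≤ 2 * ((2 * m).choose D : ℝ) * badCount z S (D + 1) := hmainR
      _ ≤ 2 * (2 * m : ℝ) ^ D * (t ^ D * (#S).choose (D + 1)) := by gcongr
      _ = 2 * ((2 * m : ℝ) ^ D * t ^ D) * (#S).choose (D + 1) := by ring
      _ ≤ 2 * (1 / 4) * (#S).choose (D + 1) := by
          gcongr
          exact hc2.trans hc3
      _ = 1 / 2 * (#S).choose (D + 1) := by ring
  linarith

end Run7.h222.Hemi
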